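import Pool.Agent.H60.TS.Rel

/-!
All functions of a two-fork system are linear recurrent.
-/

namespace H60TS
open CliffordAlgebra

variable {K : Type*} [Field K]

lemma bil_ext {I : Type*} (f g : (I →₀ K) →ₗ[K] (I →₀ K) →ₗ[K] K)
    (h : ∀ i j, f (Finsupp.single i 1) (Finsupp.single j 1) =
      g (Finsupp.single i 1) (Finsupp.single j 1)) : f = g := by
  apply Finsupp.lhom_ext'
  intro i
  apply LinearMap.ext_ring
  apply Finsupp.lhom_ext'
  intro j
  apply LinearMap.ext_ring
  exact h i j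

/-- form data from a kernel on an index set -/
noncomputable def FD.ofKer {I : Type*} (h2 : (2 : K) ≠ 0) (F : I → I → K) (a b : I → K)
    (h : ∀ i j, F i j + F j i = a i * b j + b i * a j) : FD K (I →₀ K) where
  Φ := Finsupp.linearCombination K (fun i => Finsupp.linearCombination K (F i))
  a := Finsupp.linearCombination K a
  b := Finsupp.linearCombination K b
  h := by
    intro v
    set Φ : (I →₀ K) →ₗ[K] (I →₀ K) →ₗ[K] K :=
      Finsupp.linearCombination K (fun i => Finsupp.linearCombination K (F i))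
    set A : (I →₀ K) →ₗ[K] K := Finsupp.linearCombination K a
    set B : (I →₀ K) →ₗ[K] K := Finsupp.linearCombination K b
    have key : Φ + Φ.flip = LinearMap.mk₂ K (fun u v => A u * B v + B u * A v)
        (by intro u v w; simp only [map_add]; ring) (by intro c u v; simp only [map_smul, smul_eq_mul]; ring)
        (by intro u v w; simp only [map_add]; ring)
        (by intro c u v; simp only [map_smul, smul_eq_mul]; ring) := by
      apply bil_ext
      intro i j
      simp only [LinearMap.add_apply, LinearMap.flip_apply, LinearMap.mk₂_apply, Φ, A, B,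
        Finsupp.linearCombination_single, one_smul]
      exact h i j
    have h1 := LinearMap.congr_fun (LinearMap.congr_fun key v) v
    simp only [LinearMap.add_apply, LinearMap.flip_apply, LinearMap.mk₂_apply] at h1
    apply mul_left_cancel₀ h2
    linear_combination h1

section ofKer

variable {I : Type*} (h2 : (2 : K) ≠ 0) (F : I → I → K) (a b : I → K)
    (h : ∀ i j, F i j + F j i = a i * b j + b i * a j)

lemma FD.ofKer_Φ (u v : I →₀ K) : (FD.ofKer h2 F a b h).Φ u v =
    u.sum (fun i x => v.sum (fun j y => x * (y * F i j))) := by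
  simp only [FD.ofKer, Finsupp.linearCombination_apply, Finsupp.sum, LinearMap.sum_apply,
    LinearMap.smul_apply, smul_eq_mul]
  refine Finset.sum_congr rfl (fun i _ => ?_)
  rw [Finset.mul_sum]

lemma FD.ofKer_Φ_single (i j : I) : (FD.ofKer h2 F a b h).Φ (Finsupp.single i 1)
    (Finsupp.single j 1) = F i j := by
  simp [FD.ofKer, Finsupp.linearCombination_single]

lemma FD.ofKer_a_single (i : I) : (FD.ofKer h2 F a b h).a (Finsupp.single i 1) = a i := by
  simp [FD.ofKer, Finsupp.linearCombination_single]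

lemma FD.ofKer_b_single (i : I) : (FD.ofKer h2 F a b h).b (Finsupp.single i 1) = b i := by
  simp [FD.ofKer, Finsupp.linearCombination_single]

end ofKer

variable {N m : ℕ} (S : Sys K N m)

/-- the free realization -/
noncomputable def Rz.free (h2 : (2 : K) ≠ 0) : Rz S (ℤ →₀ K) where
  S0 := FD.ofKer h2 S.ker (S.P 1) (S.Q 1) S.R0
  S1 := FD.ofKer h2 (fun k l => S.ker l (k + N)) (S.P' 1) (S.Q' 1)
    (by intro k l; rw [add_comm, S.R1])
  e := fun k => Finsupp.single k 1
  Φ0 := by intro k l; rw [FD.ofKer_Φ_single]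
  a0 := by intro k; rw [FD.ofKer_a_single]
  b0 := by intro k; rw [FD.ofKer_b_single]
  Φ1 := by intro k l; rw [FD.ofKer_Φ_single]
  a1 := by intro k; rw [FD.ofKer_a_single]
  b1 := by intro k; rw [FD.ofKer_b_single]

/-- the finite realization from coordinates u -/
noncomputable def Rz.fin (h2 : (2 : K) ≠ 0) {D : ℕ} (u : Fin D → ℤ → K)
    (hP : ∀ k, S.P 1 k = ∑ p : Fin D, S.P 1 ((p : ℕ) : ℤ) * u p k)
    (hQ : ∀ k, S.Q 1 k = ∑ p : Fin D, S.Q 1 ((p : ℕ) : ℤ) * u p k)
    (hP' : ∀ k, S.P' 1 k = ∑ p : Fin D, S.P' 1 ((p : ℕ) : ℤ) * u p k)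
    (hQ' : ∀ k, S.Q' 1 k = ∑ p : Fin D, S.Q' 1 ((p : ℕ) : ℤ) * u p k)
    (hF : ∀ k l, S.ker k l = ∑ p : Fin D, ∑ q : Fin D,
      u p k * (u q l * S.ker ((p : ℕ) : ℤ) ((q : ℕ) : ℤ)))
    (hF' : ∀ k l, S.ker l (k + N) = ∑ p : Fin D, ∑ q : Fin D,
      u p k * (u q l * S.ker ((q : ℕ) : ℤ) (((p : ℕ) : ℤ) + N))) :
    Rz S (Fin D →₀ K) where
  S0 := FD.ofKer h2 (fun p q : Fin D => S.ker ((p : ℕ) : ℤ) ((q : ℕ) : ℤ))
    (fun p => S.P 1 ((p : ℕ) : ℤ)) (fun p => S.Q 1 ((p : ℕ) : ℤ)) (fun p q => S.R0 _ _)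
  S1 := FD.ofKer h2 (fun p q : Fin D => S.ker ((q : ℕ) : ℤ) (((p : ℕ) : ℤ) + N))
    (fun p => S.P' 1 ((p : ℕ) : ℤ)) (fun p => S.Q' 1 ((p : ℕ) : ℤ))
    (by intro k l; rw [add_comm, S.R1])
  e := fun k => ∑ p, u p k • Finsupp.single p 1
  Φ0 := by
    intro k l
    simp only [map_sum, LinearMap.sum_apply, map_smul, LinearMap.smul_apply, smul_eq_mul,
      FD.ofKer_Φ_single]
    rw [hF]
    rw [Finset.sum_comm]
    refine Finset.sum_congr rfl (fun p _ => ?_)
    rw [Finset.mul_sum]
    refine Finset.sum_congr rfl (fun q _ => ?_)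
    ring
  a0 := by
    intro k
    simp only [map_sum, map_smul, smul_eq_mul, FD.ofKer_a_single]
    rw [hP]
    exact Finset.sum_congr rfl (fun p _ => mul_comm _ _)
  b0 := by
    intro k
    simp only [map_sum, map_smul, smul_eq_mul, FD.ofKer_b_single]
    rw [hQ]
    exact Finset.sum_congr rfl (fun p _ => mul_comm _ _)
  Φ1 := by
    intro k l
    simp only [map_sum, LinearMap.sum_apply, map_smul, LinearMap.smul_apply, smul_eq_mul,
      FD.ofKer_Φ_single]
    rw [hF']
    rw [Finset.sum_comm]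
    refine Finset.sum_congr rfl (fun p _ => ?_)
    rw [Finset.mul_sum]
    refine Finset.sum_congr rfl (fun q _ => ?_)
    ring
  a1 := by
    intro k
    simp only [map_sum, map_smul, smul_eq_mul, FD.ofKer_a_single]
    rw [hP']
    exact Finset.sum_congr rfl (fun p _ => mul_comm _ _)
  b1 := by
    intro k
    simp only [map_sum, map_smul, smul_eq_mul, FD.ofKer_b_single]
    rw [hQ']
    exact Finset.sum_congr rfl (fun p _ => mul_comm _ _)

/-- recurrence of multilinear functions of windows -/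
lemma isRec_wd {D : ℕ} (u : Fin D → ℤ → K) (hu : ∀ p, IsRec (u p)) (j : ℕ) :
    ∀ (c : ℤ) (f : CliffordAlgebra (0 : QuadraticForm K (Fin D →₀ K)) →ₗ[K] K),
    IsRec (fun s => f (wd K (win (fun k => ∑ p, u p k • Finsupp.single p (1 : K)) (s + c) j))) := by
  induction j with
  | zero =>
    intro c f
    simp only [win, seg_zero, wd_nil]
    exact IsRec.const _
  | succ j ih =>
    intro c f
    have h : ∀ s, f (wd K (win (fun k => ∑ p, u p k • Finsupp.single p (1 : K)) (s + c) (j + 1))) =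
        ∑ p, u p (s + c) * (f.comp (LinearMap.mulLeft K (ι 0 (Finsupp.single p (1 : K)))))
          (wd K (win (fun k => ∑ p, u p k • Finsupp.single p (1 : K)) (s + (c + 1)) j)) := by
      intro s
      rw [win_succ, wd_cons, map_sum, Finset.sum_mul, map_sum]
      refine Finset.sum_congr rfl (fun p _ => ?_)
      rw [map_smul, smul_mul_assoc, map_smul, smul_eq_mul, add_assoc]
      rfl
    simp only [h]
    exact IsRec.sum _ _ (fun p _ => ((hu p).shift c).mul (ih (c + 1) _))

/-- everything is recurrent -/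
theorem all_rec (h2 : (2 : K) ≠ 0) (j : ℕ) (hj : j ≤ m + 2) :
    IsRec (S.P j) ∧ IsRec (S.Q j) ∧ IsRec (S.P' j) ∧ IsRec (S.Q' j) ∧
      ∀ d ≤ N, IsRec (S.T d j) := by
  obtain ⟨nu, hP, hQ, hP', hQ', hA, hB, hper, hlast⟩ := relation (Rz.free S h2)
  obtain ⟨u, hu, hbasis⟩ := Sol_basis hlast N S.hN hper
  have mem : ∀ g : ℤ → K, (∀ k, Rop (m + 1) (fun i => nu i k) g k = 0) → g ∈ Sol (m + 1) nu := by
    intro g hg
    rw [mem_Sol]
    intro k
    have := hg k
    rw [Rop] at this
    exact sub_eq_zero.mp this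
  have bP := hbasis _ (mem _ hP)
  have bQ := hbasis _ (mem _ hQ)
  have bP' := hbasis _ (mem _ hP')
  have bQ' := hbasis _ (mem _ hQ')
  have bA : ∀ l k, S.ker k l = ∑ p : Fin (m + 1), S.ker ((p : ℕ) : ℤ) l * u p k :=
    fun l => hbasis _ (mem _ (fun k => hA k l))
  have bB : ∀ l k, S.ker l k = ∑ p : Fin (m + 1), S.ker l ((p : ℕ) : ℤ) * u p k :=
    fun l => hbasis _ (mem _ (fun k => hB k l))
  have bC : ∀ l k, S.ker l (k + N) = ∑ p : Fin (m + 1), S.ker l (((p : ℕ) : ℤ) + N) * u p k := by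
    intro l
    refine hbasis (fun k => S.ker l (k + N)) (mem _ (fun k => ?_))
    have := hB (k + N) l
    rw [Rop] at this ⊢
    rw [← this]
    congr 1
    refine Finset.sum_congr rfl (fun i _ => ?_)
    simp only [hper]
    congr 2
    ring
  have hF : ∀ k l, S.ker k l = ∑ p : Fin (m + 1), ∑ q : Fin (m + 1),
      u p k * (u q l * S.ker ((p : ℕ) : ℤ) ((q : ℕ) : ℤ)) := by
    intro k l
    rw [bA l k]
    refine Finset.sum_congr rfl (fun p _ => ?_)
    rw [bB _ l, Finset.sum_mul]
    refine Finset.sum_congr rfl (fun q _ => ?_)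
    ring
  have hF' : ∀ k l, S.ker l (k + N) = ∑ p : Fin (m + 1), ∑ q : Fin (m + 1),
      u p k * (u q l * S.ker ((q : ℕ) : ℤ) (((p : ℕ) : ℤ) + N)) := by
    intro k l
    rw [bC l k]
    refine Finset.sum_congr rfl (fun p _ => ?_)
    rw [bA _ l, Finset.sum_mul]
    refine Finset.sum_congr rfl (fun q _ => ?_)
    ring
  let R := Rz.fin S h2 u bP bQ bP' bQ' hF hF'
  have hW := window R j hj
  have hR : ∀ f : CliffordAlgebra (0 : QuadraticForm K (Fin (m + 1) →₀ K)) →ₗ[K] K,
      IsRec (fun s => f (wd K (win R.e s j))) := by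
    intro f
    have := isRec_wd u hu j 0 f
    simp only [add_zero] at this
    exact this
  refine ⟨?_, ?_, ?_, ?_, ?_⟩
  · have h : S.P j = fun s => ((LinearMap.fst K K K).comp R.S0.Th) (wd K (win R.e s j)) := by
      funext s; exact (hW s).1
    rw [h]; exact hR _
  · have h : S.Q j = fun s => ((LinearMap.snd K K K).comp R.S0.Th) (wd K (win R.e s j)) := by
      funext s; exact (hW s).2.1
    rw [h]; exact hR _
  · have h : S.P' j = fun s => ((LinearMap.fst K K K).comp R.S1.Th) (wd K (win R.e s j)) := by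
      funext s; exact (hW s).2.2.1
    rw [h]; exact hR _
  · have h : S.Q' j = fun s => ((LinearMap.snd K K K).comp R.S1.Th) (wd K (win R.e s j)) := by
      funext s; exact (hW s).2.2.2.1
    rw [h]; exact hR _
  · intro d hd
    have h : S.T d j = fun s => S.W d j s := by
      funext s; exact (hW s).2.2.2.2 d hd
    rw [h]
    unfold Sys.W DM
    refine IsRec.det _ (fun a b => ?_)
    have e0 : (fun s : ℤ => (Matrix.of fun i k : Fin j => S.ker (s + i) (s + d + k)) a b) =
        fun s : ℤ => ∑ p : Fin (m + 1), ∑ q : Fin (m + 1),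
          u p (s + a) * (u q (s + d + b) * S.ker ((p : ℕ) : ℤ) ((q : ℕ) : ℤ)) := by
      funext s
      exact hF _ _
    rw [e0]
    refine IsRec.sum _ _ (fun p _ => IsRec.sum _ _ (fun q _ => ?_))
    refine ((hu p).shift _).mul (IsRec.mul ?_ (IsRec.const _))
    have e1 : (fun s : ℤ => u q (s + d + b)) = fun s : ℤ => u q (s + (d + b)) := by
      funext s; rw [add_assoc]
    rw [e1]
    exact (hu q).shift _

end H60TS
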