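import Pool.Agent.H60.TS.FZ

/-!
Words attached to a solution of the T-system on a quadrant.
-/

set_option linter.unusedSectionVars false

namespace H60TS
open Finset

variable {I : Type} [DecidableEq I] [Fintype I] {K : Type} [Field K] [CharZero K]

/-- block appended on the right -/
def blkR (z : I → K) (l : List I) : List (Ltr I K) :=
  l.flatMap (fun i => [(true, i, z i - 1), (false, i, 1)])

/-- block prepended on the left -/
def blkL (z : I → K) (l : List I) : List (Ltr I K) :=
  l.flatMap (fun i => [(true, i, 1), (false, i, z i - 1)])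

@[simp] lemma blkR_nil (z : I → K) : blkR z ([] : List I) = [] := rfl
@[simp] lemma blkL_nil (z : I → K) : blkL z ([] : List I) = [] := rfl
lemma blkR_cons (z : I → K) (i : I) (l : List I) :
    blkR z (i :: l) = (true, i, z i - 1) :: (false, i, 1) :: blkR z l := rfl
lemma blkL_cons (z : I → K) (i : I) (l : List I) :
    blkL z (i :: l) = (true, i, 1) :: (false, i, z i - 1) :: blkL z l := rfl

section tex

variable {M : Type} [AddCommGroup M] [Module K M]

/-- if the image is zero the exponential is the identity -/
lemma lop_fix {N : ℕ} (hN : 1 ≤ N) {e f : I → M →ₗ[K] M} {l : Ltr I K} {x : M}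
    (hx : (if l.1 then e l.2.1 else f l.2.1) x = 0) : lop N e f l x = x := by
  have hp : ∀ k : ℕ, ((if l.1 then e l.2.1 else f l.2.1) ^ (k + 1) : M →ₗ[K] M) x = 0 := by
    intro k; rw [pow_succ, Module.End.mul_apply, hx, map_zero]
  rw [lop_apply]
  obtain ⟨N', rfl⟩ := Nat.exists_eq_add_of_le' hN
  rw [Finset.sum_range_succ', Finset.sum_eq_zero]
  · simp
  · intro k _
    rw [hp, smul_zero]

/-- if the second image is zero the exponential is linear -/
lemma lop_lin {N : ℕ} (hN : 2 ≤ N) {e f : I → M →ₗ[K] M} {l : Ltr I K} {x : M}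
    (hx : (if l.1 then e l.2.1 else f l.2.1) ((if l.1 then e l.2.1 else f l.2.1) x) = 0) :
    lop N e f l x = x + l.2.2 • (if l.1 then e l.2.1 else f l.2.1) x := by
  have hp : ∀ k : ℕ, ((if l.1 then e l.2.1 else f l.2.1) ^ (k + 1 + 1) : M →ₗ[K] M) x = 0 := by
    intro k; rw [pow_succ, pow_succ, Module.End.mul_apply, Module.End.mul_apply, hx, map_zero]
  rw [lop_apply]
  obtain ⟨N', rfl⟩ := Nat.exists_eq_add_of_le' hN
  rw [Finset.sum_range_succ', Finset.sum_range_succ', Finset.sum_eq_zero]
  · simp [add_comm]
  · intro k _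
    rw [hp, smul_zero]

lemma vs_lop_fix {N : ℕ} (hN : 1 ≤ N) {e f : I → M →ₗ[K] M} {l : Ltr I K} {vs : M →ₗ[K] K}
    (hx : ∀ y, vs ((if l.1 then e l.2.1 else f l.2.1) y) = 0) (x : M) :
    vs (lop N e f l x) = vs x := by
  have hp : ∀ k : ℕ, vs (((if l.1 then e l.2.1 else f l.2.1) ^ (k + 1) : M →ₗ[K] M) x) = 0 := by
    intro k; rw [pow_succ', Module.End.mul_apply, hx]
  rw [lop_apply, map_sum]
  obtain ⟨N', rfl⟩ := Nat.exists_eq_add_of_le' hN
  rw [Finset.sum_range_succ', Finset.sum_eq_zero]
  · simp
  · intro k _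
    rw [map_smul, hp, smul_zero]

lemma vs_lop_lin {N : ℕ} (hN : 2 ≤ N) {e f : I → M →ₗ[K] M} {l : Ltr I K} {vs : M →ₗ[K] K}
    (hx : ∀ y, vs ((if l.1 then e l.2.1 else f l.2.1) ((if l.1 then e l.2.1 else f l.2.1) y)) = 0)
    (x : M) : vs (lop N e f l x) = vs x + l.2.2 * vs ((if l.1 then e l.2.1 else f l.2.1) x) := by
  have hp : ∀ k : ℕ, vs (((if l.1 then e l.2.1 else f l.2.1) ^ (k + 1 + 1) : M →ₗ[K] M) x) = 0 := by
    intro k; rw [pow_succ', Module.End.mul_apply, pow_succ', Module.End.mul_apply, hx]
  rw [lop_apply, map_sum]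
  obtain ⟨N', rfl⟩ := Nat.exists_eq_add_of_le' hN
  rw [Finset.sum_range_succ', Finset.sum_range_succ', Finset.sum_eq_zero]
  · simp [add_comm]
  · intro k _
    rw [map_smul, hp, smul_zero]

end tex

variable {C : I → I → ℤ}

/-- list of pairwise orthogonal different indices -/
def Orth (C : I → I → ℤ) (l : List I) : Prop := l.Pairwise (fun i j => C i j = 0)

section irr

variable {M : Type} [AddCommGroup M] [Module K M] {e f h : I → M →ₗ[K] M} {v : M} {vs : M →ₗ[K] K}
  {j : I}

namespace Irr

lemma f_v_ne (H : Irr C (om j) e f h v vs) (S : SLaced C) {i : I} (hij : i ≠ j) : f i v = 0 := by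
  have := H.fpow_v S i 0 (by simp [om, hij])
  simpa using this

lemma ff_v (H : Irr C (om j) e f h v vs) (S : SLaced C) : f j (f j v) = 0 := by
  have := H.fpow_v S j 1 (by simp [om])
  simpa [pow_succ] using this

lemma ne_of_orth (S : SLaced C) {i j : I} (h : C i j = 0) : i ≠ j := by
  rintro rfl
  rw [S.diag] at h
  norm_num at h

/-- action of a right block on the highest weight vector -/
lemma blkR_v (H : Irr C (om j) e f h v vs) (S : SLaced C) {N : ℕ} (hN : 2 ≤ N) (z : I → K)
    (l : List I) (hl : Orth C l) :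
    (j ∉ l → wop N e f (blkR z l) v = v) ∧ (j ∈ l → wop N e f (blkR z l) v = f j v + z j • v) := by
  induction l with
  | nil => exact ⟨fun _ => rfl, fun h => absurd h (by simp)⟩
  | cons i l ih =>
    obtain ⟨hil, hl'⟩ := List.pairwise_cons.mp hl
    obtain ⟨ih1, ih2⟩ := ih hl'
    have fixv : i ≠ j → ∀ c : K, lop N e f (false, i, c) v = v := by
      intro hij c
      apply lop_fix (by omega)
      simpa using H.f_v_ne S hij
    have fixv' : ∀ c : K, lop N e f (true, i, c) v = v := by
      intro c
      apply lop_fix (by omega)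
      simpa using H.hw.ev i
    constructor
    · intro hj
      rw [List.mem_cons, not_or] at hj
      rw [blkR_cons, wop_cons, wop_cons, ih1 hj.2, fixv (Ne.symm hj.1), fixv']
    · intro hj
      by_cases hij : j = i
      · subst hij
        have hjl : j ∉ l := by
          intro hjl
          exact ne_of_orth S (hil j hjl) rfl
        rw [blkR_cons, wop_cons, wop_cons, ih1 hjl,
          lop_lin (l := (false, j, 1)) hN (by simpa using H.ff_v S)]
        simp only [Bool.false_eq_true, if_false, one_smul, map_add]
        rw [fixv', lop_lin hN (by simp [H.ef_v, H.hw.ev])]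
        simp only [if_true, H.ef_v, om, Pi.single_eq_same]
        push_cast
        module
      · have hjl : j ∈ l := by
          rcases List.mem_cons.mp hj with h | h
          · exact absurd h hij
          · exact h
        have hC : C i j = 0 := hil j hjl
        rw [blkR_cons, wop_cons, wop_cons, ih2 hjl]
        have h1 : ∀ c : K, lop N e f (false, i, c) (f j v) = f j v := by
          intro c
          apply lop_fix (by omega)
          simp only [Bool.false_eq_true, if_false]
          rw [H.ff_comm S hC, H.f_v_ne S (Ne.symm hij), map_zero]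
        have h2 : ∀ c : K, lop N e f (true, i, c) (f j v) = f j v := by
          intro c
          apply lop_fix (by omega)
          simp only [if_true]
          rw [H.ef_v, if_neg (Ne.symm hij)]
        rw [map_add, map_smul, h1, fixv (Ne.symm hij), map_add, map_smul, h2, fixv']

/-- a functional vanishing on images of lowering operators and on the highest weight vector -/
lemma fun_zero (H : Irr C (om j) e f h v vs) (g : M →ₗ[K] K) (hf : ∀ i x, g (f i x) = 0)
    (hv : g v = 0) (x : M) : g x = 0 := by
  have := H.gen (LinearMap.ker g) (by rw [LinearMap.mem_ker]; exact hv)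
    (fun i x _ => by rw [LinearMap.mem_ker]; exact hf i x) x
  rwa [LinearMap.mem_ker] at this

lemma vs_e_ne (H : Irr C (om j) e f h v vs) {i : I} (hij : i ≠ j) (x : M) : vs (e i x) = 0 := by
  refine H.fun_zero (vs ∘ₗ e i) ?_ ?_ x
  · intro k x
    simp only [LinearMap.comp_apply, H.km.ef, map_add, H.hw.vsf, zero_add]
    split_ifs
    · rw [H.vs_h]; simp [om, hij]
    · simp
  · simp [H.hw.ev]

lemma vs_ef (H : Irr C (om j) e f h v vs) (x : M) : vs (e j (f j x)) = vs x := by
  rw [H.km.ef_eq, map_add, H.hw.vsf, H.vs_h]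
  simp [om]

lemma vs_ef_ne (H : Irr C (om j) e f h v vs) {i : I} (hij : i ≠ j) (x : M) :
    vs (e j (f i x)) = 0 := by
  rw [H.km.ef_ne (Ne.symm hij), H.hw.vsf]

lemma vs_ee (H : Irr C (om j) e f h v vs) (S : SLaced C) (x : M) : vs (e j (e j x)) = 0 := by
  refine H.fun_zero (vs ∘ₗ e j ∘ₗ e j) ?_ ?_ x
  · intro k x
    simp only [LinearMap.comp_apply]
    by_cases hk : j = k
    · subst hk
      have h1 : e j (h j x) = h j (e j x) - (C j j : K) • e j x := by
        rw [H.km.he]; module
      rw [H.km.ef_eq, map_add, map_add, H.km.ef_eq, map_add, H.hw.vsf, zero_add, h1, map_sub,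
        H.vs_h, map_smul, S.diag]
      simp only [om, Pi.single_eq_same, smul_eq_mul]
      push_cast
      ring
    · rw [H.km.ef_ne hk, H.km.ef_ne hk, H.hw.vsf]
  · simp [H.hw.ev]

lemma vs_ee_ne (H : Irr C (om j) e f h v vs) (S : SLaced C) {i : I} (hij : C i j = 0) (x : M) :
    vs (e j (e i x)) = 0 := by
  have hne := ne_of_orth S hij
  refine H.fun_zero (vs ∘ₗ e j ∘ₗ e i) ?_ ?_ x
  · intro k x
    simp only [LinearMap.comp_apply]
    by_cases hki : i = k
    · subst hki
      have h1 : e j (h i x) = h i (e j x) - (C i j : K) • e j x := by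
        rw [H.km.he]; module
      rw [H.km.ef_eq, map_add, map_add, H.vs_ef_ne hne, h1, hij, map_sub, H.vs_h]
      simp [om, hne]
    · rw [H.km.ef_ne hki]
      by_cases hkj : k = j
      · subst hkj
        rw [H.vs_ef, H.vs_e_ne hne]
      · rw [H.vs_ef_ne hkj]
  · simp [H.hw.ev]

/-- action of a left block on the lowest weight functional -/
lemma blkL_vs (H : Irr C (om j) e f h v vs) (S : SLaced C) {N : ℕ} (hN : 2 ≤ N) (z : I → K)
    (l : List I) (hl : Orth C l) :
    (j ∉ l → ∀ x, vs (wop N e f (blkL z l) x) = vs x) ∧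
    (j ∈ l → ∀ x, vs (wop N e f (blkL z l) x) = vs (e j x) + z j * vs x) ∧
    ((∀ i ∈ l, C i j = 0) → ∀ x, vs (e j (wop N e f (blkL z l) x)) = vs (e j x)) := by
  induction l with
  | nil => exact ⟨fun _ _ => rfl, fun h => absurd h (by simp), fun _ _ => rfl⟩
  | cons i l ih =>
    obtain ⟨hil, hl'⟩ := List.pairwise_cons.mp hl
    obtain ⟨ih1, ih2, ih3⟩ := ih hl'
    have fixf : ∀ (c : K) (x : M), vs (lop N e f (false, i, c) x) = vs x := by
      intro c x
      exact vs_lop_fix (by omega) (by intro y; simpa using H.hw.vsf i y) x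
    have fixe : i ≠ j → ∀ (c : K) (x : M), vs (lop N e f (true, i, c) x) = vs x := by
      intro hij c x
      exact vs_lop_fix (by omega) (by intro y; simpa using H.vs_e_ne hij y) x
    refine ⟨?_, ?_, ?_⟩
    · intro hj x
      rw [List.mem_cons, not_or] at hj
      rw [blkL_cons, wop_cons, wop_cons, fixe (Ne.symm hj.1), fixf, ih1 hj.2]
    · intro hj x
      by_cases hij : j = i
      · subst hij
        have hjl : j ∉ l := by
          intro hjl
          exact ne_of_orth S (hil j hjl) rfl
        have horth : ∀ i ∈ l, C i j = 0 := fun k hk => by rw [S.symm]; exact hil k hk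
        rw [blkL_cons, wop_cons, wop_cons]
        rw [vs_lop_lin hN (by intro y; simpa using H.vs_ee S y)]
        simp only [if_true, one_mul]
        rw [fixf, ih1 hjl]
        have h1 : ∀ (c : K) (y : M), vs (e j (lop N e f (false, j, c) y)) =
            vs (e j y) + c * vs y := by
          intro c y
          have := vs_lop_lin (vs := vs ∘ₗ e j) hN (e := e) (f := f) (l := (false, j, c))
            (by intro y; simp [H.vs_ef, H.hw.vsf]) y
          simp only [LinearMap.comp_apply, Bool.false_eq_true, if_false, H.vs_ef] at this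
          exact this
        rw [h1, ih3 horth, ih1 hjl]
        ring
      · have hjl : j ∈ l := by
          rcases List.mem_cons.mp hj with h | h
          · exact absurd h hij
          · exact h
        rw [blkL_cons, wop_cons, wop_cons, fixe (Ne.symm hij), fixf, ih2 hjl]
    · intro ho x
      have hC : C i j = 0 := ho i (List.mem_cons_self ..)
      have hne := ne_of_orth S hC
      have ho' : ∀ k ∈ l, C k j = 0 := fun k hk => ho k (List.mem_cons_of_mem _ hk)
      have h1 : ∀ (c : K) (y : M), vs (e j (lop N e f (false, i, c) y)) = vs (e j y) := by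
        intro c y
        exact vs_lop_fix (vs := vs ∘ₗ e j) (by omega) (e := e) (f := f) (l := (false, i, c))
          (by intro y; simp [H.vs_ef_ne hne]) y
      have h2 : ∀ (c : K) (y : M), vs (e j (lop N e f (true, i, c) y)) = vs (e j y) := by
        intro c y
        exact vs_lop_fix (vs := vs ∘ₗ e j) (by omega) (e := e) (f := f) (l := (true, i, c))
          (by intro y; simp [H.vs_ee_ne S hC]) y
      rw [blkL_cons, wop_cons, wop_cons, h2, h1, ih3 ho']

end Irr

end irr

end H60TS
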