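import Pool.Agent.H60.TS.Chain

/-!
Solutions of the T-system on a quadrant have finite rank.
-/

set_option linter.unusedSectionVars false

namespace H60TS
open Finset

lemma exists_seq {α : Type} (P : ℕ → α → Prop) (Q : ℕ → α → α → Prop) (a0 : α) (h0 : P 0 a0)
    (hstep : ∀ n a, P n a → ∃ b, Q n a b ∧ P (n + 1) b) :
    ∃ s : ℕ → α, s 0 = a0 ∧ ∀ n, P n (s n) ∧ Q n (s n) (s (n + 1)) := by
  classical
  choose g hg using hstep
  let s : (n : ℕ) → {a : α // P n a} := fun n =>
    Nat.rec ⟨a0, h0⟩ (fun n a => ⟨g n a.1 a.2, (hg n a.1 a.2).2⟩) n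
  refine ⟨fun n => (s n).1, rfl, fun n => ⟨(s n).2, ?_⟩⟩
  exact (hg n (s n).1 (s n).2).1

variable {I : Type} [DecidableEq I] [Fintype I] {K : Type} [Field K] [CharZero K]
  {C : I → I → ℤ}

section words

variable (S : SLaced C) {N : ℕ} (hN : 2 ≤ N)
include S hN

lemma cc_blkR_not (j : I) (a : List (Ltr I K)) (z : I → K) (l : List I) (hl : Orth C l)
    (hj : j ∉ l) : cc N C (om j) (a ++ blkR z l) = cc N C (om j) a := by
  rw [← compare (LM_KM C (om j)) (LM_HWV C (om j)), ← compare (LM_KM C (om j)) (LM_HWV C (om j)),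
    wop_append, ((LM_Irr C (om j)).blkR_v S hN z l hl).1 hj]

lemma cc_blkR_mem (j : I) (a : List (Ltr I K)) (z : I → K) (l : List I) (hl : Orth C l)
    (hj : j ∈ l) : cc N C (om j) (a ++ blkR z l) =
      vsL C (om j) (wop N (eL C (om j)) (fL C (om j)) a (fL C (om j) j (vL C (om j)))) +
      z j * cc N C (om j) a := by
  rw [← compare (LM_KM C (om j)) (LM_HWV C (om j)), ← compare (LM_KM C (om j)) (LM_HWV C (om j)),
    wop_append, ((LM_Irr C (om j)).blkR_v S hN z l hl).2 hj, map_add, map_add, map_smul, map_smul,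
    smul_eq_mul]

lemma cc_blkL_not (j : I) (a : List (Ltr I K)) (z : I → K) (l : List I) (hl : Orth C l)
    (hj : j ∉ l) : cc N C (om j) (blkL z l ++ a) = cc N C (om j) a := by
  rw [← compare (LM_KM C (om j)) (LM_HWV C (om j)), ← compare (LM_KM C (om j)) (LM_HWV C (om j)),
    wop_append, ((LM_Irr C (om j)).blkL_vs S hN z l hl).1 hj]

lemma cc_blkL_mem (j : I) (a : List (Ltr I K)) (z : I → K) (l : List I) (hl : Orth C l)
    (hj : j ∈ l) : cc N C (om j) (blkL z l ++ a) =
      vsL C (om j) (eL C (om j) j (wop N (eL C (om j)) (fL C (om j)) a (vL C (om j)))) +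
      z j * cc N C (om j) a := by
  rw [← compare (LM_KM C (om j)) (LM_HWV C (om j)), ← compare (LM_KM C (om j)) (LM_HWV C (om j)),
    wop_append, ((LM_Irr C (om j)).blkL_vs S hN z l hl).2.1 hj]

lemma cc_blk_both (j : I) (a : List (Ltr I K)) (z z' : I → K) (l l' : List I) (hl : Orth C l)
    (hl' : Orth C l') (hj : j ∈ l) (hj' : j ∈ l') :
    cc N C (om j) (blkL z l ++ (a ++ blkR z' l')) * cc N C (om j) a -
      cc N C (om j) (a ++ blkR z' l') * cc N C (om j) (blkL z l ++ a) =
    vsL C (om j) (wop N (eL C (om j)) (fL C (om j)) a (vL C (om j))) *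
      vsL C (om j) (eL C (om j) j
        (wop N (eL C (om j)) (fL C (om j)) a (fL C (om j) j (vL C (om j))))) -
      vsL C (om j) (wop N (eL C (om j)) (fL C (om j)) a (fL C (om j) j (vL C (om j)))) *
      vsL C (om j) (eL C (om j) j (wop N (eL C (om j)) (fL C (om j)) a (vL C (om j)))) := by
  rw [cc_blkL_mem S hN j _ z l hl hj, cc_blkL_mem S hN j _ z l hl hj, cc_blkR_mem S hN j a z' l' hl' hj',
    wop_append, ((LM_Irr C (om j)).blkR_v S hN z' l' hl').2 hj', map_add, map_add, map_add,
    map_smul, map_smul, map_smul, smul_eq_mul,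
    ← compare (LM_KM C (om j)) (LM_HWV C (om j)) N a]
  ring

end words

/-- the indices whose colour has the parity of n -/
noncomputable def clsL (col : I → ℕ) (n : ℕ) : List I :=
  (Finset.univ.filter (fun i => (col i + n) % 2 = 0)).toList

lemma mem_clsL (col : I → ℕ) (n : ℕ) (i : I) : i ∈ clsL col n ↔ (col i + n) % 2 = 0 := by
  simp [clsL]

lemma clsL_orth (S : SLaced C) (col : I → ℕ) (hcol : ∀ i j, C i j = -1 → (col i + col j) % 2 = 1)
    (n : ℕ) : Orth C (clsL col n) := by
  refine List.Nodup.pairwise_of_forall_ne (Finset.nodup_toList _) ?_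
  intro i hi j hj hij
  have hi' := (mem_clsL col n i).mp hi
  have hj' := (mem_clsL col n j).mp hj
  rcases S.off i j hij with h | h
  · exact h
  · have := hcol i j h
    omega

theorem chain (S : SLaced C) (hF : FinT C) (col : I → ℕ)
    (hcol : ∀ i j, C i j = -1 → (col i + col j) % 2 = 1) (τ : I → ℕ → ℕ → K)
    (hne : ∀ j n m, τ j n m ≠ 0)
    (h1 : ∀ j n m, (col j + n) % 2 = 0 → τ j (n + 1) m = τ j n m)
    (h2 : ∀ j n m, (col j + m) % 2 = 0 → τ j n (m + 1) = τ j n m)
    (h3 : ∀ j n m, (col j + n) % 2 = 1 → (col j + m) % 2 = 1 →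
      τ j (n + 1) (m + 1) * τ j n m - τ j (n + 1) m * τ j n (m + 1) =
        ∏ i with C i j = -1, τ i n m) :
    ∃ U : I → Submodule K (ℕ → K), (∀ j, (U j).FG) ∧ ∀ j n, (fun m => τ j n m) ∈ U j := by
  classical
  -- the truncation
  have hex : ∀ j : I, ∃ N0 : ℕ, ∀ N ≥ N0, ∀ a : List (Ltr I K),
      vsL C (om j) (wop N (eL C (om j)) (fL C (om j)) a (vL C (om j))) *
      vsL C (om j) (eL C (om j) j
        (wop N (eL C (om j)) (fL C (om j)) a (fL C (om j) j (vL C (om j))))) -
      vsL C (om j) (wop N (eL C (om j)) (fL C (om j)) a (fL C (om j) j (vL C (om j)))) *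
      vsL C (om j) (eL C (om j) j (wop N (eL C (om j)) (fL C (om j)) a (vL C (om j)))) =
      ∏ i with C i j = -1, cc N C (om i) a := by
    intro j
    obtain ⟨n, he, hf⟩ := LM_nil (K := K) S hF (om j) (om_nonneg j)
    exact (LM_Irr C (om j)).fz S hF n he hf
  choose N0 hN0 using hex
  set N : ℕ := (∑ j, N0 j) + 2 with hNdef
  have hN : 2 ≤ N := by omega
  have hNj : ∀ j, N0 j ≤ N := by
    intro j
    have := Finset.single_le_sum (f := N0) (fun i _ => Nat.zero_le _) (Finset.mem_univ j)
    omega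
  have FZ := fun j a => hN0 j N (hNj j) a
  have horth := clsL_orth S col hcol
  -- the two kinds of steps
  have stepR : ∀ (a : List (Ltr I K)) (l : List I) (g : I → K), Orth C l →
      (∀ j, cc N C (om j) a ≠ 0) → ∃ z : I → K, ∀ j,
        (j ∈ l → cc N C (om j) (a ++ blkR z l) = g j) ∧
        (j ∉ l → cc N C (om j) (a ++ blkR z l) = cc N C (om j) a) := by
    intro a l g hl ha
    refine ⟨fun j => (g j - vsL C (om j)
      (wop N (eL C (om j)) (fL C (om j)) a (fL C (om j) j (vL C (om j))))) / cc N C (om j) a,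
      fun j => ⟨fun hj => ?_, fun hj => cc_blkR_not S hN j a _ l hl hj⟩⟩
    rw [cc_blkR_mem S hN j a _ l hl hj, div_mul_cancel₀ _ (ha j)]
    ring
  have stepL : ∀ (a : List (Ltr I K)) (l : List I) (g : I → K), Orth C l →
      (∀ j, cc N C (om j) a ≠ 0) → ∃ z : I → K, ∀ j,
        (j ∈ l → cc N C (om j) (blkL z l ++ a) = g j) ∧
        (j ∉ l → cc N C (om j) (blkL z l ++ a) = cc N C (om j) a) := by
    intro a l g hl ha
    refine ⟨fun j => (g j - vsL C (om j) (eL C (om j) j
      (wop N (eL C (om j)) (fL C (om j)) a (vL C (om j))))) / cc N C (om j) a,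
      fun j => ⟨fun hj => ?_, fun hj => cc_blkL_not S hN j a _ l hl hj⟩⟩
    rw [cc_blkL_mem S hN j a _ l hl hj, div_mul_cancel₀ _ (ha j)]
    ring
  -- the initial word
  have hinit : ∃ a0 : List (Ltr I K), ∀ j, cc N C (om j) a0 = τ j 0 0 := by
    have hnil : ∀ j, cc N C (om j) ([] : List (Ltr I K)) = 1 := by
      intro j
      rw [← compare (LM_KM C (om j)) (LM_HWV C (om j)), wop_nil]
      exact (LM_HWV C (om j)).vsv
    obtain ⟨z, hz⟩ := stepR [] (clsL col 1) (fun j => τ j 0 0) (horth 1)
      (fun j => by rw [hnil]; exact one_ne_zero)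
    obtain ⟨z', hz'⟩ := stepR ([] ++ blkR z (clsL col 1)) (clsL col 0) (fun j => τ j 0 0) (horth 0)
      (fun j => by
        by_cases hj : j ∈ clsL col 1
        · rw [(hz j).1 hj]; exact hne j 0 0
        · rw [(hz j).2 hj, hnil]; exact one_ne_zero)
    refine ⟨([] ++ blkR z (clsL col 1)) ++ blkR z' (clsL col 0), fun j => ?_⟩
    by_cases hj : j ∈ clsL col 0
    · exact (hz' j).1 hj
    · rw [(hz' j).2 hj]
      refine (hz j).1 ?_
      rw [mem_clsL] at hj ⊢
      omega
  obtain ⟨a0, ha0⟩ := hinit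
  -- rows
  obtain ⟨R, hR0, hR⟩ := exists_seq
    (fun n (a : List (Ltr I K)) => ∀ j, cc N C (om j) a = τ j n 0)
    (fun n a b => ∃ z : I → K, b = a ++ blkR z (clsL col (n + 1))) a0 ha0 (by
      intro n a ha
      obtain ⟨z, hz⟩ := stepR a (clsL col (n + 1)) (fun j => τ j (n + 1) 0) (horth _)
        (fun j => by rw [ha]; exact hne _ _ _)
      refine ⟨_, ⟨z, rfl⟩, fun j => ?_⟩
      by_cases hj : j ∈ clsL col (n + 1)
      · exact (hz j).1 hj
      · rw [(hz j).2 hj, ha]
        rw [mem_clsL] at hj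
        exact (h1 j n 0 (by omega)).symm)
  -- columns
  obtain ⟨H, hH0, hH⟩ := exists_seq
    (fun m (a : List (Ltr I K)) => ∀ j, cc N C (om j) (a ++ R 0) = τ j 0 m)
    (fun m a b => ∃ z : I → K, b = blkL z (clsL col (m + 1)) ++ a) [] (by
      intro j; rw [List.nil_append]; exact (hR 0).1 j) (by
      intro m a ha
      obtain ⟨z, hz⟩ := stepL (a ++ R 0) (clsL col (m + 1)) (fun j => τ j 0 (m + 1)) (horth _)
        (fun j => by rw [ha]; exact hne _ _ _)
      refine ⟨_, ⟨z, rfl⟩, fun j => ?_⟩
      rw [List.append_assoc]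
      by_cases hj : j ∈ clsL col (m + 1)
      · exact (hz j).1 hj
      · rw [(hz j).2 hj, ha]
        rw [mem_clsL] at hj
        exact (h2 j 0 m (by omega)).symm)
  -- all values
  have key : ∀ n m j, cc N C (om j) (H m ++ R n) = τ j n m := by
    intro n
    induction n with
    | zero => intro m j; exact (hH m).1 j
    | succ n ihn =>
      intro m
      induction m with
      | zero => intro j; rw [hH0, List.nil_append]; exact (hR (n + 1)).1 j
      | succ m ihm =>
        intro j
        obtain ⟨z', hz'⟩ := (hR n).2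
        obtain ⟨z, hz⟩ := (hH m).2
        by_cases hjn : j ∈ clsL col (n + 1)
        · by_cases hjm : j ∈ clsL col (m + 1)
          · have e1 := cc_blk_both S hN j (H m ++ R n) z z' _ _ (horth (m + 1)) (horth (n + 1))
              hjm hjn
            rw [FZ j (H m ++ R n)] at e1
            have e2 : ∏ i with C i j = -1, cc N C (om i) (H m ++ R n) =
                ∏ i with C i j = -1, τ i n m :=
              Finset.prod_congr rfl (fun i _ => ihn m i)
            have e3 : H (m + 1) ++ R (n + 1) =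
                blkL z (clsL col (m + 1)) ++ ((H m ++ R n) ++ blkR z' (clsL col (n + 1))) := by
              rw [hz, hz']; simp [List.append_assoc]
            have e4 : (H m ++ R n) ++ blkR z' (clsL col (n + 1)) = H m ++ R (n + 1) := by
              rw [hz']; simp [List.append_assoc]
            have e5 : blkL z (clsL col (m + 1)) ++ (H m ++ R n) = H (m + 1) ++ R n := by
              rw [hz]; simp [List.append_assoc]
            rw [e2, ← e3, e4, e5, ihn m j, ihm j, ihn (m + 1) j] at e1
            rw [mem_clsL] at hjn hjm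
            have e6 := h3 j n m (by omega) (by omega)
            apply mul_right_cancel₀ (hne j n m)
            linear_combination e1 - e6
          · have e3 : H (m + 1) ++ R (n + 1) =
                blkL z (clsL col (m + 1)) ++ (H m ++ R (n + 1)) := by
              rw [hz]; simp [List.append_assoc]
            rw [e3, cc_blkL_not S hN j _ z _ (horth _) hjm, ihm j]
            rw [mem_clsL] at hjm
            exact (h2 j (n + 1) m (by omega)).symm
        · have e3 : H (m + 1) ++ R (n + 1) =
              (H (m + 1) ++ R n) ++ blkR z' (clsL col (n + 1)) := by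
            rw [hz']; simp [List.append_assoc]
          rw [e3, cc_blkR_not S hN j _ z' _ (horth _) hjn, ihn (m + 1) j]
          rw [mem_clsL] at hjn
          exact (h1 j n (m + 1) (by omega)).symm
  -- the spaces
  let Ψ : (j : I) → (LM K C (om j) →ₗ[K] (ℕ → K)) := fun j =>
    LinearMap.pi (fun m => vsL C (om j) ∘ₗ wop N (eL C (om j)) (fL C (om j)) (H m))
  refine ⟨fun j => LinearMap.range (Ψ j), fun j => ?_, fun j n => ?_⟩
  · obtain ⟨B, hB⟩ := hF (om j) (om_nonneg j)
    have : Module.Finite K (LM K C (om j)) := (LM_Irr C (om j)).finite S (om_nonneg j) B hB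
    exact Module.Finite.iff_fg.mp inferInstance
  · refine ⟨wop N (eL C (om j)) (fL C (om j)) (R n) (vL C (om j)), ?_⟩
    funext m
    show vsL C (om j) (wop N (eL C (om j)) (fL C (om j)) (H m)
      (wop N (eL C (om j)) (fL C (om j)) (R n) (vL C (om j)))) = τ j n m
    rw [← wop_append, compare (LM_KM C (om j)) (LM_HWV C (om j)), key]

end H60TS
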