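import Mathlib

/-!
A pair of functionals a, b together with a bilinear form Phi with Phi(v,v) = a v * b v gives a pair
of linear functions on the exterior algebra (Wick expansion of products of the off-diagonal two by
two matrices with entries a v and b v). This file proves the elimination formula.
-/

namespace H60TS
open CliffordAlgebra

variable {K : Type*} [Field K] {E : Type*} [AddCommGroup E] [Module K E]

/-- form data -/
structure FD (K : Type*) [Field K] (E : Type*) [AddCommGroup E] [Module K E] where
  Φ : LinearMap.BilinForm K E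
  a : E →ₗ[K] K
  b : E →ₗ[K] K
  h : ∀ v, Φ v v = a v * b v

namespace FD

variable (S : FD K E)

lemma symm (u v : E) : S.Φ u v + S.Φ v u = S.a u * S.b v + S.b u * S.a v := by
  have h1 := S.h (u + v)
  have h2 := S.h u
  have h3 := S.h v
  simp only [map_add, LinearMap.add_apply] at h1
  linear_combination h1 - h2 - h3

/-- the quadratic form -/
noncomputable def Q : QuadraticForm K E := QuadraticMap.linMulLin S.a S.b

lemma Q_apply (v : E) : S.Q v = S.a v * S.b v := rfl

lemma hQ : S.Φ.toQuadraticMap = S.Q - 0 := by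
  ext v
  simp [Q_apply, S.h]

/-- the action of a vector on pairs -/
noncomputable def rho : E →ₗ[K] Module.End K (K × K) :=
  LinearMap.mk₂ K (fun v x => (S.a v * x.2, S.b v * x.1))
    (by intro u v x; ext <;> simp [add_mul]) (by intro c v x; ext <;> simp [mul_assoc])
    (by intro v x y; ext <;> simp [mul_add]) (by intro c v x; ext <;> simp [mul_left_comm])

@[simp] lemma rho_apply (v : E) (x : K × K) : S.rho v x = (S.a v * x.2, S.b v * x.1) := rfl

/-- the representation of the Clifford algebra -/
noncomputable def rep : CliffordAlgebra S.Q →ₐ[K] Module.End K (K × K) :=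
  CliffordAlgebra.lift S.Q ⟨S.rho, by
    intro v
    apply LinearMap.ext
    intro x
    simp only [Module.End.mul_apply, rho_apply, Module.algebraMap_end_apply, Q_apply]
    ext <;> simp <;> ring⟩

lemma rep_ι (v : E) : S.rep (ι S.Q v) = S.rho v := by
  rw [rep, CliffordAlgebra.lift_ι_apply]

/-- the Wick functions -/
noncomputable def Th : CliffordAlgebra (0 : QuadraticForm K E) →ₗ[K] K × K :=
  (LinearMap.applyₗ ((1 : K), (1 : K))).comp (S.rep.toLinearMap.comp (changeForm S.hQ))

lemma Th_apply (x : CliffordAlgebra (0 : QuadraticForm K E)) :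
    S.Th x = S.rep (changeForm S.hQ x) (1, 1) := rfl

@[simp] lemma Th_one : S.Th 1 = (1, 1) := by
  rw [Th_apply, changeForm_one, map_one]
  rfl

lemma Th_ι_mul (v : E) (x : CliffordAlgebra (0 : QuadraticForm K E)) :
    S.Th (ι 0 v * x) = S.rho v (S.Th x) - S.Th (contractLeft (S.Φ v) x) := by
  rw [Th_apply, changeForm_ι_mul, map_sub, LinearMap.sub_apply, map_mul, Module.End.mul_apply,
    rep_ι, Th_apply, Th_apply, changeForm_contractLeft]

@[simp] lemma Th_ι (v : E) : S.Th (ι 0 v) = (S.a v, S.b v) := by
  have := S.Th_ι_mul v 1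
  rw [mul_one, contractLeft_one, map_zero, sub_zero, Th_one, rho_apply] at this
  simpa using this

/-- uniqueness -/
lemma Th_unique (f : CliffordAlgebra (0 : QuadraticForm K E) →ₗ[K] K × K) (h1 : f 1 = (1, 1))
    (h2 : ∀ v x, f (ι 0 v * x) = S.rho v (f x) - f (contractLeft (S.Φ v) x)) : f = S.Th := by
  set g := f - S.Th with hg
  have hg1 : g 1 = 0 := by rw [hg, LinearMap.sub_apply, h1, Th_one, sub_self]
  have hg2 : ∀ v x, g (ι 0 v * x) = S.rho v (g x) - g (contractLeft (S.Φ v) x) := by
    intro v x
    rw [hg]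
    simp only [LinearMap.sub_apply]
    rw [h2, Th_ι_mul, map_sub]
    abel
  have key : ∀ y : CliffordAlgebra S.Q, g ((changeFormEquiv S.hQ).symm y) = 0 := by
    intro y
    induction y using CliffordAlgebra.left_induction with
    | algebraMap r =>
      have : (changeFormEquiv S.hQ).symm (algebraMap K _ r) = algebraMap K _ r := by
        rw [LinearEquiv.symm_apply_eq, changeFormEquiv_apply, changeForm_algebraMap]
      rw [this, Algebra.algebraMap_eq_smul_one, map_smul, hg1, smul_zero]
    | add x y hx hy => rw [map_add, map_add, hx, hy, add_zero]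
    | ι_mul x v hx =>
      set x' := (changeFormEquiv S.hQ).symm x with hx'
      have hxx : changeForm S.hQ x' = x := by
        rw [← changeFormEquiv_apply, hx', LinearEquiv.apply_symm_apply]
      have : (changeFormEquiv S.hQ).symm (ι S.Q v * x)
          = ι 0 v * x' + contractLeft (S.Φ v) x' := by
        rw [LinearEquiv.symm_apply_eq, changeFormEquiv_apply, map_add, changeForm_ι_mul,
          changeForm_contractLeft, hxx, sub_add_cancel]
      rw [this, map_add, hg2, hx, map_zero, zero_sub, neg_add_cancel]
  have hzero : g = 0 := by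
    apply LinearMap.ext
    intro x
    have := key (changeFormEquiv S.hQ x)
    rwa [LinearEquiv.symm_apply_apply] at this
  rw [hg] at hzero
  exact sub_eq_zero.mp hzero

/-- elimination of a vector -/
noncomputable def red (y : E) (ha : S.a y ≠ 0) (hb : S.b y ≠ 0) : FD K E where
  Φ := S.Φ - (S.a y * S.b y)⁻¹ • (LinearMap.mk₂ K (fun u v => S.Φ u y * S.Φ y v)
    (by intro u v w; simp [add_mul]) (by intro c u v; simp [mul_assoc])
    (by intro u v w; simp [mul_add]) (by intro c u v; simp [mul_left_comm]))
  a := S.a - (S.b y)⁻¹ • S.Φ y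
  b := S.b - (S.a y)⁻¹ • S.Φ y
  h := by
    intro v
    simp only [LinearMap.sub_apply, LinearMap.smul_apply, LinearMap.mk₂_apply, smul_eq_mul]
    have h1 := S.h v
    have h2 := S.symm v y
    rw [h1]
    have h3 : S.Φ v y = S.a v * S.b y + S.b v * S.a y - S.Φ y v := by linear_combination h2
    rw [h3]
    field_simp
    ring

variable {S}

lemma red_Φ {y : E} {ha : S.a y ≠ 0} {hb : S.b y ≠ 0} (u v : E) :
    (S.red y ha hb).Φ u v = S.Φ u v - S.Φ u y * S.Φ y v / (S.a y * S.b y) := by
  simp only [red, LinearMap.sub_apply, LinearMap.smul_apply, LinearMap.mk₂_apply, smul_eq_mul]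
  ring

lemma red_a {y : E} {ha : S.a y ≠ 0} {hb : S.b y ≠ 0} (v : E) :
    (S.red y ha hb).a v = S.a v - S.Φ y v / S.b y := by
  simp only [red, LinearMap.sub_apply, LinearMap.smul_apply, smul_eq_mul]
  ring

lemma red_b {y : E} {ha : S.a y ≠ 0} {hb : S.b y ≠ 0} (v : E) :
    (S.red y ha hb).b v = S.b v - S.Φ y v / S.a y := by
  simp only [red, LinearMap.sub_apply, LinearMap.smul_apply, smul_eq_mul]
  ring

lemma red_Φ_dual {y : E} {ha : S.a y ≠ 0} {hb : S.b y ≠ 0} (u : E) :
    (S.red y ha hb).Φ u = S.Φ u - (S.Φ u y / (S.a y * S.b y)) • S.Φ y := by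
  apply LinearMap.ext
  intro v
  rw [red_Φ]
  simp only [LinearMap.sub_apply, LinearMap.smul_apply, smul_eq_mul]
  ring

lemma ι_anticomm (u v : E) :
    (ι (0 : QuadraticForm K E) u) * ι 0 v = - (ι 0 v * ι 0 u) := by
  have := CliffordAlgebra.ι_mul_ι_add_swap (Q := (0 : QuadraticForm K E)) u v
  have h0 : QuadraticMap.polar (⇑(0 : QuadraticForm K E)) u v = 0 := by
    simp [QuadraticMap.polar]
  rw [h0, map_zero] at this
  exact eq_neg_of_add_eq_zero_left this

/-- the elimination formula -/
theorem Th_elim {y : E} (ha : S.a y ≠ 0) (hb : S.b y ≠ 0)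
    (x : CliffordAlgebra (0 : QuadraticForm K E)) :
    S.Th (ι 0 y * x) = S.rho y ((S.red y ha hb).Th x) := by
  -- the inverse of rho y
  let inv : K × K →ₗ[K] K × K :=
    { toFun := fun x => (x.2 / S.b y, x.1 / S.a y)
      map_add' := by intro x y; ext <;> simp [add_div]
      map_smul' := by intro c x; ext <;> simp [mul_div_assoc] }
  have inv_rho : ∀ x, inv (S.rho y x) = x := by
    intro x
    ext <;> simp [inv, ha, hb]
  have rho_inv : ∀ x, S.rho y (inv x) = x := by
    intro x
    ext
    · simp only [inv, rho_apply, LinearMap.coe_mk, AddHom.coe_mk]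
      field_simp
    · simp only [inv, rho_apply, LinearMap.coe_mk, AddHom.coe_mk]
      field_simp
  let f : CliffordAlgebra (0 : QuadraticForm K E) →ₗ[K] K × K :=
    inv.comp (S.Th.comp (LinearMap.mulLeft K (ι 0 y)))
  have hf : ∀ x, f x = inv (S.Th (ι 0 y * x)) := fun x => rfl
  have hf' : ∀ x, S.Th (ι 0 y * x) = S.rho y (f x) := by
    intro x
    rw [hf, rho_inv]
  have huniq : f = (S.red y ha hb).Th := by
    apply Th_unique
    · rw [hf, mul_one, Th_ι]
      ext <;> simp [inv, ha, hb]
    · intro v x
      -- contraction by Phi y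
      have hc : f (contractLeft (S.Φ y) x) = S.rho y (S.Th x) - S.rho y (f x) := by
        rw [hf, Th_ι_mul, contractLeft_contractLeft, map_zero, sub_zero, inv_rho]
        have := S.Th_ι_mul y x
        rw [hf'] at this
        rw [this]
        abel
      have h1 : S.Th (ι 0 y * (ι 0 v * x)) =
          - (S.rho v (S.rho y (f x)) - S.Φ v y • S.Th x + S.rho y (f (contractLeft (S.Φ v) x))) := by
        rw [← mul_assoc, ι_anticomm, neg_mul, mul_assoc, map_neg, Th_ι_mul, contractLeft_ι_mul,
          map_sub, map_smul, hf', hf']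
        congr 1
        abel
      have h2 : f (contractLeft ((S.red y ha hb).Φ v) x) = f (contractLeft (S.Φ v) x) -
          (S.Φ v y / (S.a y * S.b y)) • (S.rho y (S.Th x) - S.rho y (f x)) := by
        rw [red_Φ_dual, map_sub, LinearMap.sub_apply, map_sub, map_smul, LinearMap.smul_apply,
          map_smul, hc]
      rw [hf (ι 0 v * x), h1, h2]
      have hsym := S.symm v y
      have h3 : S.Φ v y = S.a v * S.b y + S.b v * S.a y - S.Φ y v := by linear_combination hsym
      ext
      · simp only [inv, LinearMap.coe_mk, AddHom.coe_mk, rho_apply, red_a, red_b, Prod.fst_sub,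
          Prod.snd_sub, Prod.fst_add, Prod.snd_add, Prod.fst_neg, Prod.snd_neg, Prod.smul_fst,
          Prod.smul_snd, smul_eq_mul]
        rw [h3]
        field_simp
        ring
      · simp only [inv, LinearMap.coe_mk, AddHom.coe_mk, rho_apply, red_a, red_b, Prod.fst_sub,
          Prod.snd_sub, Prod.fst_add, Prod.snd_add, Prod.fst_neg, Prod.snd_neg, Prod.smul_fst,
          Prod.smul_snd, smul_eq_mul]
        rw [h3]
        field_simp
        ring
  rw [hf', huniq]

end FD
end H60TS
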