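import Pool.Agent.H60.TS.Hw3

/-!
Products of truncated exponentials: their matrix coefficients depend only on the highest weight,
tensor products, and the quadratic identity.
-/

set_option linter.unusedSectionVars false

namespace H60TS
open Finset
open scoped TensorProduct

variable {I : Type} [DecidableEq I] {K : Type} [Field K]

/-! ### truncated exponentials -/

section tex

variable {A : Type} [Ring A] [Algebra K A]

/-- truncated exponential -/
noncomputable def tex (N : ℕ) (X : A) (y : K) : A :=
  ∑ k ∈ range N, (y ^ k / (Nat.factorial k : K)) • X ^ k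

lemma tex_map {B : Type} [Ring B] [Algebra K B] (φ : A →ₐ[K] B) (N : ℕ) (X : A) (y : K) :
    φ (tex N X y) = tex N (φ X) y := by
  simp [tex, map_sum]

lemma tex_add [CharZero K] (N : ℕ) (X Y : A) (y : K) (n : ℕ) (hN : 2 * n ≤ N) (hXY : Commute X Y)
    (hX : X ^ n = 0) (hY : Y ^ n = 0) : tex N (X + Y) y = tex N X y * tex N Y y := by
  let _ : Module ℚ A := Module.compHom A (algebraMap ℚ K)
  have hsm : ∀ (q : ℚ) (a : A), q • a = (q : K) • a := by
    intro q a
    show (algebraMap ℚ K q) • a = _
    simp
  have key : ∀ (X : A) (m : ℕ), X ^ m = 0 → m ≤ N → tex N X y = IsNilpotent.exp (y • X) := by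
    intro X m hX hm
    have h1 : (y • X) ^ N = 0 := by
      obtain ⟨k, rfl⟩ := Nat.exists_eq_add_of_le hm
      rw [smul_pow, pow_add X, hX, zero_mul, smul_zero]
    rw [IsNilpotent.exp_eq_sum h1, tex]
    refine Finset.sum_congr rfl (fun k _ => ?_)
    rw [hsm, smul_pow, smul_smul]
    congr 1
    push_cast
    rw [div_eq_mul_inv, mul_comm]
  have hXY2 : (X + Y) ^ (2 * n) = 0 := by
    rw [hXY.add_pow]
    refine Finset.sum_eq_zero (fun k _ => ?_)
    rcases Nat.lt_or_ge k n with h | h
    · have : Y ^ (2 * n - k) = 0 := by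
        have : 2 * n - k = n + (n - k) := by omega
        rw [this, pow_add, hY, zero_mul]
      rw [this, mul_zero, zero_mul]
    · have : X ^ k = 0 := by
        obtain ⟨l, rfl⟩ := Nat.exists_eq_add_of_le h
        rw [pow_add, hX, zero_mul]
      rw [this, zero_mul, zero_mul]
  rw [key (X + Y) (2 * n) hXY2 hN, key X n hX (by omega), key Y n hY (by omega), smul_add,
    IsNilpotent.exp_add_of_commute]
  · exact (hXY.smul_left y).smul_right y
  · exact ⟨n, by rw [smul_pow, hX, smul_zero]⟩
  · exact ⟨n, by rw [smul_pow, hY, smul_zero]⟩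

end tex

/-! ### products -/

/-- letters: true for e, false for f -/
abbrev Ltr (I K : Type) : Type := Bool × I × K

section ops

variable {M : Type} [AddCommGroup M] [Module K M]

/-- operator of a letter -/
noncomputable def lop (N : ℕ) (e f : I → M →ₗ[K] M) (l : Ltr I K) : M →ₗ[K] M :=
  tex (A := Module.End K M) N (if l.1 then e l.2.1 else f l.2.1) l.2.2

/-- operator of a product of letters -/
noncomputable def wop (N : ℕ) (e f : I → M →ₗ[K] M) (a : List (Ltr I K)) : M →ₗ[K] M :=
  a.foldr (fun l g => lop N e f l ∘ₗ g) LinearMap.id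

@[simp] lemma wop_nil (N : ℕ) (e f : I → M →ₗ[K] M) (x : M) : wop N e f [] x = x := rfl
@[simp] lemma wop_cons (N : ℕ) (e f : I → M →ₗ[K] M) (l : Ltr I K) (a : List (Ltr I K)) (x : M) :
    wop N e f (l :: a) x = lop N e f l (wop N e f a x) := rfl

lemma wop_append (N : ℕ) (e f : I → M →ₗ[K] M) (a b : List (Ltr I K)) (x : M) :
    wop N e f (a ++ b) x = wop N e f a (wop N e f b x) := by
  induction a with
  | nil => rfl
  | cons l a ih => rw [List.cons_append, wop_cons, ih, wop_cons]

lemma lop_apply (N : ℕ) (e f : I → M →ₗ[K] M) (l : Ltr I K) (x : M) :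
    lop N e f l x = ∑ k ∈ range N, (l.2.2 ^ k / (Nat.factorial k : K)) •
      ((if l.1 then e l.2.1 else f l.2.1) ^ k : M →ₗ[K] M) x := by
  simp only [lop, tex, LinearMap.sum_apply, LinearMap.smul_apply]

variable {M' : Type} [AddCommGroup M'] [Module K M']

lemma wop_intertwine (N : ℕ) (e f : I → M →ₗ[K] M) (e' f' : I → M' →ₗ[K] M') (π : M →ₗ[K] M')
    (he : ∀ i x, π (e i x) = e' i (π x)) (hf : ∀ i x, π (f i x) = f' i (π x))
    (a : List (Ltr I K)) (x : M) : π (wop N e f a x) = wop N e' f' a (π x) := by
  induction a with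
  | nil => rfl
  | cons l a ih =>
    rw [wop_cons, wop_cons, ← ih, lop_apply, lop_apply, map_sum]
    refine Finset.sum_congr rfl (fun k _ => ?_)
    rw [map_smul]
    congr 1
    generalize wop N e f a x = z
    clear * - he hf
    induction k with
    | zero => rfl
    | succ k ihk =>
      rw [pow_succ', pow_succ', Module.End.mul_apply, Module.End.mul_apply, ← ihk]
      split_ifs
      · exact he _ _
      · exact hf _ _

/-- the universal matrix coefficient -/
noncomputable def cc (N : ℕ) (C : I → I → ℤ) (ν : I → ℤ) (a : List (Ltr I K)) : K :=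
  vsF (wop N (eF C ν) fF a (Finsupp.single [] (1 : K)))

theorem compare {C : I → I → ℤ} {ν : I → ℤ} {e f h : I → M →ₗ[K] M} (H : KM C e f h) {v : M}
    {vs : M →ₗ[K] K} (hw : HWV ν e f h v vs) (N : ℕ) (a : List (Ltr I K)) :
    vs (wop N e f a v) = cc N C ν a := by
  have h1 := wop_intertwine N (eF C ν) fF e f (cmpM f v) (cmpM_e H hw.ev hw.hv) (cmpM_f f v) a
    (Finsupp.single [] (1 : K))
  rw [cmpM_single, fw_nil] at h1
  rw [← h1, cmpM_vs hw, cc]

end ops

/-! ### tensor products -/

section tensor

variable {M : Type} [AddCommGroup M] [Module K M] {M' : Type} [AddCommGroup M'] [Module K M']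

/-- the operators on the tensor product -/
noncomputable def tp (e : I → M →ₗ[K] M) (e' : I → M' →ₗ[K] M') (i : I) :
    M ⊗[K] M' →ₗ[K] M ⊗[K] M' :=
  TensorProduct.map (e i) LinearMap.id + TensorProduct.map LinearMap.id (e' i)

@[simp] lemma tp_tmul (e : I → M →ₗ[K] M) (e' : I → M' →ₗ[K] M') (i : I) (x : M) (y : M') :
    tp e e' i (x ⊗ₜ y) = e i x ⊗ₜ y + x ⊗ₜ e' i y := by
  simp [tp]

lemma tp_KM {C : I → I → ℤ} {e f h : I → M →ₗ[K] M} {e' f' h' : I → M' →ₗ[K] M'}
    (H : KM C e f h) (H' : KM C e' f' h') : KM C (tp e e') (tp f f') (tp h h') where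
  ef i j x := by
    induction x using TensorProduct.induction_on with
    | zero => simp
    | tmul x y =>
      simp only [tp_tmul, map_add, H.ef, H'.ef, TensorProduct.add_tmul, TensorProduct.tmul_add]
      split_ifs
      · abel
      · simp only [TensorProduct.zero_tmul, TensorProduct.tmul_zero]; abel
    | add x y hx hy =>
      simp only [map_add, hx, hy]
      split_ifs
      · abel
      · abel
  hf i j x := by
    induction x using TensorProduct.induction_on with
    | zero => simp
    | tmul x y =>
      simp only [tp_tmul, map_add, H.hf, H'.hf,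
        TensorProduct.sub_tmul, TensorProduct.tmul_sub, TensorProduct.smul_tmul',
        TensorProduct.tmul_smul, smul_add]
      abel
    | add x y hx hy =>
      simp only [map_add, hx, hy, smul_add]
      abel
  he i j x := by
    induction x using TensorProduct.induction_on with
    | zero => simp
    | tmul x y =>
      simp only [tp_tmul, map_add, H.he, H'.he, TensorProduct.add_tmul, TensorProduct.tmul_add,
        TensorProduct.smul_tmul', TensorProduct.tmul_smul, smul_add]
      abel
    | add x y hx hy =>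
      simp only [map_add, hx, hy, smul_add]
      abel

/-- tensor product of functionals -/
noncomputable def tf (φ : M →ₗ[K] K) (ψ : M' →ₗ[K] K) : M ⊗[K] M' →ₗ[K] K :=
  LinearMap.mul' K K ∘ₗ TensorProduct.map φ ψ

@[simp] lemma tf_tmul (φ : M →ₗ[K] K) (ψ : M' →ₗ[K] K) (x : M) (y : M') :
    tf φ ψ (x ⊗ₜ y) = φ x * ψ y := by
  simp [tf]

lemma tp_HWV {ν ν' : I → ℤ} {e f h : I → M →ₗ[K] M} {e' f' h' : I → M' →ₗ[K] M'} {v : M} {v' : M'}
    {vs : M →ₗ[K] K} {vs' : M' →ₗ[K] K} (H : HWV ν e f h v vs) (H' : HWV ν' e' f' h' v' vs') :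
    HWV (ν + ν') (tp e e') (tp f f') (tp h h') (v ⊗ₜ v') (tf vs vs') where
  ev i := by simp [H.ev, H'.ev]
  hv i := by
    simp only [tp_tmul, H.hv, H'.hv, ← TensorProduct.smul_tmul', TensorProduct.tmul_smul,
      Pi.add_apply]
    push_cast
    rw [add_smul]
  vsf i x := by
    induction x using TensorProduct.induction_on with
    | zero => simp
    | tmul x y => simp [H.vsf, H'.vsf]
    | add x y hx hy => rw [map_add, map_add, hx, hy, add_zero]
  vsv := by simp [H.vsv, H'.vsv]

/-- products act as group elements on tensor products -/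
lemma wop_tensor [CharZero K] (N n : ℕ) (hN : 2 * n ≤ N) {e f : I → M →ₗ[K] M}
    {e' f' : I → M' →ₗ[K] M'} (he : ∀ i, (e i ^ n : M →ₗ[K] M) = 0)
    (hf : ∀ i, (f i ^ n : M →ₗ[K] M) = 0) (he' : ∀ i, (e' i ^ n : M' →ₗ[K] M') = 0)
    (hf' : ∀ i, (f' i ^ n : M' →ₗ[K] M') = 0) (a : List (Ltr I K)) (x : M) (y : M') :
    wop N (tp e e') (tp f f') a (x ⊗ₜ y) = wop N e f a x ⊗ₜ wop N e' f' a y := by
  have key : ∀ (X : M →ₗ[K] M) (Y : M' →ₗ[K] M') (c : K), (X ^ n : M →ₗ[K] M) = 0 →
      (Y ^ n : M' →ₗ[K] M') = 0 → ∀ x y, tex (A := Module.End K (M ⊗[K] M')) N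
        (TensorProduct.map X LinearMap.id + TensorProduct.map LinearMap.id Y) c (x ⊗ₜ y) =
        tex (A := Module.End K M) N X c x ⊗ₜ tex (A := Module.End K M') N Y c y := by
    intro X Y c hX hY x y
    have hl : ∀ k : ℕ, (TensorProduct.map X (LinearMap.id : M' →ₗ[K] M')) ^ k =
        TensorProduct.map (X ^ k) LinearMap.id := by
      intro k
      induction k with
      | zero => simp [Module.End.one_eq_id]
      | succ k ih => rw [pow_succ, ih, pow_succ, Module.End.mul_eq_comp, Module.End.mul_eq_comp,
          ← TensorProduct.map_comp, LinearMap.comp_id]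
    have hr : ∀ k : ℕ, (TensorProduct.map (LinearMap.id : M →ₗ[K] M) Y) ^ k =
        TensorProduct.map LinearMap.id (Y ^ k) := by
      intro k
      induction k with
      | zero => simp [Module.End.one_eq_id]
      | succ k ih => rw [pow_succ, ih, pow_succ, Module.End.mul_eq_comp, Module.End.mul_eq_comp,
          ← TensorProduct.map_comp, LinearMap.comp_id]
    rw [tex_add N _ _ c n hN]
    · rw [Module.End.mul_apply]
      have e1 : tex (A := Module.End K (M ⊗[K] M')) N (TensorProduct.map LinearMap.id Y) c (x ⊗ₜ y)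
          = x ⊗ₜ tex (A := Module.End K M') N Y c y := by
        simp only [tex, LinearMap.sum_apply, LinearMap.smul_apply, hr, TensorProduct.map_tmul,
          LinearMap.id_apply, TensorProduct.tmul_sum, TensorProduct.tmul_smul]
      have e2 : ∀ z : M', tex (A := Module.End K (M ⊗[K] M')) N
          (TensorProduct.map X LinearMap.id) c (x ⊗ₜ z)
          = tex (A := Module.End K M) N X c x ⊗ₜ z := by
        intro z
        simp only [tex, LinearMap.sum_apply, LinearMap.smul_apply, hl, TensorProduct.map_tmul,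
          LinearMap.id_apply, TensorProduct.sum_tmul, TensorProduct.smul_tmul']
      rw [e1, e2]
    · show _ * _ = _ * _
      rw [Module.End.mul_eq_comp, Module.End.mul_eq_comp, ← TensorProduct.map_comp,
        ← TensorProduct.map_comp]
      simp
    · rw [hl, hX, TensorProduct.map_zero_left]
    · rw [hr, hY, TensorProduct.map_zero_right]
  induction a with
  | nil => rfl
  | cons l a ih =>
    rw [wop_cons, ih, wop_cons, wop_cons]
    rcases l with ⟨b, i, c⟩
    cases b
    · simp only [lop, Bool.false_eq_true, if_false]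
      exact key _ _ c (hf i) (hf' i) _ _
    · simp only [lop, if_true]
      exact key _ _ c (he i) (he' i) _ _

end tensor

end H60TS
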