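import Mathlib

/-!
Definitions for Q1 of MP_5f688c_co: the T-system of a bigraph over the field of rational functions,
the assertion of Q1 at a vertex, tensor products, the affine diagrams of type D.
-/

namespace H60TS
open MvPolynomial

/-- the field of rational functions in variables indexed by V -/
abbrev FF (V : Type) : Type := FractionRing (MvPolynomial V ℚ)

/-- the variable of the vertex v -/
noncomputable def xv {V : Type} (v : V) : FF V := algebraMap (MvPolynomial V ℚ) (FF V) (X v)

open Classical in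
/-- the T-system of the bigraph (Γ, Δ) with bipartition ε: initial values and the relation, for all
admissible pairs (v, t); the values at other pairs are irrelevant -/
def IsTSystem {V : Type} [Fintype V] (Γ Δ : SimpleGraph V) (ε : V → Fin 2) (T : V → ℤ → FF V) :
    Prop :=
  (∀ v, T v ((ε v : ℕ) : ℤ) = xv v) ∧
  ∀ (v : V) (t : ℤ), Odd (t + ((ε v : ℕ) : ℤ)) →
    T v (t + 1) * T v (t - 1) = (∏ u with Γ.Adj v u, T u t) + ∏ w with Δ.Adj v w, T w t

/-- The assertion of Q1 for the bigraph (Γ, Δ) with bipartition ε and the vertex v: for the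
T-system T, the substitution of T u (ε u + 2) for every variable x u is an automorphism σ of the
field of rational functions, and T v satisfies an alternating linear recurrence with even step and
with σ-invariant coefficients, first and last coefficient one. -/
def Q1At {V : Type} [Fintype V] (Γ Δ : SimpleGraph V) (ε : V → Fin 2) (v : V) : Prop :=
  ∀ T : V → ℤ → FF V, IsTSystem Γ Δ ε T →
    ∃ σ : FF V ≃+* FF V, (∀ u, σ (xv u) = T u (((ε u : ℕ) : ℤ) + 2)) ∧
      ∃ (i N : ℕ) (J : ℕ → FF V), 1 ≤ i ∧ Even i ∧ J 0 = 1 ∧ J (N + 1) = 1 ∧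
        (∀ k ≤ N + 1, σ (J k) = J k) ∧
        ∀ t : ℤ, Even (t + ((ε v : ℕ) : ℤ)) →
          ∑ k ∈ Finset.range (N + 2), (-1) ^ k * J k * T v (t + i * ((N : ℤ) + 1 - k)) = 0

/-- the Γ-part of the tensor product of two graphs -/
def tensorΓ {A B : Type} (S : SimpleGraph A) (_T : SimpleGraph B) : SimpleGraph (A × B) where
  Adj p q := S.Adj p.1 q.1 ∧ p.2 = q.2
  symm := ⟨fun _ _ h => ⟨h.1.symm, h.2.symm⟩⟩
  loopless := ⟨fun p h => S.loopless.irrefl p.1 h.1⟩

/-- the Δ-part of the tensor product of two graphs -/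
def tensorΔ {A B : Type} (_S : SimpleGraph A) (T : SimpleGraph B) : SimpleGraph (A × B) where
  Adj p q := p.1 = q.1 ∧ T.Adj p.2 q.2
  symm := ⟨fun _ _ h => ⟨h.1.symm, h.2.symm⟩⟩
  loopless := ⟨fun p h => T.loopless.irrefl p.2 h.2⟩

/-- oriented edges of the affine diagram of type D with vertices 0, ..., n: the leaves 0 and 1 are
joined to 2, the leaves n-1 and n are joined to n-2, and 2, 3, ..., n-2 is a path -/
def DhatEdge (n i j : ℕ) : Prop :=
  (i = 0 ∧ j = 2) ∨ (i = 1 ∧ j = 2) ∨ (2 ≤ i ∧ j = i + 1 ∧ j + 2 ≤ n) ∨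
    (i + 2 = n ∧ j + 1 = n) ∨ (i + 2 = n ∧ j = n)

/-- the affine Dynkin diagram of type D with n + 1 vertices, n at least four -/
def Dhat (n : ℕ) : SimpleGraph (Fin (n + 1)) :=
  SimpleGraph.fromRel (fun i j => DhatEdge n i j)

end H60TS
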