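import Pool.Agent.H60.TS.Rec
import Pool.Agent.H60.TS.Defs

/-!
The T-system of a bipartite bigraph over the field of rational functions: existence, uniqueness
and the time evolution automorphism.
-/

namespace H60TS
open MvPolynomial

section

variable {V : Type} [Fintype V] (Γ Δ : SimpleGraph V) (ε : V → Fin 2)

open Classical in
/-- right hand side of the T-system relation -/
noncomputable def rhs {R : Type} [CommSemiring R] (f : V → R) (v : V) : R :=
  (∏ u with Γ.Adj v u, f u) + ∏ w with Δ.Adj v w, f w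

lemma rhs_map {R R' : Type} [CommSemiring R] [CommSemiring R'] (φ : R →+* R') (f : V → R) (v : V) :
    φ (rhs Γ Δ f v) = rhs Γ Δ (fun u => φ (f u)) v := by
  simp only [rhs, map_add, map_prod]

lemma rhs_congr {R : Type} [CommSemiring R] (f g : V → R) (v : V)
    (h : ∀ u, (Γ.Adj v u ∨ Δ.Adj v u) → f u = g u) : rhs Γ Δ f v = rhs Γ Δ g v := by
  classical
  rw [rhs, rhs]
  congr 1
  · refine Finset.prod_congr rfl (fun u hu => h u (Or.inl ?_))
    simpa using hu
  · refine Finset.prod_congr rfl (fun u hu => h u (Or.inr ?_))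
    simpa using hu

lemma rhs_ne (v : V) : rhs Γ Δ (fun u => xv u) v ≠ 0 := by
  have h : rhs Γ Δ (fun u : V => xv u) v =
      algebraMap (MvPolynomial V ℚ) (FF V) (rhs Γ Δ (fun u => X u) v) := by
    rw [rhs_map]; rfl
  rw [h]
  have hP : rhs Γ Δ (fun u : V => (X u : MvPolynomial V ℚ)) v ≠ 0 := by
    intro h0
    have h1 := congrArg (MvPolynomial.eval (fun _ : V => (1 : ℚ))) h0
    rw [rhs_map] at h1
    simp [rhs] at h1
  intro h0
  exact hP ((FaithfulSMul.algebraMap_injective (MvPolynomial V ℚ) (FF V)) (by rw [h0, map_zero]))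

omit [Fintype V] in
lemma xv_ne (v : V) : (xv v : FF V) ≠ 0 := by
  intro h0
  have : (X v : MvPolynomial V ℚ) = 0 :=
    (FaithfulSMul.algebraMap_injective (MvPolynomial V ℚ) (FF V)) (by rw [map_zero]; exact h0)
  exact X_ne_zero v this

/-- images of the variables under the half step -/
noncomputable def zv (c : Fin 2) (v : V) : FF V :=
  if ε v = c then rhs Γ Δ (fun u => xv u) v / xv v else xv v

lemma zv_ne (c : Fin 2) (v : V) : zv Γ Δ ε c v ≠ 0 := by
  rw [zv]
  split_ifs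
  · exact div_ne_zero (rhs_ne Γ Δ v) (xv_ne v)
  · exact xv_ne v

omit [Fintype V] in
lemma ff_induction {P : FF V → Prop} (hC : ∀ q : ℚ, P (algebraMap ℚ (FF V) q))
    (hX : ∀ v, P (xv v)) (hadd : ∀ a b, P a → P b → P (a + b))
    (hmul : ∀ a b, P a → P b → P (a * b)) (hinv : ∀ a, P a → P a⁻¹) (z : FF V) : P z := by
  have hpoly : ∀ p : MvPolynomial V ℚ, P (algebraMap _ _ p) := by
    intro p
    induction p using MvPolynomial.induction_on with
    | C q =>
      have : algebraMap (MvPolynomial V ℚ) (FF V) (C q) = algebraMap ℚ (FF V) q := by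
        rw [IsScalarTower.algebraMap_apply ℚ (MvPolynomial V ℚ) (FF V)]
        rfl
      rw [this]
      exact hC q
    | add p q hp hq => rw [map_add]; exact hadd _ _ hp hq
    | mul_X p v hp => rw [map_mul]; exact hmul _ _ hp (hX v)
  obtain ⟨x, y, hy, rfl⟩ := IsFractionRing.div_surjective (MvPolynomial V ℚ) z
  rw [div_eq_mul_inv]
  exact hmul _ _ (hpoly x) (hinv _ (hpoly y))

variable (hε : ∀ u v, (Γ.Adj u v ∨ Δ.Adj u v) → ε u ≠ ε v)
include hε

lemma zv_indep (c : Fin 2) : AlgebraicIndependent ℚ (zv Γ Δ ε c) := by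
  classical
  set A := Algebra.adjoin ℚ (Set.range (zv Γ Δ ε c)) with hA
  have hmem : ∀ a : FF V, a ∈ A → IsAlgebraic A a := by
    intro a ha
    exact isAlgebraic_algebraMap (⟨a, ha⟩ : A)
  have hz : ∀ v, zv Γ Δ ε c v ∈ A := fun v => Algebra.subset_adjoin ⟨v, rfl⟩
  have hx0 : ∀ v, ε v ≠ c → (xv v : FF V) ∈ A := by
    intro v hv
    have := hz v
    rwa [zv, if_neg hv] at this
  have hx : ∀ v, IsAlgebraic A (xv v : FF V) := by
    intro v
    by_cases hv : ε v = c
    · have h1 : rhs Γ Δ (fun u => (xv u : FF V)) v ∈ A := by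
        rw [rhs]
        refine add_mem (prod_mem ?_) (prod_mem ?_)
        · intro u hu
          apply hx0
          intro h
          exact hε v u (Or.inl (by simpa using hu)) (hv.trans h.symm)
        · intro u hu
          apply hx0
          intro h
          exact hε v u (Or.inr (by simpa using hu)) (hv.trans h.symm)
      have h2 : (xv v : FF V) = rhs Γ Δ (fun u => (xv u : FF V)) v * (zv Γ Δ ε c v)⁻¹ := by
        rw [zv, if_pos hv]
        have := xv_ne v
        have := rhs_ne Γ Δ v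
        field_simp
      rw [h2]
      exact (hmem _ h1).mul (hmem _ (hz v)).inv
    · exact hmem _ (hx0 v hv)
  have halg : Algebra.IsAlgebraic A (FF V) := by
    constructor
    intro z
    induction z using ff_induction with
    | hC q => exact hmem _ (A.algebraMap_mem q)
    | hX v => exact hx v
    | hadd a b ha hb => exact ha.add hb
    | hmul a b ha hb => exact ha.mul hb
    | hinv a ha => exact ha.inv
  have hxind : AlgebraicIndependent ℚ (fun v : V => (xv v : FF V)) := by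
    have h1 : AlgebraicIndependent ℚ (X : V → MvPolynomial V ℚ) :=
      MvPolynomial.algebraicIndependent_X V ℚ
    exact h1.map' (f := IsScalarTower.toAlgHom ℚ (MvPolynomial V ℚ) (FF V))
      (FaithfulSMul.algebraMap_injective (MvPolynomial V ℚ) (FF V))
  have hcard := hxind.cardinalMk_le_trdeg
  exact (Algebra.IsAlgebraic.isTranscendenceBasis_of_le_trdeg_of_finite ℚ (zv Γ Δ ε c) hcard).1

/-- the half step -/
noncomputable def muHom (c : Fin 2) : FF V →ₐ[ℚ] FF V :=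
  IsFractionRing.liftAlgHom (g := aeval (zv Γ Δ ε c)) (zv_indep Γ Δ ε hε c)

lemma muHom_xv (c : Fin 2) (v : V) : muHom Γ Δ ε hε c (xv v) = zv Γ Δ ε c v := by
  rw [muHom, IsFractionRing.liftAlgHom_apply, xv, IsFractionRing.lift_algebraMap]
  simp

lemma muHom_muHom (c : Fin 2) (z : FF V) : muHom Γ Δ ε hε c (muHom Γ Δ ε hε c z) = z := by
  induction z using ff_induction with
  | hC q => rw [AlgHom.commutes, AlgHom.commutes]
  | hX v =>
    rw [muHom_xv]
    by_cases hv : ε v = c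
    · have h1 : muHom Γ Δ ε hε c (rhs Γ Δ (fun u => xv u) v) = rhs Γ Δ (fun u => xv u) v := by
        have := rhs_map Γ Δ (muHom Γ Δ ε hε c : FF V →+* FF V) (fun u => xv u) v
        refine this.trans ?_
        apply rhs_congr
        intro u hu
        have hu' : ε u ≠ c := fun h => hε v u hu (hv.trans h.symm)
        show muHom Γ Δ ε hε c (xv u) = xv u
        rw [muHom_xv, zv, if_neg hu']
      have h2 : muHom Γ Δ ε hε c (xv v) = rhs Γ Δ (fun u => xv u) v / xv v := by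
        rw [muHom_xv, zv, if_pos hv]
      rw [zv, if_pos hv, map_div₀, h1, h2]
      have := xv_ne v
      have := rhs_ne Γ Δ v
      field_simp
    · rw [zv, if_neg hv, muHom_xv, zv, if_neg hv]
  | hadd a b ha hb => rw [map_add, map_add, ha, hb]
  | hmul a b ha hb => rw [map_mul, map_mul, ha, hb]
  | hinv a ha => rw [map_inv₀, map_inv₀, ha]

/-- the half step as an automorphism -/
noncomputable def muEquiv (c : Fin 2) : FF V ≃ₐ[ℚ] FF V :=
  AlgEquiv.ofAlgHom (muHom Γ Δ ε hε c) (muHom Γ Δ ε hε c)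
    (AlgHom.ext (muHom_muHom Γ Δ ε hε c)) (AlgHom.ext (muHom_muHom Γ Δ ε hε c))

lemma muEquiv_apply (c : Fin 2) (z : FF V) : muEquiv Γ Δ ε hε c z = muHom Γ Δ ε hε c z := rfl

/-- the time evolution -/
noncomputable def sig : FF V ≃ₐ[ℚ] FF V := (muEquiv Γ Δ ε hε 0) * (muEquiv Γ Δ ε hε 1)

lemma sig_apply (z : FF V) :
    sig Γ Δ ε hε z = muHom Γ Δ ε hε 0 (muHom Γ Δ ε hε 1 z) := rfl

lemma sig_zero (v : V) (hv : ε v = 0) :
    sig Γ Δ ε hε (xv v) * xv v = rhs Γ Δ (fun u => xv u) v := by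
  have h1 : ε v ≠ 1 := by rw [hv]; decide
  rw [sig_apply, muHom_xv, zv, if_neg h1, muHom_xv, zv, if_pos hv]
  have := xv_ne v
  field_simp

lemma sig_one (v : V) (hv : ε v = 1) :
    sig Γ Δ ε hε (xv v) * xv v = rhs Γ Δ (fun u => sig Γ Δ ε hε (xv u)) v := by
  have h1 : ε v ≠ 0 := by rw [hv]; decide
  have h2 : muHom Γ Δ ε hε 0 (xv v) = xv v := by rw [muHom_xv, zv, if_neg h1]
  have h3 := rhs_map Γ Δ (muHom Γ Δ ε hε 0 : FF V →+* FF V) (fun u => xv u) v
  have h4 : rhs Γ Δ (fun u => sig Γ Δ ε hε (xv u)) v =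
      muHom Γ Δ ε hε 0 (rhs Γ Δ (fun u => xv u) v) := by
    refine Eq.trans ?_ h3.symm
    apply rhs_congr
    intro u hu
    have hu' : ε u ≠ 1 := fun h => hε v u hu (hv.trans h.symm)
    show sig Γ Δ ε hε (xv u) = muHom Γ Δ ε hε 0 (xv u)
    rw [sig_apply, muHom_xv Γ Δ ε hε 1, zv, if_neg hu']
  rw [h4, sig_apply, muHom_xv Γ Δ ε hε 1, zv, if_pos hv, map_div₀, h2]
  have := xv_ne v
  field_simp

/-- the constructed solution -/
noncomputable def Tsol (v : V) (t : ℤ) : FF V :=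
  ((sig Γ Δ ε hε) ^ ((t - ((ε v : ℕ) : ℤ)) / 2) : FF V ≃ₐ[ℚ] FF V) (xv v)

lemma Tsol_even (v : V) (k : ℤ) : Tsol Γ Δ ε hε v (((ε v : ℕ) : ℤ) + 2 * k) =
    ((sig Γ Δ ε hε) ^ k : FF V ≃ₐ[ℚ] FF V) (xv v) := by
  rw [Tsol]
  have : (((ε v : ℕ) : ℤ) + 2 * k - ((ε v : ℕ) : ℤ)) / 2 = k := by omega
  rw [this]

lemma Tsol_isTSystem : IsTSystem Γ Δ ε (Tsol Γ Δ ε hε) := by
  classical
  refine ⟨?_, ?_⟩
  · intro v
    have := Tsol_even Γ Δ ε hε v 0
    simpa using this
  · intro v t ht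
    show _ = rhs Γ Δ (fun u => Tsol Γ Δ ε hε u t) v
    have hcase : ε v = 0 ∨ ε v = 1 := by
      have := (ε v).2
      rcases Nat.lt_or_ge (ε v : ℕ) 1 with h | h
      · left; exact Fin.ext (by simpa using h)
      · right; exact Fin.ext (by simp; omega)
    rcases hcase with hv | hv
    · have hv' : ((ε v : ℕ) : ℤ) = 0 := by rw [hv]; rfl
      rw [hv', add_zero] at ht
      obtain ⟨k, hk⟩ := ht
      have e1 : t + 1 = ((ε v : ℕ) : ℤ) + 2 * (k + 1) := by rw [hv', hk]; ring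
      have e2 : t - 1 = ((ε v : ℕ) : ℤ) + 2 * k := by rw [hv', hk]; ring
      rw [e1, e2, Tsol_even, Tsol_even, zpow_add_one]
      have h1 : (((sig Γ Δ ε hε) ^ k * sig Γ Δ ε hε : FF V ≃ₐ[ℚ] FF V)) (xv v) =
          ((sig Γ Δ ε hε) ^ k : FF V ≃ₐ[ℚ] FF V) (sig Γ Δ ε hε (xv v)) := rfl
      rw [h1, ← map_mul, sig_zero Γ Δ ε hε v hv]
      have h3 := rhs_map Γ Δ (((sig Γ Δ ε hε) ^ k : FF V ≃ₐ[ℚ] FF V) : FF V →+* FF V)
        (fun u => xv u) v
      refine Eq.trans h3 ?_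
      apply rhs_congr
      intro u hu
      have hu' : ((ε u : ℕ) : ℤ) = 1 := by
        have h5 := hε v u hu
        rw [hv] at h5
        have h6 : (ε u : ℕ) ≠ 0 := fun h => h5 (Fin.ext h).symm
        have := (ε u).2
        omega
      have e3 : t = ((ε u : ℕ) : ℤ) + 2 * k := by rw [hu', hk]; ring
      rw [e3, Tsol_even]
      rfl
    · have hv' : ((ε v : ℕ) : ℤ) = 1 := by rw [hv]; rfl
      rw [hv'] at ht
      obtain ⟨k, hk⟩ := ht
      have e1 : t + 1 = ((ε v : ℕ) : ℤ) + 2 * k := by rw [hv']; linarith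
      have e2 : t - 1 = ((ε v : ℕ) : ℤ) + 2 * (k - 1) := by rw [hv']; linarith
      have hk1 : k = (k - 1) + 1 := by ring
      rw [e1, e2, Tsol_even, Tsol_even]
      have h1 : ((sig Γ Δ ε hε) ^ k : FF V ≃ₐ[ℚ] FF V) (xv v) =
          ((sig Γ Δ ε hε) ^ (k - 1) : FF V ≃ₐ[ℚ] FF V) (sig Γ Δ ε hε (xv v)) := by
        conv_lhs => rw [hk1, zpow_add_one]
        rfl
      rw [h1, ← map_mul, sig_one Γ Δ ε hε v hv]
      have h3 := rhs_map Γ Δ (((sig Γ Δ ε hε) ^ (k - 1) : FF V ≃ₐ[ℚ] FF V) : FF V →+* FF V)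
        (fun u => sig Γ Δ ε hε (xv u)) v
      refine Eq.trans h3 ?_
      apply rhs_congr
      intro u hu
      have hu' : ((ε u : ℕ) : ℤ) = 0 := by
        have h5 := hε v u hu
        rw [hv] at h5
        have h6 : (ε u : ℕ) ≠ 1 := fun h => h5 (Fin.ext h).symm
        have := (ε u).2
        omega
      have e3 : t = ((ε u : ℕ) : ℤ) + 2 * k := by rw [hu']; linarith
      rw [e3, Tsol_even]
      conv_rhs => rw [hk1, zpow_add_one]
      rfl

/-- uniqueness of the T-system -/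
lemma T_unique (T : V → ℤ → FF V) (hT : IsTSystem Γ Δ ε T) (k : ℤ) :
    ∀ v, T v (((ε v : ℕ) : ℤ) + 2 * k) = ((sig Γ Δ ε hε) ^ k : FF V ≃ₐ[ℚ] FF V) (xv v) := by
  classical
  have hS := Tsol_isTSystem Γ Δ ε hε
  have hcase : ∀ v, ε v = 0 ∨ ε v = 1 := by
    intro v
    have := (ε v).2
    rcases Nat.lt_or_ge (ε v : ℕ) 1 with h | h
    · left; exact Fin.ext (by simpa using h)
    · right; exact Fin.ext (by simp; omega)
  have hnb : ∀ v u, (Γ.Adj v u ∨ Δ.Adj v u) → ε v = 0 → ε u = 1 := by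
    intro v u hu hv
    rcases hcase u with h | h
    · exact absurd (hv.trans h.symm) (hε v u hu)
    · exact h
  have hnb' : ∀ v u, (Γ.Adj v u ∨ Δ.Adj v u) → ε v = 1 → ε u = 0 := by
    intro v u hu hv
    rcases hcase u with h | h
    · exact h
    · exact absurd (hv.trans h.symm) (hε v u hu)
  suffices h : ∀ v, T v (((ε v : ℕ) : ℤ) + 2 * k) =
      Tsol Γ Δ ε hε v (((ε v : ℕ) : ℤ) + 2 * k) by
    intro v
    rw [h v, Tsol_even]
  have hne : ∀ v j, Tsol Γ Δ ε hε v (((ε v : ℕ) : ℤ) + 2 * j) ≠ 0 := by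
    intro v j
    rw [Tsol_even]
    intro h0
    exact xv_ne v ((map_eq_zero_iff _ (AlgEquiv.injective _)).mp h0)
  -- one relation determines the next value
  have step : ∀ v t, Odd (t + ((ε v : ℕ) : ℤ)) →
      (∀ u, (Γ.Adj v u ∨ Δ.Adj v u) → T u t = Tsol Γ Δ ε hε u t) →
      T v (t + 1) * T v (t - 1) = Tsol Γ Δ ε hε v (t + 1) * Tsol Γ Δ ε hε v (t - 1) := by
    intro v t ht hu
    rw [hT.2 v t ht, hS.2 v t ht]
    exact rhs_congr Γ Δ _ _ v hu
  induction k using Int.induction_on with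
  | zero =>
    intro v
    have h1 := hT.1 v
    have h2 := hS.1 v
    simp only [mul_zero, add_zero]
    rw [h1, h2]
  | succ k ih =>
    have up0 : ∀ v, ε v = 0 → T v (((ε v : ℕ) : ℤ) + 2 * ((k : ℤ) + 1)) =
        Tsol Γ Δ ε hε v (((ε v : ℕ) : ℤ) + 2 * ((k : ℤ) + 1)) := by
      intro v hv
      have hv' : ((ε v : ℕ) : ℤ) = 0 := by rw [hv]; rfl
      have h1 := step v (2 * k + 1) ⟨k, by rw [hv']; ring⟩ (by
        intro u hu
        have h2 := ih u
        have hu' : ((ε u : ℕ) : ℤ) = 1 := by rw [hnb v u hu hv]; rfl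
        rw [hu'] at h2
        have e : (2 * (k : ℤ) + 1) = 1 + 2 * k := by ring
        rw [e]; exact h2)
      have e1 : (2 * (k : ℤ) + 1 + 1) = ((ε v : ℕ) : ℤ) + 2 * ((k : ℤ) + 1) := by rw [hv']; ring
      have e2 : (2 * (k : ℤ) + 1 - 1) = ((ε v : ℕ) : ℤ) + 2 * (k : ℤ) := by rw [hv']; ring
      rw [e1, e2, ih v] at h1
      exact mul_right_cancel₀ (hne v k) h1
    intro v
    rcases hcase v with hv | hv
    · exact up0 v hv
    · have hv' : ((ε v : ℕ) : ℤ) = 1 := by rw [hv]; rfl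
      have h1 := step v (2 * k + 2) ⟨k + 1, by rw [hv']; ring⟩ (by
        intro u hu
        have hu0 := hnb' v u hu hv
        have h2 := up0 u hu0
        have hu' : ((ε u : ℕ) : ℤ) = 0 := by rw [hu0]; rfl
        rw [hu'] at h2
        have e : (2 * (k : ℤ) + 2) = 0 + 2 * (k + 1) := by ring
        rw [e]; exact h2)
      have e1 : (2 * (k : ℤ) + 2 + 1) = ((ε v : ℕ) : ℤ) + 2 * ((k : ℤ) + 1) := by rw [hv']; ring
      have e2 : (2 * (k : ℤ) + 2 - 1) = ((ε v : ℕ) : ℤ) + 2 * (k : ℤ) := by rw [hv']; ring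
      rw [e1, e2, ih v] at h1
      exact mul_right_cancel₀ (hne v k) h1
  | pred k ih =>
    have dn1 : ∀ v, ε v = 1 → T v (((ε v : ℕ) : ℤ) + 2 * (-(k : ℤ) - 1)) =
        Tsol Γ Δ ε hε v (((ε v : ℕ) : ℤ) + 2 * (-(k : ℤ) - 1)) := by
      intro v hv
      have hv' : ((ε v : ℕ) : ℤ) = 1 := by rw [hv]; rfl
      have h1 := step v (-2 * k) ⟨-k, by rw [hv']; ring⟩ (by
        intro u hu
        have h2 := ih u
        have hu' : ((ε u : ℕ) : ℤ) = 0 := by rw [hnb' v u hu hv]; rfl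
        rw [hu'] at h2
        have e : (-2 * (k : ℤ)) = 0 + 2 * -(k : ℤ) := by ring
        rw [e]; exact h2)
      have e1 : (-2 * (k : ℤ) + 1) = ((ε v : ℕ) : ℤ) + 2 * (-(k : ℤ)) := by rw [hv']; ring
      have e2 : (-2 * (k : ℤ) - 1) = ((ε v : ℕ) : ℤ) + 2 * (-(k : ℤ) - 1) := by rw [hv']; ring
      rw [e1, e2, ih v] at h1
      exact mul_left_cancel₀ (hne v (-k)) h1
    intro v
    rcases hcase v with hv | hv
    · have hv' : ((ε v : ℕ) : ℤ) = 0 := by rw [hv]; rfl
      have h1 := step v (-2 * k - 1) ⟨-k - 1, by rw [hv']; ring⟩ (by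
        intro u hu
        have hu0 := hnb v u hu hv
        have h2 := dn1 u hu0
        have hu' : ((ε u : ℕ) : ℤ) = 1 := by rw [hu0]; rfl
        rw [hu'] at h2
        have e : (-2 * (k : ℤ) - 1) = 1 + 2 * (-(k : ℤ) - 1) := by ring
        rw [e]; exact h2)
      have e1 : (-2 * (k : ℤ) - 1 + 1) = ((ε v : ℕ) : ℤ) + 2 * (-(k : ℤ)) := by rw [hv']; ring
      have e2 : (-2 * (k : ℤ) - 1 - 1) = ((ε v : ℕ) : ℤ) + 2 * (-(k : ℤ) - 1) := by rw [hv']; ring
      rw [e1, e2, ih v] at h1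
      exact mul_left_cancel₀ (hne v (-k)) h1
    · exact dn1 v hv

/-- from recurrent sequences to Q1 -/
theorem Q1At_of_rec (v : V)
    (h : ∀ T : V → ℤ → FF V, IsTSystem Γ Δ ε T → (∀ u k, T u (((ε u : ℕ) : ℤ) + 2 * k) ≠ 0) →
      IsRec (fun k : ℤ => T v (((ε v : ℕ) : ℤ) + 2 * k))) :
    Q1At Γ Δ ε v := by
  intro T hT
  have hU := T_unique Γ Δ ε hε T hT
  have hne : ∀ u k, T u (((ε u : ℕ) : ℤ) + 2 * k) ≠ 0 := by
    intro u k
    rw [hU]
    intro h0
    exact xv_ne u ((map_eq_zero_iff _ (AlgEquiv.injective _)).mp h0)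
  have hrec := h T hT hne
  refine ⟨(sig Γ Δ ε hε : FF V ≃+* FF V), ?_, ?_⟩
  · intro u
    have := hU 1 u
    rw [mul_one, zpow_one] at this
    exact this.symm
  · obtain ⟨N, J, h0, h1, hJ, hsum⟩ := invariant_recurrence
      ((sig Γ Δ ε hε : FF V ≃+* FF V) : FF V →+* FF V) hrec (by
        intro r
        rw [hU, hU, add_comm r 1, zpow_one_add]
        rfl)
    refine ⟨2, N, J, by norm_num, even_two, h0, h1, hJ, ?_⟩
    intro t ht
    obtain ⟨r, hr⟩ := ht
    have e := hsum (r - ((ε v : ℕ) : ℤ))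
    rw [← e]
    refine Finset.sum_congr rfl (fun k _ => ?_)
    congr 2
    push_cast
    linarith

end

end H60TS
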