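import Pool.Agent.H60.TS.AllRec
import Pool.Agent.H60.TS.Graph

/-!
The bigraph: tensor product of an affine diagram of type D with a path.
-/

namespace H60TS

lemma Dhat_adj (n : ℕ) (i j : Fin (n + 1)) :
    (Dhat n).Adj i j ↔ DhatEdge n i j ∨ DhatEdge n j i := by
  rw [Dhat, SimpleGraph.fromRel_adj]
  constructor
  · exact fun h => h.2
  · intro h
    refine ⟨?_, h⟩
    intro hij
    rw [hij] at h
    simp only [DhatEdge] at h
    omega

/-- product over the neighbours in the affine diagram -/
def nbr {K : Type*} [CommMonoid K] (n : ℕ) (g : ℕ → K) (i : ℕ) : K :=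
  if i = 0 ∨ i = 1 then g 2 else if i + 1 = n ∨ i = n then g (n - 2) else
    (if i = 2 then g 0 * g 1 else g (i - 1)) * (if i + 2 = n then g (n - 1) * g n else g (i + 1))

lemma edge_02 (n : ℕ) : DhatEdge n 0 2 := Or.inl ⟨rfl, rfl⟩
lemma edge_12 (n : ℕ) : DhatEdge n 1 2 := Or.inr (Or.inl ⟨rfl, rfl⟩)
lemma edge_succ (n i : ℕ) (h : 2 ≤ i) (h' : i + 3 ≤ n) : DhatEdge n i (i + 1) :=
  Or.inr (Or.inr (Or.inl ⟨h, rfl, by omega⟩))
lemma edge_n1 (n : ℕ) (h : 2 ≤ n) : DhatEdge n (n - 2) (n - 1) :=
  Or.inr (Or.inr (Or.inr (Or.inl ⟨by omega, by omega⟩)))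
lemma edge_n (n : ℕ) (h : 2 ≤ n) : DhatEdge n (n - 2) n :=
  Or.inr (Or.inr (Or.inr (Or.inr ⟨by omega, rfl⟩)))

open Classical in
lemma prod_nbr {K : Type*} [CommMonoid K] (n : ℕ) (hn : 4 ≤ n) (g : ℕ → K) (i : Fin (n + 1)) :
    ∏ u with (Dhat n).Adj i u, g (u : ℕ) = nbr n g i := by
  have hi := i.2
  have key : ∀ (s : Finset ℕ), (∀ u : ℕ, u ∈ s ↔ (u < n + 1 ∧ (DhatEdge n i u ∨ DhatEdge n u i))) →
      ∏ u with (Dhat n).Adj i u, g (u : ℕ) = ∏ u ∈ s, g u := by
    intro s hs
    refine Finset.prod_bij (fun (u : Fin (n + 1)) _ => (u : ℕ)) ?_ ?_ ?_ ?_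
    · intro u hu
      rw [hs]
      rw [Finset.mem_filter, Dhat_adj n] at hu
      exact ⟨u.2, hu.2⟩
    · intro u _ v _ h
      exact Fin.ext h
    · intro u hu
      rw [hs] at hu
      refine ⟨⟨u, hu.1⟩, ?_, rfl⟩
      rw [Finset.mem_filter, Dhat_adj n]
      exact ⟨Finset.mem_univ _, hu.2⟩
    · intro u _
      rfl
  rw [nbr]
  by_cases h1 : (i : ℕ) = 0 ∨ (i : ℕ) = 1
  · rw [if_pos h1, key {2}]
    · simp
    · intro u
      rw [Finset.mem_singleton]
      constructor
      · rintro rfl
        refine ⟨by omega, Or.inl ?_⟩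
        rcases h1 with h1 | h1
        · rw [h1]; exact edge_02 n
        · rw [h1]; exact edge_12 n
      · simp only [DhatEdge]
        rintro ⟨h5, (h | h | h | h | h) | (h | h | h | h | h)⟩ <;> omega
  · rw [if_neg h1]
    by_cases h2 : (i : ℕ) + 1 = n ∨ (i : ℕ) = n
    · rw [if_pos h2, key {n - 2}]
      · simp
      · intro u
        rw [Finset.mem_singleton]
        constructor
        · rintro rfl
          refine ⟨by omega, Or.inr ?_⟩
          rcases h2 with h2 | h2
          · have e : (i : ℕ) = n - 1 := by omega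
            rw [e]; exact edge_n1 n (by omega)
          · rw [h2]; exact edge_n n (by omega)
        · simp only [DhatEdge]
          rintro ⟨h5, (h | h | h | h | h) | (h | h | h | h | h)⟩ <;> omega
    · rw [if_neg h2]
      by_cases h3 : (i : ℕ) = 2
      · rw [if_pos h3]
        by_cases h4 : (i : ℕ) + 2 = n
        · rw [if_pos h4, key {0, 1, n - 1, n}]
          · rw [Finset.prod_insert, Finset.prod_insert, Finset.prod_insert, Finset.prod_singleton,
              mul_assoc]
            · simp only [Finset.mem_singleton]; omega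
            · simp only [Finset.mem_singleton, Finset.mem_insert]; omega
            · simp only [Finset.mem_singleton, Finset.mem_insert]; omega
          · have hn4 : n = 4 := by omega
            subst hn4
            intro u
            simp only [DhatEdge, Finset.mem_singleton, Finset.mem_insert, h3]
            constructor
            · rintro (h | h | h | h) <;> subst h <;> simp
            · rintro ⟨h5, h6⟩
              interval_cases u <;> simp at h6 ⊢
        · rw [if_neg h4, key {0, 1, (i : ℕ) + 1}]
          · rw [Finset.prod_insert, Finset.prod_insert, Finset.prod_singleton, mul_assoc]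
            · simp only [Finset.mem_singleton]; omega
            · simp only [Finset.mem_singleton, Finset.mem_insert]; omega
          · intro u
            simp only [Finset.mem_singleton, Finset.mem_insert]
            constructor
            · rintro (h | h | h)
              · rw [h, h3]; exact ⟨by omega, Or.inr (edge_02 n)⟩
              · rw [h, h3]; exact ⟨by omega, Or.inr (edge_12 n)⟩
              · rw [h]; exact ⟨by omega, Or.inl (edge_succ n i (by omega) (by omega))⟩
            · simp only [DhatEdge]
              rintro ⟨h5, (h | h | h | h | h) | (h | h | h | h | h)⟩ <;> omega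
      · rw [if_neg h3]
        by_cases h4 : (i : ℕ) + 2 = n
        · rw [if_pos h4, key {(i : ℕ) - 1, n - 1, n}]
          · rw [Finset.prod_insert, Finset.prod_insert, Finset.prod_singleton]
            · simp only [Finset.mem_singleton]; omega
            · simp only [Finset.mem_singleton, Finset.mem_insert]; omega
          · intro u
            simp only [Finset.mem_singleton, Finset.mem_insert]
            have e : (i : ℕ) = n - 2 := by omega
            constructor
            · rintro (h | h | h)
              · have h6 := edge_succ n ((i : ℕ) - 1) (by omega) (by omega)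
                have e6 : (i : ℕ) - 1 + 1 = i := by omega
                rw [e6] at h6
                rw [h]
                exact ⟨by omega, Or.inr h6⟩
              · rw [h, e]; exact ⟨by omega, Or.inl (edge_n1 n (by omega))⟩
              · rw [h, e]; exact ⟨by omega, Or.inl (edge_n n (by omega))⟩
            · simp only [DhatEdge]
              rintro ⟨h5, (h | h | h | h | h) | (h | h | h | h | h)⟩ <;> omega
        · rw [if_neg h4, key {(i : ℕ) - 1, (i : ℕ) + 1}]
          · rw [Finset.prod_insert, Finset.prod_singleton]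
            simp only [Finset.mem_singleton]; omega
          · intro u
            simp only [Finset.mem_singleton, Finset.mem_insert]
            constructor
            · rintro (h | h)
              · have h6 := edge_succ n ((i : ℕ) - 1) (by omega) (by omega)
                have e6 : (i : ℕ) - 1 + 1 = i := by omega
                rw [e6] at h6
                rw [h]
                exact ⟨by omega, Or.inr h6⟩
              · rw [h]; exact ⟨by omega, Or.inl (edge_succ n i (by omega) (by omega))⟩
            · simp only [DhatEdge]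
              rintro ⟨h5, (h | h | h | h | h) | (h | h | h | h | h)⟩ <;> omega

open Classical in
lemma prod_tensorΓ {K : Type*} [CommMonoid K] {A B : Type} [Fintype A] [Fintype B]
    (S : SimpleGraph A) (T : SimpleGraph B) (f : A × B → K) (i : A) (j : B) :
    ∏ u with (tensorΓ S T).Adj (i, j) u, f u = ∏ a with S.Adj i a, f (a, j) := by
  refine (Finset.prod_bij (fun a _ => (a, j)) ?_ ?_ ?_ ?_).symm
  · intro a ha
    rw [Finset.mem_filter] at ha ⊢
    exact ⟨Finset.mem_univ _, ha.2, rfl⟩
  · intro a _ b _ h
    exact (Prod.mk.inj h).1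
  · rintro ⟨a, b⟩ h
    rw [Finset.mem_filter] at h
    obtain ⟨_, h1, h2⟩ := h
    refine ⟨a, ?_, ?_⟩
    · rw [Finset.mem_filter]
      exact ⟨Finset.mem_univ _, h1⟩
    · exact Prod.ext rfl h2
  · intro a _
    rfl

open Classical in
lemma prod_tensorΔ {K : Type*} [CommMonoid K] {A B : Type} [Fintype A] [Fintype B]
    (S : SimpleGraph A) (T : SimpleGraph B) (f : A × B → K) (i : A) (j : B) :
    ∏ u with (tensorΔ S T).Adj (i, j) u, f u = ∏ b with T.Adj j b, f (i, b) := by
  refine (Finset.prod_bij (fun b _ => (i, b)) ?_ ?_ ?_ ?_).symm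
  · intro a ha
    rw [Finset.mem_filter] at ha ⊢
    exact ⟨Finset.mem_univ _, rfl, ha.2⟩
  · intro a _ b _ h
    exact (Prod.mk.inj h).2
  · rintro ⟨a, b⟩ h
    rw [Finset.mem_filter] at h
    obtain ⟨_, h1, h2⟩ := h
    refine ⟨b, ?_, ?_⟩
    · rw [Finset.mem_filter]
      exact ⟨Finset.mem_univ _, h2⟩
    · exact Prod.ext h1 rfl
  · intro a _
    rfl

open Classical in
lemma prod_path {K : Type*} [CommMonoid K] (m : ℕ) (g : ℕ → K) (h0 : g 0 = 1)
    (h1 : g (m + 1) = 1) (j : Fin m) :
    ∏ b with (SimpleGraph.pathGraph m).Adj j b, g ((b : ℕ) + 1) = g ((j : ℕ) + 2) * g (j : ℕ) := by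
  have hsplit : ∀ b : Fin m, (if (SimpleGraph.pathGraph m).Adj j b then g ((b : ℕ) + 1) else 1) =
      (if (j : ℕ) + 1 = b then g ((b : ℕ) + 1) else 1) *
        (if (b : ℕ) + 1 = j then g ((b : ℕ) + 1) else 1) := by
    intro b
    rw [SimpleGraph.pathGraph_adj]
    by_cases ha : (j : ℕ) + 1 = b
    · have hb : ¬ ((b : ℕ) + 1 = j) := by omega
      rw [if_pos (Or.inl ha), if_pos ha, if_neg hb, mul_one]
    · by_cases hb : (b : ℕ) + 1 = j
      · rw [if_pos (Or.inr hb), if_neg ha, if_pos hb, one_mul]
      · rw [if_neg (by tauto), if_neg ha, if_neg hb, one_mul]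
  rw [Finset.prod_filter, Finset.prod_congr rfl (fun b _ => hsplit b), Finset.prod_mul_distrib]
  congr 1
  · by_cases h : (j : ℕ) + 1 < m
    · rw [Finset.prod_eq_single (⟨(j : ℕ) + 1, h⟩ : Fin m)]
      · simp
      · intro b _ hb
        rw [if_neg]
        intro h'
        exact hb (Fin.ext h'.symm)
      · intro h'
        exact absurd (Finset.mem_univ _) h'
    · have hj : (j : ℕ) + 2 = m + 1 := by have := j.2; omega
      rw [hj, h1]
      refine Finset.prod_eq_one (fun b _ => ?_)
      rw [if_neg]
      have := b.2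
      omega
  · by_cases h : (j : ℕ) = 0
    · rw [h, h0]
      refine Finset.prod_eq_one (fun b _ => ?_)
      rw [if_neg (by omega)]
    · rw [Finset.prod_eq_single (⟨(j : ℕ) - 1, by have := j.2; omega⟩ : Fin m)]
      · have e : (j : ℕ) - 1 + 1 = j := by omega
        simp only [e, if_true]
      · intro b _ hb
        rw [if_neg]
        intro h'
        exact hb (Fin.ext (by simp; omega))
      · intro h'
        exact absurd (Finset.mem_univ _) h'

section

variable {K : Type} [Field K] {n m : ℕ}

/-- extended values -/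
def vl (T : Fin (n + 1) × Fin m → ℤ → K) (i j : ℕ) (t : ℤ) : K :=
  if h : i < n + 1 ∧ 1 ≤ j ∧ j ≤ m then T (⟨i, h.1⟩, ⟨j - 1, by omega⟩) t
  else if j = m + 2 then 0 else 1

lemma vl_in (T : Fin (n + 1) × Fin m → ℤ → K) (i : Fin (n + 1)) (j : Fin m) (t : ℤ) :
    vl T i (j + 1) t = T (i, j) t := by
  rw [vl, dif_pos ⟨i.2, by omega, j.2⟩]
  rfl

lemma vl_zero (T : Fin (n + 1) × Fin m → ℤ → K) (i : ℕ) (t : ℤ) : vl T i 0 t = 1 := by
  rw [vl, dif_neg (by omega), if_neg (by omega)]

lemma vl_one (T : Fin (n + 1) × Fin m → ℤ → K) (i : ℕ) (t : ℤ) : vl T i (m + 1) t = 1 := by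
  rw [vl, dif_neg (by omega), if_neg (by omega)]

lemma vl_two (T : Fin (n + 1) × Fin m → ℤ → K) (i : ℕ) (t : ℤ) : vl T i (m + 2) t = 0 := by
  rw [vl, dif_neg (by omega), if_pos rfl]

/-- distance coordinate -/
def lev (n i : ℕ) : ℕ := if i = 0 then 1 else if i = n then n - 1 else i

lemma nbr_one (n i : ℕ) : nbr n (fun _ => (1 : K)) i = 1 := by
  simp [nbr]

end

end H60TS
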