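import Pool.Agent.H60.TS.DA

/-!
The two-fork system of the T-system of the tensor product, and the final theorem.
-/

namespace H60TS

section lev

variable {n : ℕ}

lemma lev_0 : lev n 0 = 1 := by simp [lev]
lemma lev_1 (hn : 4 ≤ n) : lev n 1 = 1 := by
  rw [lev, if_neg (by omega), if_neg (by omega)]
lemma lev_n (hn : 4 ≤ n) : lev n n = n - 1 := by rw [lev, if_neg (by omega), if_pos rfl]
lemma lev_n1 (hn : 4 ≤ n) : lev n (n - 1) = n - 1 := by
  rw [lev, if_neg (by omega), if_neg (by omega)]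
lemma lev_mid (i : ℕ) (h : 2 ≤ i) (h' : i + 2 ≤ n) : lev n i = i := by
  rw [lev, if_neg (by omega), if_neg (by omega)]

end lev

section parity

variable {n m : ℕ} (ε : Fin (n + 1) × Fin m → Fin 2)

/-- parity quantity -/
def par (u : Fin (n + 1) × Fin m) : ℤ := ((ε u : ℕ) : ℤ) + lev n u.1 + ((u.2 : ℕ) : ℤ)

variable (hε : ∀ u v, ((tensorΓ (Dhat n) (SimpleGraph.pathGraph m)).Adj u v ∨
  (tensorΔ (Dhat n) (SimpleGraph.pathGraph m)).Adj u v) → ε u ≠ ε v)
include hε

lemma par_adj (u v : Fin (n + 1) × Fin m)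
    (h : (tensorΓ (Dhat n) (SimpleGraph.pathGraph m)).Adj u v ∨
      (tensorΔ (Dhat n) (SimpleGraph.pathGraph m)).Adj u v)
    (hl : (u.1 = v.1 ∧ (u.2 : ℕ) + 1 = v.2) ∨ (u.2 = v.2 ∧ (lev n u.1 + 1 = lev n v.1 ∨
      lev n v.1 + 1 = lev n u.1))) : Even (par ε u + par ε v) := by
  have h1 := hε u v h
  have h2 : (ε u : ℕ) ≠ (ε v : ℕ) := fun h => h1 (Fin.ext h)
  have h3 := (ε u).2
  have h4 := (ε v).2
  rw [par, par, Int.even_iff]
  rcases hl with ⟨e1, e2⟩ | ⟨e1, e2⟩
  · rw [e1]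
    omega
  · rw [e1]
    omega

lemma par_const (hn : 4 ≤ n) (u v : Fin (n + 1) × Fin m) : Even (par ε u + par ε v) := by
  -- first coordinate
  have base : ∀ (i : ℕ) (hi : i < n + 1) (j : Fin m), 2 ≤ i → i + 2 ≤ n →
      Even (par ε (⟨2, by omega⟩, j) + par ε (⟨i, hi⟩, j)) := by
    intro i
    induction i with
    | zero => intro _ _ h; omega
    | succ i ih =>
      intro hi j h1 h2
      rcases Nat.eq_or_lt_of_le h1 with h | h
      · have : (⟨i + 1, hi⟩ : Fin (n + 1)) = ⟨2, by omega⟩ := Fin.ext h.symm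
        rw [this]
        exact ⟨_, rfl⟩
      · have h3 := ih (by omega) j (by omega) (by omega)
        have h4 := par_adj ε hε (⟨i, by omega⟩, j) (⟨i + 1, hi⟩, j)
          (Or.inl ⟨(Dhat_adj n _ _).mpr (Or.inl (Or.inr (Or.inr (Or.inl
            ⟨by show 2 ≤ i; omega, rfl, by show i + 1 + 2 ≤ n; omega⟩)))), rfl⟩)
          (Or.inr ⟨rfl, Or.inl (by
            show lev n i + 1 = lev n (i + 1)
            rw [lev_mid i (by omega) (by omega), lev_mid (i + 1) (by omega) (by omega)])⟩)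
        rw [Int.even_iff] at h3 h4 ⊢
        omega
  have row : ∀ (i : Fin (n + 1)) (j : Fin m), Even (par ε (⟨2, by omega⟩, j) + par ε (i, j)) := by
    intro i j
    have hi := i.2
    by_cases h1 : (i : ℕ) = 0 ∨ (i : ℕ) = 1
    · have h4 := par_adj ε hε (i, j) (⟨2, by omega⟩, j)
        (Or.inl ⟨(Dhat_adj n _ _).mpr (Or.inl (by
          rcases h1 with h1 | h1
          · exact Or.inl ⟨h1, rfl⟩
          · exact Or.inr (Or.inl ⟨h1, rfl⟩))), rfl⟩)
        (Or.inr ⟨rfl, Or.inl (by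
          show lev n i + 1 = lev n 2
          rw [lev_mid 2 (by omega) (by omega)]
          rcases h1 with h1 | h1
          · rw [h1, lev_0]
          · rw [h1, lev_1 hn])⟩)
      rw [add_comm]
      exact h4
    · by_cases h2 : (i : ℕ) + 1 = n ∨ (i : ℕ) = n
      · have h3 := base (n - 2) (by omega) j (by omega) (by omega)
        have h4 := par_adj ε hε (⟨n - 2, by omega⟩, j) (i, j)
          (Or.inl ⟨(Dhat_adj n _ _).mpr (Or.inl (by
            rcases h2 with h2 | h2
            · exact Or.inr (Or.inr (Or.inr (Or.inl ⟨by show n - 2 + 2 = n; omega, h2⟩)))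
            · exact Or.inr (Or.inr (Or.inr (Or.inr ⟨by show n - 2 + 2 = n; omega, h2⟩))))), rfl⟩)
          (Or.inr ⟨rfl, Or.inl (by
            show lev n (n - 2) + 1 = lev n i
            rw [lev_mid (n - 2) (by omega) (by omega)]
            rcases h2 with h2 | h2
            · have : (i : ℕ) = n - 1 := by omega
              rw [this, lev_n1 hn]
              omega
            · rw [h2, lev_n hn]
              omega)⟩)
        rw [Int.even_iff] at h3 h4 ⊢
        omega
      · exact base i i.2 j (by omega) (by omega)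
  -- second coordinate
  have col : ∀ (j : ℕ) (hj : j < m) (h0 : 0 < m), Even (par ε (⟨2, by omega⟩, ⟨0, h0⟩) +
      par ε (⟨2, by omega⟩, ⟨j, hj⟩)) := by
    intro j
    induction j with
    | zero => intro _ _; exact ⟨_, rfl⟩
    | succ j ih =>
      intro hj h0
      have h3 := ih (by omega) h0
      have h4 := par_adj ε hε (⟨2, by omega⟩, ⟨j, by omega⟩) (⟨2, by omega⟩, ⟨j + 1, hj⟩)
        (Or.inr ⟨rfl, by rw [SimpleGraph.pathGraph_adj]; left; rfl⟩) (Or.inl ⟨rfl, rfl⟩)
      rw [Int.even_iff] at h3 h4 ⊢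
      omega
  obtain ⟨i, j⟩ := u
  obtain ⟨i', j'⟩ := v
  have h0 : 0 < m := by have := j.2; omega
  have a1 := row i j
  have a2 := row i' j'
  have a3 := col j j.2 h0
  have a4 := col j' j'.2 h0
  simp only [Fin.eta] at a3 a4
  rw [Int.even_iff] at a1 a2 a3 a4 ⊢
  omega

end parity

section sys

variable {n m : ℕ} (hn : 4 ≤ n) (ε : Fin (n + 1) × Fin m → Fin 2)
  (hε : ∀ u v, ((tensorΓ (Dhat n) (SimpleGraph.pathGraph m)).Adj u v ∨
    (tensorΔ (Dhat n) (SimpleGraph.pathGraph m)).Adj u v) → ε u ≠ ε v)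
  (T : Fin (n + 1) × Fin m → ℤ → FF (Fin (n + 1) × Fin m))
  (hT : IsTSystem (tensorΓ (Dhat n) (SimpleGraph.pathGraph m))
    (tensorΔ (Dhat n) (SimpleGraph.pathGraph m)) ε T)
  (hne : ∀ u k, T u (((ε u : ℕ) : ℤ) + 2 * k) ≠ 0) (c : ℤ)
  (hc : ∀ u, Even (par ε u + 1 + c))

include hn hT hc in
/-- the extended relation -/
lemma vl_rel (i : ℕ) (hi : i < n + 1) (j : ℕ) (hj : j ≤ m) (t s : ℤ)
    (ht : t = 2 * s + j + lev n i + c + 2) :
    vl T i (j + 1) (t + 1) * vl T i (j + 1) (t - 1) =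
      nbr n (fun i' => vl T i' (j + 1) t) i + vl T i (j + 2) t * vl T i j t := by
  classical
  rcases Nat.eq_or_lt_of_le hj with h | h
  · subst h
    simp only [vl_one, vl_two, nbr_one, zero_mul, add_zero, mul_one]
  · set I : Fin (n + 1) := ⟨i, hi⟩ with hI
    set J : Fin m := ⟨j, h⟩ with hJ
    have e1 := vl_in T I J (t + 1)
    have e2 := vl_in T I J (t - 1)
    have hodd : Odd (t + ((ε (I, J) : ℕ) : ℤ)) := by
      have := hc (I, J)
      rw [par] at this
      rw [Int.even_iff] at this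
      rw [Int.odd_iff, ht]
      simp only [hI, hJ] at this ⊢
      omega
    have h1 := hT.2 (I, J) t hodd
    rw [prod_tensorΓ, prod_tensorΔ] at h1
    have h2 : ∏ a with (Dhat n).Adj I a, T (a, J) t = nbr n (fun i' => vl T i' (j + 1) t) i := by
      rw [← prod_nbr n hn (fun i' => vl T i' (j + 1) t) I]
      exact Finset.prod_congr rfl (fun a _ => (vl_in T a J t).symm)
    have h3 : ∏ b with (SimpleGraph.pathGraph m).Adj J b, T (I, b) t =
        vl T i (j + 2) t * vl T i j t := by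
      rw [← prod_path m (fun j' => vl T i j' t) (vl_zero T i t) (vl_one T i t) J]
      exact Finset.prod_congr rfl (fun b _ => (vl_in T I b t).symm)
    rw [h2, h3, ← e1, ← e2] at h1
    exact h1

include hne hc in
lemma vl_ne (i : ℕ) (hi : i < n + 1) (j : ℕ) (hj : j ≤ m + 1) (t s : ℤ)
    (ht : t = 2 * s + j + lev n i + c) : vl T i j t ≠ 0 := by
  rcases Nat.eq_zero_or_pos j with h | h
  · subst h
    rw [vl_zero]
    exact one_ne_zero
  · rcases Nat.eq_or_lt_of_le hj with h1 | h1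
    · subst h1
      rw [vl_one]
      exact one_ne_zero
    · obtain ⟨j, rfl⟩ : ∃ j', j = j' + 1 := ⟨j - 1, by omega⟩
      have h2 := vl_in T ⟨i, hi⟩ ⟨j, by omega⟩ t
      have h3 := hc (⟨i, hi⟩, ⟨j, by omega⟩)
      rw [par] at h3
      simp only at h2 h3
      rw [h2]
      obtain ⟨r, hr⟩ := h3
      have h4 := hne (⟨i, hi⟩, ⟨j, by omega⟩)
        (s + r - ((ε (⟨i, hi⟩, ⟨j, by omega⟩) : ℕ) : ℤ))
      have e : ((ε (⟨i, hi⟩, ⟨j, by omega⟩) : ℕ) : ℤ) +
          2 * (s + r - ((ε (⟨i, hi⟩, ⟨j, by omega⟩) : ℕ) : ℤ)) = t := by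
        have ht' := ht
        push_cast at ht' hr
        linarith
      rw [e] at h4
      exact h4

/-- fork function: leaf i on even s, leaf i' on odd s -/
noncomputable def fk (T : Fin (n + 1) × Fin m → ℤ → FF (Fin (n + 1) × Fin m)) (i i' : ℕ)
    (j : ℕ) (r s : ℤ) : FF (Fin (n + 1) × Fin m) :=
  if Even s then vl T i j (2 * s + j + r) else vl T i' j (2 * s + j + r)

lemma fk_zero (i i' : ℕ) (r s : ℤ) : fk T i i' 0 r s = 1 := by simp [fk, vl_zero]
lemma fk_one (i i' : ℕ) (r s : ℤ) : fk T i i' (m + 1) r s = 1 := by simp [fk, vl_one]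
lemma fk_two (i i' : ℕ) (r s : ℤ) : fk T i i' (m + 2) r s = 0 := by simp [fk, vl_two]

include hne hc in
lemma fk_ne (a b L : ℕ) (ha : a < n + 1) (hb : b < n + 1) (hLa : lev n a = L)
    (hLb : lev n b = L) (j : ℕ) (hj : j ≤ m + 1) (s : ℤ) : fk T a b j (L + c) s ≠ 0 := by
  rw [fk]
  split_ifs
  · exact vl_ne ε T hne c hc a ha j hj _ s (by rw [hLa]; ring)
  · exact vl_ne ε T hne c hc b hb j hj _ s (by rw [hLb]; ring)

include hn hT hc in
lemma fk_rel (a b w L : ℕ) (ha : a < n + 1) (hb : b < n + 1) (hLa : lev n a = L)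
    (hLb : lev n b = L)
    (hna : ∀ g : ℕ → FF (Fin (n + 1) × Fin m), nbr n g a = g w)
    (hnb : ∀ g : ℕ → FF (Fin (n + 1) × Fin m), nbr n g b = g w) (j : ℕ) (hj : j ≤ m) (s : ℤ) :
    fk T a b (j + 1) (L + c) (s + 1) * fk T b a (j + 1) (L + c) s =
      vl T w (j + 1) (2 * s + j + L + c + 2) +
        fk T b a (j + 2) (L + c) s * fk T a b j (L + c) (s + 1) := by
  have e1 : 2 * (s + 1) + ((j + 1 : ℕ) : ℤ) + (L + c) = (2 * s + j + L + c + 2) + 1 := by
    push_cast; ring
  have e2 : 2 * s + ((j + 1 : ℕ) : ℤ) + (L + c) = (2 * s + j + L + c + 2) - 1 := by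
    push_cast; ring
  have e3 : 2 * s + ((j + 2 : ℕ) : ℤ) + (L + c) = (2 * s + j + L + c + 2) := by
    push_cast; ring
  have e4 : 2 * (s + 1) + ((j : ℕ) : ℤ) + (L + c) = (2 * s + j + L + c + 2) := by
    ring
  by_cases hs : Even s
  · have hs' : ¬ Even (s + 1) := by rw [Int.even_add_one, not_not]; exact hs
    have h := vl_rel hn ε T hT c hc b hb j hj (2 * s + j + L + c + 2) s (by rw [hLb])
    rw [hnb] at h
    simp only [fk, hs, hs', if_true, if_false]
    rw [e1, e2, e3, e4]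
    exact h
  · have hs' : Even (s + 1) := by rw [Int.even_add_one]; exact hs
    have h := vl_rel hn ε T hT c hc a ha j hj (2 * s + j + L + c + 2) s (by rw [hLa])
    rw [hna] at h
    simp only [fk, hs, hs', if_true, if_false]
    rw [e1, e2, e3, e4]
    exact h

lemma fk_mul (a b j : ℕ) (r s : ℤ) : fk T a b j r s * fk T b a j r s =
    vl T a j (2 * s + j + r) * vl T b j (2 * s + j + r) := by
  rw [fk, fk]
  split_ifs
  · rfl
  · rw [mul_comm]

/-- the nodes of the two-fork system -/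
noncomputable def Tn (T : Fin (n + 1) × Fin m → ℤ → FF (Fin (n + 1) × Fin m)) (c : ℤ) (d j : ℕ)
    (s : ℤ) : FF (Fin (n + 1) × Fin m) :=
  if d = 0 then fk T 1 0 j ((1 : ℕ) + c) s * fk T 0 1 j ((1 : ℕ) + c) s
    else if d = n - 2 then
      fk T n (n - 1) j ((n - 1 : ℕ) + c) s * fk T (n - 1) n j ((n - 1 : ℕ) + c) s
    else vl T (d + 1) j (2 * s + j + (d + 1) + c)


lemma nbr_0 (g : ℕ → FF (Fin (n + 1) × Fin m)) : nbr n g 0 = g 2 := by simp [nbr]
lemma nbr_1 (g : ℕ → FF (Fin (n + 1) × Fin m)) : nbr n g 1 = g 2 := by simp [nbr]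
include hn in
lemma nbr_n (g : ℕ → FF (Fin (n + 1) × Fin m)) : nbr n g n = g (n - 2) := by
  rw [nbr, if_neg (by omega), if_pos (Or.inr rfl)]
include hn in
lemma nbr_n1 (g : ℕ → FF (Fin (n + 1) × Fin m)) : nbr n g (n - 1) = g (n - 2) := by
  rw [nbr, if_neg (by omega), if_pos (by omega)]

/-- the two-fork system -/
noncomputable def theSys : Sys (FF (Fin (n + 1) × Fin m)) (n - 2) m where
  P := fun j s => fk T 1 0 j ((1 : ℕ) + c) s
  Q := fun j s => fk T 0 1 j ((1 : ℕ) + c) s
  P' := fun j s => fk T n (n - 1) j ((n - 1 : ℕ) + c) s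
  Q' := fun j s => fk T (n - 1) n j ((n - 1 : ℕ) + c) s
  T := Tn T c
  hN := by omega
  T0 := by intro j s; rw [Tn, if_pos rfl]
  TN := by
    intro j s
    rw [Tn, if_neg (by omega), if_pos rfl]
  P0 := by intro s; simp only [fk_zero]
  Q0 := by intro s; simp only [fk_zero]
  P'0 := by intro s; simp only [fk_zero]
  Q'0 := by intro s; simp only [fk_zero]
  Tz := by intro d _ s; rw [Tn]; simp [fk_zero, vl_zero]
  P1 := by intro s; simp only [fk_one]
  Q1 := by intro s; simp only [fk_one]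
  P'1 := by intro s; simp only [fk_one]
  Q'1 := by intro s; simp only [fk_one]
  T1 := by intro d _ s; rw [Tn]; simp [fk_one, vl_one]
  P2 := by intro s; simp only [fk_two]
  Q2 := by intro s; simp only [fk_two]
  P'2 := by intro s; simp only [fk_two]
  Q'2 := by intro s; simp only [fk_two]
  T2 := by intro d _ s; rw [Tn]; simp [fk_two, vl_two]
  nzP := fun j hj s => fk_ne ε T hne c hc 1 0 1 (by omega) (by omega) (lev_1 hn) lev_0 j hj s
  nzQ := fun j hj s => fk_ne ε T hne c hc 0 1 1 (by omega) (by omega) lev_0 (lev_1 hn) j hj s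
  nzP' := fun j hj s => fk_ne ε T hne c hc n (n - 1) (n - 1) (by omega) (by omega) (lev_n hn)
    (lev_n1 hn) j hj s
  nzQ' := fun j hj s => fk_ne ε T hne c hc (n - 1) n (n - 1) (by omega) (by omega) (lev_n1 hn)
    (lev_n hn) j hj s
  nzT := by
    intro d hd j hj s
    rw [Tn]
    split_ifs with h1 h2
    · exact mul_ne_zero (fk_ne ε T hne c hc 1 0 1 (by omega) (by omega) (lev_1 hn) lev_0 j hj s)
        (fk_ne ε T hne c hc 0 1 1 (by omega) (by omega) lev_0 (lev_1 hn) j hj s)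
    · exact mul_ne_zero (fk_ne ε T hne c hc n (n - 1) (n - 1) (by omega) (by omega) (lev_n hn)
        (lev_n1 hn) j hj s) (fk_ne ε T hne c hc (n - 1) n (n - 1) (by omega) (by omega) (lev_n1 hn)
        (lev_n hn) j hj s)
    · exact vl_ne ε T hne c hc (d + 1) (by omega) j hj _ s
        (by rw [lev_mid _ (by omega) (by omega)]; push_cast; ring)
  rel0 := by
    intro j hj s
    rw [fk_rel hn ε T hT c hc 1 0 2 1 (by omega) (by omega) (lev_1 hn) lev_0 nbr_1 nbr_0 j hj s]
    congr 1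
    rw [Tn, if_neg (by omega), if_neg (by omega)]
    congr 1
    push_cast
    ring
  rel0' := by
    intro j hj s
    rw [fk_rel hn ε T hT c hc 0 1 2 1 (by omega) (by omega) lev_0 (lev_1 hn) nbr_0 nbr_1 j hj s]
    congr 1
    rw [Tn, if_neg (by omega), if_neg (by omega)]
    congr 1
    push_cast
    ring
  rel1 := by
    intro j hj s
    rw [fk_rel hn ε T hT c hc n (n - 1) (n - 2) (n - 1) (by omega) (by omega) (lev_n hn)
      (lev_n1 hn) (nbr_n hn) (nbr_n1 hn) j hj s]
    congr 1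
    rw [Tn, if_neg (by omega), if_neg (by omega)]
    have e : n - 2 - 1 + 1 = n - 2 := by omega
    rw [e]
    congr 1
    have e1 : ((n - 1 : ℕ) : ℤ) = n - 1 := by omega
    have e2 : ((n - 2 - 1 : ℕ) : ℤ) = n - 3 := by omega
    rw [e1, e2]
    push_cast
    ring
  rel1' := by
    intro j hj s
    rw [fk_rel hn ε T hT c hc (n - 1) n (n - 2) (n - 1) (by omega) (by omega) (lev_n1 hn)
      (lev_n hn) (nbr_n1 hn) (nbr_n hn) j hj s]
    congr 1
    rw [Tn, if_neg (by omega), if_neg (by omega)]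
    have e : n - 2 - 1 + 1 = n - 2 := by omega
    rw [e]
    congr 1
    have e1 : ((n - 1 : ℕ) : ℤ) = n - 1 := by omega
    have e2 : ((n - 2 - 1 : ℕ) : ℤ) = n - 3 := by omega
    rw [e1, e2]
    push_cast
    ring
  relC := by
    intro d hd j hj s
    have h := vl_rel hn ε T hT c hc (d + 2) (by omega) j hj (2 * s + j + d + c + 4) s
      (by rw [lev_mid _ (by omega) (by omega)]; push_cast; ring)
    have f1 : Tn T c (d + 1) (j + 1) (s + 1) = vl T (d + 2) (j + 1) (2 * s + j + d + c + 4 + 1) := by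
      rw [Tn, if_neg (by omega), if_neg (by omega)]
      congr 1
      push_cast
      ring
    have f2 : Tn T c (d + 1) (j + 1) s = vl T (d + 2) (j + 1) (2 * s + j + d + c + 4 - 1) := by
      rw [Tn, if_neg (by omega), if_neg (by omega)]
      congr 1
      push_cast
      ring
    have f3 : Tn T c (d + 1) (j + 2) s = vl T (d + 2) (j + 2) (2 * s + j + d + c + 4) := by
      rw [Tn, if_neg (by omega), if_neg (by omega)]
      congr 1
      push_cast
      ring
    have f4 : Tn T c (d + 1) j (s + 1) = vl T (d + 2) j (2 * s + j + d + c + 4) := by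
      rw [Tn, if_neg (by omega), if_neg (by omega)]
      congr 1
      push_cast
      ring
    rw [f1, f2, f3, f4, h]
    congr 1
    rw [nbr, if_neg (show ¬ (d + 2 = 0 ∨ d + 2 = 1) by omega),
      if_neg (show ¬ (d + 2 + 1 = n ∨ d + 2 = n) by omega), mul_comm]
    congr 1
    · -- upper
      rw [Tn, if_neg (show ¬ d + 2 = 0 by omega)]
      by_cases h2 : d + 2 + 2 = n
      · rw [if_pos h2, if_pos (show d + 2 = n - 2 by omega), fk_mul, mul_comm]
        have e1 : ((n - 1 : ℕ) : ℤ) = n - 1 := by omega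
        have e2 : (n : ℤ) = d + 4 := by omega
        rw [e1, e2]
        congr 2 <;> (push_cast; ring)
      · rw [if_neg h2, if_neg (show ¬ d + 2 = n - 2 by omega)]
        congr 1
        push_cast
        ring
    · -- lower
      rw [Tn]
      by_cases h2 : d = 0
      · subst h2
        rw [if_pos rfl, if_pos rfl, fk_mul, mul_comm]
        congr 2 <;> (push_cast; ring)
      · rw [if_neg (show ¬ d + 2 = 2 by omega), if_neg h2, if_neg (show ¬ d = n - 2 by omega)]
        have e : d + 2 - 1 = d + 1 := by omega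
        rw [e]
        congr 1
        push_cast
        ring

end sys

/-- recurrence for every vertex -/
theorem rec_DA {n m : ℕ} (hn : 4 ≤ n) (ε : Fin (n + 1) × Fin m → Fin 2)
    (hε : ∀ u v, ((tensorΓ (Dhat n) (SimpleGraph.pathGraph m)).Adj u v ∨
      (tensorΔ (Dhat n) (SimpleGraph.pathGraph m)).Adj u v) → ε u ≠ ε v)
    (T : Fin (n + 1) × Fin m → ℤ → FF (Fin (n + 1) × Fin m))
    (hT : IsTSystem (tensorΓ (Dhat n) (SimpleGraph.pathGraph m))
      (tensorΔ (Dhat n) (SimpleGraph.pathGraph m)) ε T)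
    (hne : ∀ u k, T u (((ε u : ℕ) : ℤ) + 2 * k) ≠ 0) (v : Fin (n + 1) × Fin m) :
    IsRec (fun k : ℤ => T v (((ε v : ℕ) : ℤ) + 2 * k)) := by
  have hc : ∀ u, Even (par ε u + 1 + (par ε v + 1)) := by
    intro u
    have := par_const ε hε hn u v
    rw [Int.even_iff] at this ⊢
    omega
  set c : ℤ := par ε v + 1 with hcdef
  have h2 : (2 : FF (Fin (n + 1) × Fin m)) ≠ 0 := two_ne_zero
  obtain ⟨i, j⟩ := v
  have hj := j.2
  have hi := i.2
  obtain ⟨hP, hQ, hP', hQ', hTn⟩ :=
    all_rec (theSys hn ε T hT hne c hc) h2 ((j : ℕ) + 1) (by omega)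
  -- the shift between the two time coordinates
  obtain ⟨r, hr⟩ := hc (i, j)
  have htime : ∀ k : ℤ, (((ε (i, j) : ℕ) : ℤ) + 2 * k) =
      2 * (k + (((ε (i, j) : ℕ) : ℤ) - r)) + ((j : ℕ) + 1 : ℕ) + (lev n i + c) := by
    intro k
    rw [par] at hr
    simp only at hr
    push_cast
    linarith
  have hval : ∀ k : ℤ, T (i, j) (((ε (i, j) : ℕ) : ℤ) + 2 * k) =
      vl T i ((j : ℕ) + 1) (2 * (k + (((ε (i, j) : ℕ) : ℤ) - r)) + ((j : ℕ) + 1 : ℕ) +
        (lev n i + c)) := by
    intro k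
    rw [vl_in, ← htime]
  simp only [hval]
  -- it is enough to treat the sequence in s
  suffices h : IsRec (fun s : ℤ => vl T i ((j : ℕ) + 1) (2 * s + ((j : ℕ) + 1 : ℕ) +
      (lev n i + c))) by
    exact h.shift (((ε (i, j) : ℕ) : ℤ) - r)
  have hEv : IsRec (fun s : ℤ => if Even s then (1 : FF (Fin (n + 1) × Fin m)) else 0) := by
    refine IsRec.of_per 2 (by norm_num) (fun s => ?_)
    have : Even (s + ((2 : ℕ) : ℤ)) ↔ Even s := by
      rw [Int.even_iff, Int.even_iff]; omega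
    simp only [this]
  have hOd : IsRec (fun s : ℤ => if Even s then (0 : FF (Fin (n + 1) × Fin m)) else 1) := by
    refine IsRec.of_per 2 (by norm_num) (fun s => ?_)
    have : Even (s + ((2 : ℕ) : ℤ)) ↔ Even s := by
      rw [Int.even_iff, Int.even_iff]; omega
    simp only [this]
  -- a leaf from its two fork functions
  have leaf : ∀ (a b L : ℕ), IsRec (fun s => fk T a b ((j : ℕ) + 1) ((L : ℕ) + c) s) →
      IsRec (fun s => fk T b a ((j : ℕ) + 1) ((L : ℕ) + c) s) →
      IsRec (fun s : ℤ => vl T a ((j : ℕ) + 1) (2 * s + ((j : ℕ) + 1 : ℕ) + (L + c))) := by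
    intro a b L h1 h2
    have := (hEv.mul h1).add (hOd.mul h2)
    have e : (fun s : ℤ => vl T a ((j : ℕ) + 1) (2 * s + ((j : ℕ) + 1 : ℕ) + (L + c))) =
        fun s : ℤ => (if Even s then (1 : FF (Fin (n + 1) × Fin m)) else 0) *
          fk T a b ((j : ℕ) + 1) ((L : ℕ) + c) s +
          (if Even s then (0 : FF (Fin (n + 1) × Fin m)) else 1) *
          fk T b a ((j : ℕ) + 1) ((L : ℕ) + c) s := by
      funext s
      by_cases hs : Even s
      · simp [hs, fk]
      · simp [hs, fk]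
    rw [e]
    exact this
  by_cases h0 : (i : ℕ) = 0
  · rw [h0, lev_0]
    exact leaf 0 1 1 hQ hP
  by_cases h1 : (i : ℕ) = 1
  · rw [h1, lev_1 hn]
    exact leaf 1 0 1 hP hQ
  by_cases h3 : (i : ℕ) = n
  · rw [h3, lev_n hn]
    exact leaf n (n - 1) (n - 1) hP' hQ'
  by_cases h4 : (i : ℕ) = n - 1
  · rw [h4, lev_n1 hn]
    exact leaf (n - 1) n (n - 1) hQ' hP'
  · have h5 := hTn ((i : ℕ) - 1) (by omega)
    have e : (theSys hn ε T hT hne c hc).T ((i : ℕ) - 1) ((j : ℕ) + 1) =
        fun s : ℤ => vl T i ((j : ℕ) + 1) (2 * s + ((j : ℕ) + 1 : ℕ) + (lev n i + c)) := by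
      funext s
      show Tn T c _ _ s = _
      rw [Tn, if_neg (by omega), if_neg (by omega), lev_mid _ (by omega) (by omega)]
      have e2 : (i : ℕ) - 1 + 1 = i := by omega
      rw [e2]
      congr 1
      have e3 : (((i : ℕ) - 1 : ℕ) : ℤ) = (i : ℕ) - 1 := by omega
      rw [e3]
      ring
    rw [e] at h5
    exact h5

/-- Q1 for the tensor products of an affine diagram of type D with a path -/
theorem Q1_DA {n m : ℕ} (hn : 4 ≤ n) (ε : Fin (n + 1) × Fin m → Fin 2)
    (hε : ∀ u v, ((tensorΓ (Dhat n) (SimpleGraph.pathGraph m)).Adj u v ∨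
      (tensorΔ (Dhat n) (SimpleGraph.pathGraph m)).Adj u v) → ε u ≠ ε v)
    (v : Fin (n + 1) × Fin m) :
    Q1At (tensorΓ (Dhat n) (SimpleGraph.pathGraph m))
      (tensorΔ (Dhat n) (SimpleGraph.pathGraph m)) ε v :=
  Q1At_of_rec _ _ ε hε v (fun T hT hne => rec_DA hn ε hε T hT hne v)

/-- the tensor product is bipartite -/
theorem bip_DA {n m : ℕ} (hn : 4 ≤ n) : ∃ ε : Fin (n + 1) × Fin m → Fin 2,
    ∀ u v, ((tensorΓ (Dhat n) (SimpleGraph.pathGraph m)).Adj u v ∨
      (tensorΔ (Dhat n) (SimpleGraph.pathGraph m)).Adj u v) → ε u ≠ ε v := by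
  refine ⟨fun u => ⟨(lev n u.1 + u.2) % 2, Nat.mod_lt _ (by norm_num)⟩, ?_⟩
  rintro ⟨i, j⟩ ⟨i', j'⟩ h he
  have he' : (lev n i + j) % 2 = (lev n i' + j') % 2 := congrArg Fin.val he
  have hedge : ∀ a b : ℕ, DhatEdge n a b → lev n a + 1 = lev n b := by
    intro a b hab
    rcases hab with h | h | h | h | h
    · rw [h.1, h.2, lev_0, lev_mid 2 (by omega) (by omega)]
    · rw [h.1, h.2, lev_1 hn, lev_mid 2 (by omega) (by omega)]
    · rw [h.2.1, lev_mid a (by omega) (by omega), lev_mid (a + 1) (by omega) (by omega)]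
    · have e : b = n - 1 := by omega
      rw [e, lev_n1 hn, lev_mid a (by omega) (by omega)]
      omega
    · rw [h.2, lev_n hn, lev_mid a (by omega) (by omega)]
      omega
  rcases h with ⟨h1, h2⟩ | ⟨h1, h2⟩
  · simp only at h1 h2
    rw [Dhat_adj] at h1
    rw [h2] at he'
    rcases h1 with h1 | h1
    · have := hedge _ _ h1
      omega
    · have := hedge _ _ h1
      omega
  · simp only at h1 h2
    rw [SimpleGraph.pathGraph_adj] at h2
    rw [h1] at he'
    omega

end H60TS
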