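import Pool.Agent.H60.TS.Rec

/-!
From finite rank on a quadrant to recurrences on the diagonal, and from a half line to the
integers.
-/

namespace H60TS
open Polynomial

variable {K : Type*} [Field K]

/-- A kernel of finite rank on the quadrant with F (b + p, a) = F (b, a + p) has a recurrent
diagonal. -/
theorem diag_monic (F : ℕ → ℕ → K) (p : ℕ) (hp : 0 < p) (hF : ∀ b a, F (b + p) a = F b (a + p))
    (U : Submodule K (ℕ → K)) (hU : U.FG) (hFU : ∀ b, (fun a => F b a) ∈ U) :
    ∃ g : K[X], g.Monic ∧
      ∀ a : ℕ, ∑ k ∈ Finset.range (g.natDegree + 1), g.coeff k * F (a + k) (a + k) = 0 := by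
  classical
  let sN : (ℕ → K) →ₗ[K] (ℕ → K) := LinearMap.funLeft K K (fun a => a + 2 * p)
  have sN_apply : ∀ (g : ℕ → K) (a : ℕ), sN g a = g (a + 2 * p) := fun _ _ => rfl
  let W : Submodule K (ℕ → K) := Submodule.span K (Set.range (fun b => (fun a => F b a)))
  have hWU : W ≤ U := Submodule.span_le.mpr (by rintro _ ⟨b, rfl⟩; exact hFU b)
  have hWfin : Module.Finite K W := by
    have : Module.Finite K U := Module.Finite.iff_fg.mpr hU
    exact Module.Finite.of_injective (Submodule.inclusion hWU) (Submodule.inclusion_injective hWU)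
  have hWs : ∀ g ∈ W, sN g ∈ W := by
    intro g hg
    induction hg using Submodule.span_induction with
    | mem y hy =>
      obtain ⟨b, rfl⟩ := hy
      refine Submodule.subset_span ⟨b + p + p, ?_⟩
      funext a
      show F (b + p + p) a = F b (a + 2 * p)
      rw [hF, hF]
      congr 1
      ring
    | zero => rw [map_zero]; exact Submodule.zero_mem _
    | add y z _ _ hy hz => rw [map_add]; exact Submodule.add_mem _ hy hz
    | smul c y _ hy => rw [map_smul]; exact Submodule.smul_mem _ _ hy
  let T : W →ₗ[K] W := sN.restrict hWs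
  have h1 : aeval T T.charpoly = 0 := T.aeval_self_charpoly
  have hpow : ∀ (k : ℕ) (w : W) (a : ℕ), ((T ^ k) w).1 a = w.1 (a + k * (2 * p)) := by
    intro k
    induction k with
    | zero => intro w a; simp
    | succ k ih =>
      intro w a
      rw [pow_succ, Module.End.mul_apply, ih]
      have e1 : a + (k + 1) * (2 * p) = a + k * (2 * p) + 2 * p := by ring
      rw [e1]
      rfl
  have hdiag : ∀ (k a : ℕ), F (a + k * p) (a + k * p) = F a (a + k * (2 * p)) := by
    intro k a
    have : ∀ b c : ℕ, F (b + k * p) c = F b (c + k * p) := by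
      induction k with
      | zero => intro b c; simp
      | succ k ih =>
        intro b c
        have e1 : b + (k + 1) * p = (b + k * p) + p := by ring
        rw [e1, hF, ih]
        congr 1
        ring
    rw [this]
    congr 1
    ring
  refine ⟨expand K p T.charpoly, (LinearMap.charpoly_monic T).expand hp, ?_⟩
  intro a
  let wa : W := ⟨fun c => F a c, Submodule.subset_span ⟨a, rfl⟩⟩
  have h2 : ((aeval T T.charpoly) wa).1 a = 0 := by rw [h1]; rfl
  rw [aeval_eq_sum_range] at h2
  simp only [LinearMap.sum_apply, LinearMap.smul_apply, Submodule.coe_sum, Submodule.coe_smul,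
    Finset.sum_apply, Pi.smul_apply, smul_eq_mul, hpow] at h2
  -- compare the two sums
  rw [natDegree_expand]
  set P := T.charpoly with hP
  have h3 : ∑ k ∈ Finset.range (P.natDegree * p + 1), (expand K p P).coeff k * F (a + k) (a + k) =
      ∑ k ∈ Finset.range (P.natDegree + 1), P.coeff k * F (a + k * p) (a + k * p) := by
    symm
    refine Finset.sum_of_injOn (fun k => k * p) ?_ ?_ ?_ ?_
    · intro x _ y _ hxy
      exact Nat.eq_of_mul_eq_mul_right hp hxy
    · intro x hx
      simp only [Finset.coe_range, Set.mem_Iio] at hx ⊢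
      have : x * p ≤ P.natDegree * p := Nat.mul_le_mul_right p (by omega)
      omega
    · intro k hk hk'
      have : (expand K p P).coeff k = 0 := by
        rw [coeff_expand hp, if_neg]
        rintro ⟨c, rfl⟩
        apply hk'
        refine ⟨c, ?_, by ring⟩
        simp only [Finset.coe_range, Set.mem_Iio]
        rw [Finset.mem_range] at hk
        by_contra hcon
        push Not at hcon
        have : (P.natDegree + 1) * p ≤ c * p := Nat.mul_le_mul_right p hcon
        have e : (P.natDegree + 1) * p = P.natDegree * p + p := by ring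
        have e' : c * p = p * c := by ring
        omega
      rw [this, zero_mul]
    · intro k _
      rw [coeff_expand_mul hp]
  rw [h3, ← h2]
  refine Finset.sum_congr rfl (fun k _ => ?_)
  rw [hdiag]

/-- A recurrence on the half line for a sequence moved by an automorphism holds on the
integers. -/
theorem half_line (σ : K ≃+* K) (f : ℤ → K) (hσ : ∀ r, f (r + 1) = σ (f r)) (g : K[X])
    (hg : g.Monic)
    (h : ∀ a : ℕ, ∑ k ∈ Finset.range (g.natDegree + 1), g.coeff k * f ((a : ℤ) + k) = 0) :
    IsRec f := by
  classical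
  have hex : ∃ d : ℕ, ∃ g : K[X], g.Monic ∧ (∀ r : ℤ, 0 ≤ r → aeval (sh (K := K) 1) g f r = 0) ∧
      g.natDegree = d := by
    refine ⟨_, g, hg, ?_, rfl⟩
    intro r hr
    obtain ⟨a, rfl⟩ := Int.eq_ofNat_of_zero_le hr
    rw [aeval_sh]
    exact h a
  obtain ⟨mu, hmu, hmu0, hdeg⟩ := Nat.find_spec hex
  set d := Nat.find hex with hd
  have hmap : ∀ (g : K[X]) (r : ℤ), aeval (sh (K := K) 1) (g.map (σ : K →+* K)) f (r + 1) =
      σ (aeval (sh (K := K) 1) g f r) := by
    intro g r
    rw [aeval_sh, aeval_sh, natDegree_map, map_sum]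
    refine Finset.sum_congr rfl (fun k _ => ?_)
    rw [coeff_map, map_mul, ← hσ]
    have e1 : r + 1 + (k : ℤ) = r + k + 1 := by ring
    rw [e1]
    rfl
  have hmin : ∀ g : K[X], g ≠ 0 → (∀ r : ℤ, 1 ≤ r → aeval (sh (K := K) 1) g f r = 0) →
      d ≤ g.natDegree := by
    intro g hg hg0
    set g1 := g * C g.leadingCoeff⁻¹ with hg1
    have hg1m : g1.Monic := monic_mul_leadingCoeff_inv hg
    have hg1d : g1.natDegree = g.natDegree := natDegree_mul_leadingCoeff_inv g hg
    have hg10 : ∀ r : ℤ, 1 ≤ r → aeval (sh (K := K) 1) g1 f r = 0 := by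
      intro r hr
      rw [hg1, mul_comm, map_mul, Module.End.mul_apply, aeval_C, Module.algebraMap_end_apply,
        Pi.smul_apply, hg0 r hr, smul_zero]
    set g2 := g1.map (σ.symm : K →+* K) with hg2
    have hg2s : g2.map (σ : K →+* K) = g1 := by
      rw [hg2, Polynomial.map_map]
      have : (σ : K →+* K).comp (σ.symm : K →+* K) = RingHom.id K := by
        ext x; simp
      rw [this, Polynomial.map_id]
    have hle : d ≤ g2.natDegree := by
      by_contra hlt
      push Not at hlt
      refine Nat.find_min hex hlt ⟨g2, hg1m.map _, ?_, rfl⟩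
      intro r hr
      have h1 := hmap g2 r
      rw [hg2s, hg10 (r + 1) (by omega)] at h1
      have h2 : σ (aeval (sh (K := K) 1) g2 f r) = σ 0 := by rw [← h1, map_zero]
      exact σ.injective h2
    rw [hg2, natDegree_map, hg1d] at hle
    exact hle
  have hinv : mu.map (σ : K →+* K) = mu := by
    by_contra hne
    have hsub : mu.map (σ : K →+* K) - mu ≠ 0 := sub_ne_zero.mpr hne
    have h1 : ∀ r : ℤ, 1 ≤ r → aeval (sh (K := K) 1) (mu.map (σ : K →+* K) - mu) f r = 0 := by
      intro r hr
      rw [map_sub, LinearMap.sub_apply, Pi.sub_apply, hmu0 r (by omega), sub_zero]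
      have := hmap mu (r - 1)
      rw [sub_add_cancel, hmu0 (r - 1) (by omega), map_zero] at this
      exact this
    have h2 := hmin _ hsub h1
    have h3 : (mu.map (σ : K →+* K) - mu).degree < (mu.map (σ : K →+* K)).degree := by
      refine degree_sub_lt_left ?_ ?_ ?_
      · rw [degree_map]
      · exact (hmu.map (σ : K →+* K)).ne_zero
      · rw [(hmu.map (σ : K →+* K)).leadingCoeff, hmu.leadingCoeff]
    have h4 : (mu.map (σ : K →+* K) - mu).natDegree < (mu.map (σ : K →+* K)).natDegree :=
      natDegree_lt_natDegree hsub h3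
    rw [natDegree_map] at h4
    omega
  have hall : ∀ n : ℕ, ∀ r : ℤ, -(n : ℤ) ≤ r → aeval (sh (K := K) 1) mu f r = 0 := by
    intro n
    induction n with
    | zero => intro r hr; exact hmu0 r (by simpa using hr)
    | succ n ih =>
      intro r hr
      have h1 := hmap mu r
      rw [hinv, ih (r + 1) (by push_cast at hr; omega)] at h1
      have h2 : σ (aeval (sh (K := K) 1) mu f r) = σ 0 := by rw [← h1, map_zero]
      exact σ.injective h2
  have hzero : ∀ r : ℤ, aeval (sh (K := K) 1) mu f r = 0 := by
    intro r
    exact hall (r.natAbs) r (by omega)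
  -- the stable space
  have hrec : sh (K := K) (d : ℤ) f = - ∑ k ∈ Finset.range d, mu.coeff k • sh (K := K) (k : ℤ) f := by
    funext r
    have h1 := hzero r
    rw [aeval_sh, hdeg, Finset.sum_range_succ] at h1
    have h2 : mu.coeff d = 1 := by
      rw [← hdeg]; exact hmu.coeff_natDegree
    rw [h2, one_mul] at h1
    simp only [sh_apply, Pi.neg_apply, Finset.sum_apply, Pi.smul_apply, smul_eq_mul]
    linear_combination h1
  refine ⟨1, one_pos, Submodule.span K (Set.range (fun k : Fin d => sh (K := K) ((k : ℕ) : ℤ) f)),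
    Submodule.fg_span (Set.finite_range _), ?_, ?_⟩
  · intro g hg
    induction hg using Submodule.span_induction with
    | mem y hy =>
      obtain ⟨k, rfl⟩ := hy
      have e1 : sh (K := K) (((1 : ℕ) : ℤ)) (sh (K := K) ((k : ℕ) : ℤ) f) =
          sh (K := K) (((k : ℕ) + 1 : ℕ) : ℤ) f := by
        funext r
        simp only [sh_apply]
        congr 1
        push_cast
        ring
      simp only [e1]
      rcases Nat.lt_or_ge ((k : ℕ) + 1) d with hk | hk
      · exact Submodule.subset_span ⟨⟨(k : ℕ) + 1, hk⟩, rfl⟩
      · have : (k : ℕ) + 1 = d := by have := k.2; omega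
        rw [this, hrec]
        refine Submodule.neg_mem _ (Submodule.sum_mem _ (fun i hi => Submodule.smul_mem _ _ ?_))
        exact Submodule.subset_span ⟨⟨i, Finset.mem_range.mp hi⟩, rfl⟩
    | zero => rw [map_zero]; exact Submodule.zero_mem _
    | add y z _ _ hy hz => rw [map_add]; exact Submodule.add_mem _ hy hz
    | smul c y _ hy => rw [map_smul]; exact Submodule.smul_mem _ _ hy
  · rcases Nat.eq_zero_or_pos d with h0 | h0
    · have hf0 : f = 0 := by
        have := hrec
        rw [h0] at this
        simp only [Finset.range_zero, Finset.sum_empty, neg_zero] at this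
        funext r
        have h2 := congrFun this r
        simpa using h2
      rw [hf0]
      exact Submodule.zero_mem _
    · refine Submodule.subset_span ⟨⟨0, h0⟩, ?_⟩
      funext r
      simp

end H60TS
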