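import Pool.Agent.H60.TS.Chain2
import Pool.Agent.H60.TS.HalfRec

/-!
The T-system attached to a permutation and a simply laced matrix: all sequences satisfy monic
recurrences on the half line.
-/

set_option linter.unusedSectionVars false

namespace H60TS
open Finset Polynomial

variable {I : Type} [DecidableEq I] [Fintype I] {K : Type} [Field K] [CharZero K]

theorem rho_monic (C : I → I → ℤ) (S : SLaced C) (hF : FinT C) (ρ : Equiv.Perm I)
    (hρ : ∀ i j, C (ρ i) (ρ j) = C i j) (ε : I → ℕ) (hε2 : ∀ i, ε i < 2)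
    (hερ : ∀ i, ε (ρ i) ≠ ε i) (hεC : ∀ i j, C i j = -1 → ε i ≠ ε j) (T : I → ℤ → K)
    (hne : ∀ (i : I) (t : ℤ), Even (t + ε i) → T i t ≠ 0)
    (hT : ∀ (i : I) (t : ℤ), Odd (t + ε i) → T i (t + 1) * T i (t - 1) =
      T (ρ i) t * T (ρ.symm i) t + ∏ k with C k i = -1, T k t) (j : I) :
    ∃ g : K[X], g.Monic ∧ ∀ a : ℕ, ∑ k ∈ Finset.range (g.natDegree + 1),
      g.coeff k * T j ((ε j : ℤ) + 2 * ((a : ℤ) + k)) = 0 := by
  classical
  -- powers of the permutation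
  have hρz : ∀ (c : ℤ) (i j : I), C ((ρ ^ c : Equiv.Perm I) i) ((ρ ^ c : Equiv.Perm I) j) = C i j := by
    intro c
    induction c using Int.induction_on with
    | zero => intro i j; simp
    | succ c ih =>
      intro i j
      rw [zpow_add_one, Equiv.Perm.mul_apply, Equiv.Perm.mul_apply, ih, hρ]
    | pred c ih =>
      intro i j
      rw [zpow_sub_one, Equiv.Perm.mul_apply, Equiv.Perm.mul_apply, ih]
      have := hρ (ρ⁻¹ i) (ρ⁻¹ j)
      simpa using this.symm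
  have hεz : ∀ (c : ℤ) (i : I), Even ((ε ((ρ ^ c : Equiv.Perm I) i) : ℤ) + ε i + c) := by
    intro c
    induction c using Int.induction_on with
    | zero => intro i; simp [← two_mul]
    | succ c ih =>
      intro i
      rw [zpow_add_one, Equiv.Perm.mul_apply]
      have h1 := ih (ρ i)
      have h2 := hερ i
      have h3 := hε2 i
      have h4 := hε2 (ρ i)
      rw [Int.even_iff] at h1 ⊢
      omega
    | pred c ih =>
      intro i
      rw [zpow_sub_one, Equiv.Perm.mul_apply]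
      have h1 := ih (ρ⁻¹ i)
      have h2 := hερ (ρ⁻¹ i)
      have h3 := hε2 i
      have h4 := hε2 (ρ⁻¹ i)
      have h5 : ρ (ρ⁻¹ i) = i := by simp
      rw [h5] at h2
      rw [Int.even_iff] at h1 ⊢
      omega
  -- the plane
  let TT : I → ℤ → ℤ → K := fun j r r' => T ((ρ ^ ((r' - r) / 2) : Equiv.Perm I) j) ((r + r') / 2)
  let fl : I → ℕ → ℤ := fun j n => (n : ℤ) - (((n + ε j) % 2 : ℕ) : ℤ)
  let τ : I → ℕ → ℕ → K := fun j n m => TT j (fl j n) (fl j m)
  have hTTne : ∀ (j : I) (r r' : ℤ), Even (r + ε j) → Even (r' + ε j) → TT j r r' ≠ 0 := by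
    intro j r r' h1 h2
    apply hne
    have h3 := hεz ((r' - r) / 2) j
    rw [Int.even_iff] at h1 h2 h3 ⊢
    omega
  have hfl : ∀ j n, Even (fl j n + ε j) := by
    intro j n
    show Even ((n : ℤ) - (((n + ε j) % 2 : ℕ) : ℤ) + ε j)
    rw [Int.even_iff]
    omega
  have hcolC : ∀ i j, C i j = -1 → (ε i + ε j) % 2 = 1 := by
    intro i j hij
    have h1 := hεC i j hij
    have h2 := hε2 i
    have h3 := hε2 j
    omega
  obtain ⟨U, hU, hτU⟩ := chain S hF ε hcolC τ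
    (fun j n m => hTTne j _ _ (hfl j n) (hfl j m))
    (by
      intro j n m h
      show TT j (fl j (n + 1)) (fl j m) = TT j (fl j n) (fl j m)
      have : fl j (n + 1) = fl j n := by
        show ((n + 1 : ℕ) : ℤ) - (((n + 1 + ε j) % 2 : ℕ) : ℤ) = (n : ℤ) - (((n + ε j) % 2 : ℕ) : ℤ)
        omega
      rw [this])
    (by
      intro j n m h
      show TT j (fl j n) (fl j (m + 1)) = TT j (fl j n) (fl j m)
      have : fl j (m + 1) = fl j m := by
        show ((m + 1 : ℕ) : ℤ) - (((m + 1 + ε j) % 2 : ℕ) : ℤ) = (m : ℤ) - (((m + ε j) % 2 : ℕ) : ℤ)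
        omega
      rw [this])
    (by
      intro j n m hn hm
      have e1 : fl j (n + 1) = (n : ℤ) + 1 := by
        show ((n + 1 : ℕ) : ℤ) - (((n + 1 + ε j) % 2 : ℕ) : ℤ) = _
        omega
      have e2 : fl j n = (n : ℤ) - 1 := by
        show (n : ℤ) - (((n + ε j) % 2 : ℕ) : ℤ) = _
        omega
      have e3 : fl j (m + 1) = (m : ℤ) + 1 := by
        show ((m + 1 : ℕ) : ℤ) - (((m + 1 + ε j) % 2 : ℕ) : ℤ) = _
        omega
      have e4 : fl j m = (m : ℤ) - 1 := by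
        show (m : ℤ) - (((m + ε j) % 2 : ℕ) : ℤ) = _
        omega
      show TT j (fl j (n + 1)) (fl j (m + 1)) * TT j (fl j n) (fl j m) -
        TT j (fl j (n + 1)) (fl j m) * TT j (fl j n) (fl j (m + 1)) =
        ∏ i with C i j = -1, TT i (fl i n) (fl i m)
      rw [e1, e2, e3, e4]
      set c : ℤ := ((m : ℤ) - n) / 2 with hc
      set t : ℤ := ((n : ℤ) + m) / 2 with ht
      have f1 : TT j ((n : ℤ) + 1) ((m : ℤ) + 1) = T ((ρ ^ c : Equiv.Perm I) j) (t + 1) := by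
        show T ((ρ ^ (((m : ℤ) + 1 - ((n : ℤ) + 1)) / 2) : Equiv.Perm I) j)
          (((n : ℤ) + 1 + ((m : ℤ) + 1)) / 2) = _
        have g1 : ((m : ℤ) + 1 - ((n : ℤ) + 1)) / 2 = c := by omega
        have g2 : ((n : ℤ) + 1 + ((m : ℤ) + 1)) / 2 = t + 1 := by omega
        rw [g1, g2]
      have f2 : TT j ((n : ℤ) - 1) ((m : ℤ) - 1) = T ((ρ ^ c : Equiv.Perm I) j) (t - 1) := by
        show T ((ρ ^ (((m : ℤ) - 1 - ((n : ℤ) - 1)) / 2) : Equiv.Perm I) j)
          (((n : ℤ) - 1 + ((m : ℤ) - 1)) / 2) = _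
        have g1 : ((m : ℤ) - 1 - ((n : ℤ) - 1)) / 2 = c := by omega
        have g2 : ((n : ℤ) - 1 + ((m : ℤ) - 1)) / 2 = t - 1 := by omega
        rw [g1, g2]
      have f3 : TT j ((n : ℤ) + 1) ((m : ℤ) - 1) =
          T (ρ.symm ((ρ ^ c : Equiv.Perm I) j)) t := by
        show T ((ρ ^ (((m : ℤ) - 1 - ((n : ℤ) + 1)) / 2) : Equiv.Perm I) j)
          (((n : ℤ) + 1 + ((m : ℤ) - 1)) / 2) = _
        have g1 : ((m : ℤ) - 1 - ((n : ℤ) + 1)) / 2 = -1 + c := by omega
        have g2 : ((n : ℤ) + 1 + ((m : ℤ) - 1)) / 2 = t := by omega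
        rw [g1, g2, zpow_add, Equiv.Perm.mul_apply, zpow_neg_one]
        rfl
      have f4 : TT j ((n : ℤ) - 1) ((m : ℤ) + 1) =
          T (ρ ((ρ ^ c : Equiv.Perm I) j)) t := by
        show T ((ρ ^ (((m : ℤ) + 1 - ((n : ℤ) - 1)) / 2) : Equiv.Perm I) j)
          (((n : ℤ) - 1 + ((m : ℤ) + 1)) / 2) = _
        have g1 : ((m : ℤ) + 1 - ((n : ℤ) - 1)) / 2 = 1 + c := by omega
        have g2 : ((n : ℤ) - 1 + ((m : ℤ) + 1)) / 2 = t := by omega
        rw [g1, g2, zpow_add, Equiv.Perm.mul_apply, zpow_one]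
      rw [f1, f2, f3, f4, hT]
      · have f5 : ∏ k with C k ((ρ ^ c : Equiv.Perm I) j) = -1, T k t =
            ∏ i with C i j = -1, TT i (fl i n) (fl i m) := by
          symm
          refine Finset.prod_bij (fun i _ => (ρ ^ c : Equiv.Perm I) i) ?_ ?_ ?_ ?_
          · intro i hi
            simp only [Finset.mem_filter, Finset.mem_univ, true_and] at hi ⊢
            rw [hρz, hi]
          · intro i _ i' _ h
            exact (Equiv.injective _) h
          · intro k hk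
            simp only [Finset.mem_filter, Finset.mem_univ, true_and] at hk
            refine ⟨(ρ ^ c : Equiv.Perm I).symm k, ?_, by simp⟩
            simp only [Finset.mem_filter, Finset.mem_univ, true_and]
            rw [← hρz c]
            simpa using hk
          · intro i hi
            simp only [Finset.mem_filter, Finset.mem_univ, true_and] at hi
            have h5 := hcolC i j hi
            have g1 : fl i n = n := by
              show (n : ℤ) - (((n + ε i) % 2 : ℕ) : ℤ) = _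
              omega
            have g2 : fl i m = m := by
              show (m : ℤ) - (((m + ε i) % 2 : ℕ) : ℤ) = _
              omega
            rw [g1, g2]
        rw [f5]
        ring
      · have h3 := hεz c j
        rw [Int.even_iff] at h3
        rw [Int.odd_iff]
        omega)
  -- the kernel
  set p := orderOf ρ with hp
  have hp0 : 0 < p := orderOf_pos ρ
  have hpz : ∀ c : ℤ, ρ ^ (c + 2 * (p : ℤ)) = ρ ^ c := by
    intro c
    have h1 : ρ ^ p = 1 := pow_orderOf_eq_one ρ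
    rw [zpow_add, mul_comm (2 : ℤ), zpow_mul, zpow_natCast, h1, one_zpow, mul_one]
  let F : ℕ → ℕ → K := fun b a => TT j ((ε j : ℤ) + 2 * b) ((ε j : ℤ) + 2 * a)
  have hfl' : ∀ b : ℕ, fl j (ε j + 2 * b) = (ε j : ℤ) + 2 * b := by
    intro b
    show ((ε j + 2 * b : ℕ) : ℤ) - (((ε j + 2 * b + ε j) % 2 : ℕ) : ℤ) = _
    omega
  have hFp : ∀ b a, F (b + p) a = F b (a + p) := by
    intro b a
    show T ((ρ ^ (((ε j : ℤ) + 2 * a - ((ε j : ℤ) + 2 * ((b + p : ℕ) : ℤ))) / 2) : Equiv.Perm I) j)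
        (((ε j : ℤ) + 2 * ((b + p : ℕ) : ℤ) + ((ε j : ℤ) + 2 * a)) / 2) =
      T ((ρ ^ (((ε j : ℤ) + 2 * ((a + p : ℕ) : ℤ) - ((ε j : ℤ) + 2 * b)) / 2) : Equiv.Perm I) j)
        (((ε j : ℤ) + 2 * b + ((ε j : ℤ) + 2 * ((a + p : ℕ) : ℤ))) / 2)
    have g1 : ((ε j : ℤ) + 2 * a - ((ε j : ℤ) + 2 * ((b + p : ℕ) : ℤ))) / 2 = (a : ℤ) - b - p := by
      push_cast; omega
    have g2 : ((ε j : ℤ) + 2 * ((a + p : ℕ) : ℤ) - ((ε j : ℤ) + 2 * b)) / 2 =
        ((a : ℤ) - b - p) + 2 * (p : ℤ) := by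
      push_cast; omega
    have g3 : ((ε j : ℤ) + 2 * ((b + p : ℕ) : ℤ) + ((ε j : ℤ) + 2 * a)) / 2 =
        ((ε j : ℤ) + 2 * b + ((ε j : ℤ) + 2 * ((a + p : ℕ) : ℤ))) / 2 := by
      push_cast; omega
    rw [g1, g2, g3, hpz]
  obtain ⟨g, hg, hsum⟩ := diag_monic F p hp0 hFp
    ((U j).map (LinearMap.funLeft K K (fun a : ℕ => ε j + 2 * a))) ((hU j).map _) (by
      intro b
      refine ⟨fun m => τ j (ε j + 2 * b) m, hτU j _, ?_⟩
      funext a
      show TT j (fl j (ε j + 2 * b)) (fl j (ε j + 2 * a)) = F b a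
      rw [hfl', hfl'])
  refine ⟨g, hg, fun a => ?_⟩
  rw [← hsum a]
  refine Finset.sum_congr rfl (fun k _ => ?_)
  congr 1
  show _ = T ((ρ ^ (((ε j : ℤ) + 2 * ((a + k : ℕ) : ℤ) - ((ε j : ℤ) + 2 * ((a + k : ℕ) : ℤ))) / 2) :
    Equiv.Perm I) j) (((ε j : ℤ) + 2 * ((a + k : ℕ) : ℤ) + ((ε j : ℤ) + 2 * ((a + k : ℕ) : ℤ))) / 2)
  rw [sub_self]
  have g1 : ((ε j : ℤ) + 2 * ((a + k : ℕ) : ℤ) + ((ε j : ℤ) + 2 * ((a + k : ℕ) : ℤ))) / 2 =
      (ε j : ℤ) + 2 * ((a : ℤ) + k) := by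
    push_cast; omega
  rw [g1]
  simp

end H60TS
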