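import Pool.Agent.H60.TS.Match
import Pool.Agent.H60.TS.Rho
import Pool.Agent.H60.TS.Graph

/-!
The dart cover of a bigraph with two-regular first graph.
-/

set_option linter.unusedSectionVars false

namespace H60TS
open Finset Matrix

section basic

variable {V : Type} [Fintype V] [DecidableEq V] (Γ Δ : SimpleGraph V) [DecidableRel Γ.Adj]
  [DecidableRel Δ.Adj]

/-- darts -/
abbrev Dt (Γ : SimpleGraph V) : Type := {d : V × V // Γ.Adj d.1 d.2}

variable {Γ}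

lemma exists_oth (hΓ : ∀ v, Γ.degree v = 2) (o v : V) (h : Γ.Adj o v) :
    ∃ w, Γ.Adj o w ∧ w ≠ v ∧ ∀ z, Γ.Adj o z → z = v ∨ z = w := by
  have h1 := hΓ o
  rw [← SimpleGraph.card_neighborFinset_eq_degree, Finset.card_eq_two] at h1
  obtain ⟨x, y, hxy, hs⟩ := h1
  have hmem : ∀ z, Γ.Adj o z ↔ z = x ∨ z = y := by
    intro z
    rw [← SimpleGraph.mem_neighborFinset, hs]
    simp
  rcases (hmem v).mp h with rfl | rfl
  · exact ⟨y, (hmem y).mpr (Or.inr rfl), hxy.symm, fun z hz => (hmem z).mp hz⟩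
  · exact ⟨x, (hmem x).mpr (Or.inl rfl), hxy, fun z hz => ((hmem z).mp hz).symm⟩

variable (hΓ : ∀ v, Γ.degree v = 2)

/-- the other neighbour -/
noncomputable def oth (o v : V) (h : Γ.Adj o v) : V := (exists_oth hΓ o v h).choose

lemma oth_adj (o v : V) (h : Γ.Adj o v) : Γ.Adj o (oth hΓ o v h) :=
  (exists_oth hΓ o v h).choose_spec.1

lemma oth_ne (o v : V) (h : Γ.Adj o v) : oth hΓ o v h ≠ v :=
  (exists_oth hΓ o v h).choose_spec.2.1

lemma oth_cases (o v : V) (h : Γ.Adj o v) (z : V) (hz : Γ.Adj o z) : z = v ∨ z = oth hΓ o v h :=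
  (exists_oth hΓ o v h).choose_spec.2.2 z hz

lemma oth_oth (o v : V) (h : Γ.Adj o v) (h' : Γ.Adj o (oth hΓ o v h)) :
    oth hΓ o (oth hΓ o v h) h' = v := by
  rcases oth_cases hΓ o v h _ (oth_adj hΓ o _ h') with h1 | h1
  · exact h1
  · exact absurd h1 (oth_ne hΓ o _ h')

/-- the shift of darts -/
noncomputable def rhoD : Equiv.Perm (Dt Γ) where
  toFun d := ⟨(d.1.2, oth hΓ d.1.2 d.1.1 d.2.symm), oth_adj hΓ d.1.2 d.1.1 d.2.symm⟩
  invFun d := ⟨(oth hΓ d.1.1 d.1.2 d.2, d.1.1), (oth_adj hΓ d.1.1 d.1.2 d.2).symm⟩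
  left_inv := by
    rintro ⟨⟨v, o⟩, h⟩
    apply Subtype.ext
    exact Prod.ext (oth_oth hΓ o v h.symm (oth_adj hΓ o v h.symm)) rfl
  right_inv := by
    rintro ⟨⟨v, o⟩, h⟩
    apply Subtype.ext
    exact Prod.ext rfl (oth_oth hΓ v o h (oth_adj hΓ v o h))

lemma rhoD_fst (d : Dt Γ) : (rhoD hΓ d).1.1 = d.1.2 := rfl
lemma rhoD_symm_fst (d : Dt Γ) : ((rhoD hΓ).symm d).1.1 = oth hΓ d.1.1 d.1.2 d.2 := rfl

variable (Γ)

/-- the matrix on darts -/
def CD (d d' : Dt Γ) : ℤ :=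
  if d = d' then 2 else if Δ.Adj d.1.1 d'.1.1 ∧ Δ.Adj d.1.2 d'.1.2 then -1 else 0

lemma CD_neg (d d' : Dt Γ) : CD Γ Δ d d' = -1 ↔ Δ.Adj d.1.1 d'.1.1 ∧ Δ.Adj d.1.2 d'.1.2 := by
  rw [CD]
  split_ifs with h1 h2
  · subst h1
    constructor
    · intro h; norm_num at h
    · intro h; exact absurd h.1 (Δ.loopless.irrefl _)
  · exact ⟨fun _ => h2, fun _ => rfl⟩
  · constructor
    · intro h; norm_num at h
    · intro h; exact absurd h h2

lemma CD_slaced : SLaced (CD Γ Δ) where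
  diag d := by rw [CD, if_pos rfl]
  symm d d' := by
    by_cases h : d = d'
    · rw [h]
    · have h' : ¬ d' = d := fun h' => h h'.symm
      rw [CD, CD, if_neg h, if_neg h']
      by_cases h2 : Δ.Adj d.1.1 d'.1.1 ∧ Δ.Adj d.1.2 d'.1.2
      · rw [if_pos h2, if_pos ⟨h2.1.symm, h2.2.symm⟩]
      · rw [if_neg h2, if_neg (fun h3 => h2 ⟨h3.1.symm, h3.2.symm⟩)]
  off d d' h := by
    rw [CD, if_neg h]
    split_ifs
    · right; rfl
    · left; rfl

variable {Γ}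
variable (hcomm : Commute (Γ.adjMatrix ℝ) (Δ.adjMatrix ℝ))
  (hΔ : ((2 : ℝ) • (1 : Matrix V V ℝ) - Δ.adjMatrix ℝ).PosDef)
include hcomm hΔ

/-- the other neighbours are matched -/
lemma oth_match (a b a' b' : V) (h1 : Γ.Adj a b) (h2 : Γ.Adj a' b') (h3 : Δ.Adj a a')
    (h4 : Δ.Adj b b') : Δ.Adj (oth hΓ a b h1) (oth hΓ a' b' h2) := by
  obtain ⟨z, hz1, hz2⟩ := match_exists Γ Δ hcomm a a' (oth hΓ a b h1) h3 (oth_adj hΓ a b h1)
  rcases oth_cases hΓ a' b' h2 z hz1 with h | h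
  · exfalso
    rw [h] at hz2
    exact oth_ne hΓ a b h1 (match_unique Γ Δ hcomm hΓ hΔ a b' (oth hΓ a b h1) b
      (oth_adj hΓ a b h1) h1 hz2 h4)
  · rw [← h]; exact hz2

lemma CD_rho (d d' : Dt Γ) : CD Γ Δ (rhoD hΓ d) (rhoD hΓ d') = CD Γ Δ d d' := by
  have key : ∀ d d' : Dt Γ, CD Γ Δ d d' = -1 → CD Γ Δ (rhoD hΓ d) (rhoD hΓ d') = -1 := by
    intro d d' h
    rw [CD_neg] at h ⊢
    exact ⟨h.2, oth_match Δ hΓ hcomm hΔ _ _ _ _ d.2.symm d'.2.symm h.2 h.1⟩
  have key' : ∀ d d' : Dt Γ, CD Γ Δ d d' = -1 →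
      CD Γ Δ ((rhoD hΓ).symm d) ((rhoD hΓ).symm d') = -1 := by
    intro d d' h
    rw [CD_neg] at h ⊢
    exact ⟨oth_match Δ hΓ hcomm hΔ _ _ _ _ d.2 d'.2 h.1 h.2, h.1⟩
  by_cases hdd : d = d'
  · subst hdd
    rw [(CD_slaced Γ Δ).diag, (CD_slaced Γ Δ).diag]
  · have hne : rhoD hΓ d ≠ rhoD hΓ d' := fun h => hdd ((rhoD hΓ).injective h)
    rcases (CD_slaced Γ Δ).off d d' hdd with h | h
    · rcases (CD_slaced Γ Δ).off _ _ hne with h' | h'
      · rw [h, h']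
      · exfalso
        have := key' _ _ h'
        rw [Equiv.symm_apply_apply, Equiv.symm_apply_apply] at this
        omega
    · rw [h, key d d' h]

include hΓ

/-- sum over pairs of darts over two vertices -/
lemma pair_bound (b : Dt Γ → ℝ) (v w : V) :
    ∑ d with d.1.1 = v, ∑ d' with d'.1.1 = w, (if CD Γ Δ d d' = -1 then b d * b d' else 0) ≤
      (Δ.adjMatrix ℝ) v w * (Real.sqrt (∑ d with d.1.1 = v, b d ^ 2) *
        Real.sqrt (∑ d with d.1.1 = w, b d ^ 2)) := by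
  rw [SimpleGraph.adjMatrix_apply]
  by_cases hvw : Δ.Adj v w
  · rw [if_pos hvw, one_mul]
    set s : Finset (Dt Γ × Dt Γ) :=
      ((Finset.univ.filter (fun d : Dt Γ => d.1.1 = v)) ×ˢ
        (Finset.univ.filter (fun d : Dt Γ => d.1.1 = w))).filter
          (fun p => CD Γ Δ p.1 p.2 = -1) with hs
    have h1 : ∑ d with d.1.1 = v, ∑ d' with d'.1.1 = w,
        (if CD Γ Δ d d' = -1 then b d * b d' else 0) = ∑ p ∈ s, b p.1 * b p.2 := by
      symm
      rw [hs, Finset.sum_filter, Finset.sum_product]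
    rw [h1]
    have hmem : ∀ p, p ∈ s ↔ (p.1.1.1 = v ∧ p.2.1.1 = w) ∧ CD Γ Δ p.1 p.2 = -1 := by
      intro p
      simp [hs]
    have h2 : ∑ p ∈ s, b p.1 ^ 2 ≤ ∑ d with d.1.1 = v, b d ^ 2 := by
      have hinj : ∀ p ∈ s, ∀ q ∈ s, p.1 = q.1 → p = q := by
        intro p hp q hq hpq
        rw [hmem] at hp hq
        obtain ⟨⟨hp1, hp2⟩, hp3⟩ := hp
        obtain ⟨⟨hq1, hq2⟩, hq3⟩ := hq
        rw [CD_neg] at hp3 hq3
        refine Prod.ext hpq (Subtype.ext (Prod.ext (hp2.trans hq2.symm) ?_))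
        rw [← hpq] at hq3
        refine match_unique Γ Δ hcomm hΓ hΔ w p.1.1.2 p.2.1.2 q.2.1.2 ?_ ?_ hp3.2.symm hq3.2.symm
        · have := p.2.2; rwa [hp2] at this
        · have := q.2.2; rwa [hq2] at this
      have h3 : ∑ p ∈ s, b p.1 ^ 2 = ∑ d ∈ s.image Prod.fst, b d ^ 2 := by
        rw [Finset.sum_image hinj]
      rw [h3]
      refine Finset.sum_le_sum_of_subset_of_nonneg ?_ (fun _ _ _ => sq_nonneg _)
      intro d hd
      rw [Finset.mem_image] at hd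
      obtain ⟨p, hp, rfl⟩ := hd
      rw [hmem] at hp
      rw [Finset.mem_filter]
      exact ⟨Finset.mem_univ _, hp.1.1⟩
    have h2' : ∑ p ∈ s, b p.2 ^ 2 ≤ ∑ d with d.1.1 = w, b d ^ 2 := by
      have hinj : ∀ p ∈ s, ∀ q ∈ s, p.2 = q.2 → p = q := by
        intro p hp q hq hpq
        rw [hmem] at hp hq
        obtain ⟨⟨hp1, hp2⟩, hp3⟩ := hp
        obtain ⟨⟨hq1, hq2⟩, hq3⟩ := hq
        rw [CD_neg] at hp3 hq3
        refine Prod.ext (Subtype.ext (Prod.ext (hp1.trans hq1.symm) ?_)) hpq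
        rw [← hpq] at hq3
        refine match_unique Γ Δ hcomm hΓ hΔ v p.2.1.2 p.1.1.2 q.1.1.2 ?_ ?_ hp3.2 hq3.2
        · have := p.1.2; rwa [hp1] at this
        · have := q.1.2; rwa [hq1] at this
      have h3 : ∑ p ∈ s, b p.2 ^ 2 = ∑ d ∈ s.image Prod.snd, b d ^ 2 := by
        rw [Finset.sum_image hinj]
      rw [h3]
      refine Finset.sum_le_sum_of_subset_of_nonneg ?_ (fun _ _ _ => sq_nonneg _)
      intro d hd
      rw [Finset.mem_image] at hd
      obtain ⟨p, hp, rfl⟩ := hd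
      rw [hmem] at hp
      rw [Finset.mem_filter]
      exact ⟨Finset.mem_univ _, hp.1.2⟩
    refine le_trans (Real.sum_mul_le_sqrt_mul_sqrt s (fun p => b p.1) (fun p => b p.2)) ?_
    exact mul_le_mul (Real.sqrt_le_sqrt h2) (Real.sqrt_le_sqrt h2') (Real.sqrt_nonneg _)
      (Real.sqrt_nonneg _)
  · rw [if_neg hvw, zero_mul]
    refine le_of_eq (Finset.sum_eq_zero (fun d hd => Finset.sum_eq_zero (fun d' hd' => ?_)))
    rw [Finset.mem_filter] at hd hd'
    rw [if_neg]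
    intro h
    rw [CD_neg, hd.2, hd'.2] at h
    exact hvw h.1

theorem CD_finT : FinT (CD Γ Δ) := by
  obtain ⟨c, hc, hlow⟩ := posdef_lower _ hΔ
  -- lower bound of the quadratic form on darts
  have key : ∀ b : Dt Γ → ℝ, c * ∑ d, b d ^ 2 ≤ ∑ d, b d * ∑ d', (CD Γ Δ d d' : ℝ) * b d' := by
    intro b
    set a : V → ℝ := fun v => Real.sqrt (∑ d : Dt Γ with d.1.1 = v, b d ^ 2) with ha
    have ha2 : ∑ v, a v ^ 2 = ∑ d, b d ^ 2 := by
      rw [← Finset.sum_fiberwise (Finset.univ : Finset (Dt Γ)) (fun d => d.1.1) (fun d => b d ^ 2)]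
      refine Finset.sum_congr rfl (fun v _ => ?_)
      exact Real.sq_sqrt (Finset.sum_nonneg (fun d _ => sq_nonneg _))
    have h1 : ∑ d, b d * ∑ d', (CD Γ Δ d d' : ℝ) * b d' =
        2 * ∑ d, b d ^ 2 - ∑ d, ∑ d', (if CD Γ Δ d d' = -1 then b d * b d' else 0) := by
      rw [Finset.mul_sum, ← Finset.sum_sub_distrib]
      refine Finset.sum_congr rfl (fun d _ => ?_)
      have h2 : ∀ d', (CD Γ Δ d d' : ℝ) * b d' =
          (if d' = d then 2 * b d else 0) - (if CD Γ Δ d d' = -1 then b d' else 0) := by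
        intro d'
        by_cases hdd : d' = d
        · subst hdd
          rw [(CD_slaced Γ Δ).diag, if_pos rfl, if_neg (by norm_num)]
          norm_num
        · rw [if_neg hdd]
          rcases (CD_slaced Γ Δ).off d d' (fun h => hdd h.symm) with h | h
          · rw [h, if_neg (by norm_num)]; simp
          · rw [h, if_pos rfl]; simp
      simp only [h2, Finset.sum_sub_distrib, Finset.sum_ite_eq', Finset.mem_univ, if_true]
      rw [mul_sub, Finset.mul_sum]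
      congr 1
      · ring
      · refine Finset.sum_congr rfl (fun d' _ => ?_)
        split_ifs <;> simp
    have h3 : ∑ d : Dt Γ, ∑ d' : Dt Γ, (if CD Γ Δ d d' = -1 then b d * b d' else 0) ≤
        ∑ v, ∑ w, (Δ.adjMatrix ℝ) v w * (a v * a w) := by
      rw [← Finset.sum_fiberwise (Finset.univ : Finset (Dt Γ)) (fun d => d.1.1)]
      refine Finset.sum_le_sum (fun v _ => ?_)
      have h4 : ∀ d : Dt Γ, ∑ d' : Dt Γ, (if CD Γ Δ d d' = -1 then b d * b d' else 0) =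
          ∑ w, ∑ d' : Dt Γ with d'.1.1 = w, (if CD Γ Δ d d' = -1 then b d * b d' else 0) := by
        intro d
        rw [Finset.sum_fiberwise (Finset.univ : Finset (Dt Γ)) (fun d => d.1.1)]
      simp only [h4]
      rw [Finset.sum_comm]
      exact Finset.sum_le_sum (fun w _ => pair_bound Δ hΓ hcomm hΔ b v w)
    have h5 := hlow a
    have h6 : a ⬝ᵥ (((2 : ℝ) • (1 : Matrix V V ℝ) - Δ.adjMatrix ℝ) *ᵥ a) =
        2 * ∑ v, a v ^ 2 - ∑ v, ∑ w, (Δ.adjMatrix ℝ) v w * (a v * a w) := by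
      rw [Matrix.sub_mulVec, dotProduct_sub, Matrix.smul_mulVec, Matrix.one_mulVec,
        dotProduct_smul, smul_eq_mul]
      congr 1
      · simp only [dotProduct]
        congr 1
        exact Finset.sum_congr rfl (fun v _ => by ring)
      · simp only [dotProduct, Matrix.mulVec]
        refine Finset.sum_congr rfl (fun v _ => ?_)
        rw [Finset.mul_sum]
        exact Finset.sum_congr rfl (fun w _ => by ring)
    rw [h6, ha2] at h5
    rw [h1]
    linarith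
  intro ν hν
  obtain ⟨B, hB⟩ := exists_nat_ge (4 / c ^ 2 * ∑ d, (ν d : ℝ) ^ 2)
  refine ⟨B, fun β hβ hq => ?_⟩
  have h1 := key (fun d => (β d : ℝ))
  have h2 : (qf (CD Γ Δ) ν β : ℝ) ≤ 0 := by exact_mod_cast hq
  rw [qf] at h2
  push_cast at h2
  have h3 : 2 * ∑ d, (ν d : ℝ) * β d ≤ c / 2 * ∑ d, (β d : ℝ) ^ 2 + 2 / c * ∑ d, (ν d : ℝ) ^ 2 := by
    rw [Finset.mul_sum, Finset.mul_sum, Finset.mul_sum, ← Finset.sum_add_distrib]
    refine Finset.sum_le_sum (fun d _ => ?_)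
    have h4 : 0 ≤ c / 2 * ((β d : ℝ) - 2 / c * ν d) ^ 2 := by positivity
    have h5 : c / 2 * ((β d : ℝ) - 2 / c * ν d) ^ 2 =
        c / 2 * (β d : ℝ) ^ 2 + 2 / c * (ν d : ℝ) ^ 2 - 2 * ((ν d : ℝ) * β d) := by
      field_simp
      ring
    linarith
  have h6 : ∑ d, (β d : ℝ) ^ 2 ≤ 4 / c ^ 2 * ∑ d, (ν d : ℝ) ^ 2 := by
    have h7 : c / 2 * ∑ d, (β d : ℝ) ^ 2 ≤ 2 / c * ∑ d, (ν d : ℝ) ^ 2 := by linarith
    have h8 : ∑ d, (β d : ℝ) ^ 2 = 2 / c * (c / 2 * ∑ d, (β d : ℝ) ^ 2) := by field_simp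
    have h9 : 4 / c ^ 2 * ∑ d, (ν d : ℝ) ^ 2 = 2 / c * (2 / c * ∑ d, (ν d : ℝ) ^ 2) := by
      field_simp
      ring
    rw [h8, h9]
    exact mul_le_mul_of_nonneg_left h7 (by positivity)
  have h10 : (∑ d, (β d : ℝ)) ≤ ∑ d, (β d : ℝ) ^ 2 := by
    refine Finset.sum_le_sum (fun d _ => ?_)
    have h11 := hβ d
    have h12 : β d ≤ β d ^ 2 := by nlinarith
    exact_mod_cast h12
  have h13 : (∑ d, (β d : ℝ)) ≤ B := le_trans h10 (le_trans h6 hB)
  exact_mod_cast h13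

end basic

section main

variable {V : Type} [Fintype V] [DecidableEq V] (Γ Δ : SimpleGraph V) [DecidableRel Γ.Adj]
  [DecidableRel Δ.Adj] (ε : V → Fin 2)
  (hε : ∀ u v, (Γ.Adj u v ∨ Δ.Adj u v) → ε u ≠ ε v)
  (hcomm : Commute (Γ.adjMatrix ℝ) (Δ.adjMatrix ℝ)) (hΓ : ∀ v, Γ.degree v = 2)
  (hΔ : ((2 : ℝ) • (1 : Matrix V V ℝ) - Δ.adjMatrix ℝ).PosDef)
include hε hcomm hΓ hΔ

theorem monic_of_cycles (T : V → ℤ → FF V) (hT : IsTSystem Γ Δ ε T)
    (hne : ∀ u k, T u (((ε u : ℕ) : ℤ) + 2 * k) ≠ 0) (v : V) :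
    ∃ g : Polynomial (FF V), g.Monic ∧ ∀ a : ℕ, ∑ k ∈ Finset.range (g.natDegree + 1),
      g.coeff k * T v (((ε v : ℕ) : ℤ) + 2 * ((a : ℤ) + k)) = 0 := by
  classical
  obtain ⟨o, ho⟩ : ∃ o, Γ.Adj v o := by
    have h1 := hΓ v
    rw [← SimpleGraph.card_neighborFinset_eq_degree] at h1
    have h2 : (Γ.neighborFinset v).Nonempty := by
      rw [← Finset.card_pos, h1]; norm_num
    obtain ⟨o, ho⟩ := h2
    exact ⟨o, by rwa [SimpleGraph.mem_neighborFinset] at ho⟩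
  have hεne : ∀ u w, (Γ.Adj u w ∨ Δ.Adj u w) → (ε u : ℕ) ≠ (ε w : ℕ) := by
    intro u w h h'
    exact hε u w h (Fin.ext h')
  exact rho_monic (CD Γ Δ) (CD_slaced Γ Δ) (CD_finT Δ hΓ hcomm hΔ) (rhoD hΓ)
    (CD_rho Δ hΓ hcomm hΔ) (fun d => (ε d.1.1 : ℕ)) (fun d => (ε d.1.1).2)
    (by
      intro d
      rw [rhoD_fst]
      exact hεne _ _ (Or.inl d.2.symm))
    (by
      intro d d' h
      rw [CD_neg] at h
      exact hεne _ _ (Or.inr h.1))
    (fun d t => T d.1.1 t)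
    (by
      intro d t ht
      have h1 : t = ((ε d.1.1 : ℕ) : ℤ) + 2 * ((t - ((ε d.1.1 : ℕ) : ℤ)) / 2) := by
        rw [Int.even_iff] at ht
        omega
      rw [h1]
      exact hne _ _)
    (by
      intro d t ht
      rw [hT.2 d.1.1 t ht, rhoD_fst, rhoD_symm_fst]
      congr 1
      · rw [← Finset.prod_pair (oth_ne hΓ d.1.1 d.1.2 d.2).symm (f := fun u => T u t)]
        refine Finset.prod_congr ?_ (fun _ _ => rfl)
        ext z
        simp only [Finset.mem_filter, Finset.mem_univ, true_and, Finset.mem_insert,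
          Finset.mem_singleton]
        constructor
        · exact oth_cases hΓ d.1.1 d.1.2 d.2 z
        · rintro (rfl | rfl)
          · exact d.2
          · exact oth_adj hΓ _ _ _
      · symm
        refine Finset.prod_bij (fun (k : Dt Γ) _ => k.1.1) ?_ ?_ ?_ ?_
        · intro k hk
          simp only [Finset.mem_filter, Finset.mem_univ, true_and] at hk ⊢
          rw [CD_neg] at hk
          exact hk.1.symm
        · intro k hk k' hk' hkk
          simp only [Finset.mem_filter, Finset.mem_univ, true_and] at hk hk'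
          rw [CD_neg] at hk hk'
          refine Subtype.ext (Prod.ext hkk ?_)
          refine match_unique Γ Δ hcomm hΓ hΔ k.1.1 d.1.2 k.1.2 k'.1.2 k.2 ?_ hk.2 hk'.2
          have h3 := k'.2
          have h4 : k'.1.1 = k.1.1 := hkk.symm
          rwa [h4] at h3
        · intro w hw
          simp only [Finset.mem_filter, Finset.mem_univ, true_and] at hw
          obtain ⟨o', h3, h4⟩ := match_exists Γ Δ hcomm d.1.1 w d.1.2 hw d.2
          refine ⟨⟨(w, o'), h3⟩, ?_, rfl⟩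
          simp only [Finset.mem_filter, Finset.mem_univ, true_and]
          rw [CD_neg]
          exact ⟨hw.symm, h4.symm⟩
        · intro k _
          rfl)
    ⟨(v, o), ho⟩

theorem Q1At_of_cycles (v : V) : Q1At Γ Δ ε v := by
  apply Q1At_of_rec Γ Δ ε hε v
  intro T hT hne
  obtain ⟨g, hg, hsum⟩ := monic_of_cycles Γ Δ ε hε hcomm hΓ hΔ T hT hne v
  have hU := T_unique Γ Δ ε hε T hT
  refine half_line (sig Γ Δ ε hε : FF V ≃+* FF V) _ ?_ g hg hsum
  intro r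
  show T v (((ε v : ℕ) : ℤ) + 2 * (r + 1)) = sig Γ Δ ε hε (T v (((ε v : ℕ) : ℤ) + 2 * r))
  rw [hU, hU, add_comm r 1, _root_.zpow_one_add]
  rfl

end main

end H60TS
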