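import Mathlib

/-!
Determinants of kernels: pivoting and the Desnanot-Jacobi identity when the interior minor is
nonzero.
-/

namespace H60TS

variable {K : Type*} [Field K] {E : Type*}

/-- determinant of the kernel on the first n rows and columns of two sequences -/
noncomputable def DM (Φ : E → E → K) (n : ℕ) (r c : ℕ → E) : K :=
  Matrix.det (Matrix.of fun i j : Fin n => Φ (r i) (c j))

@[simp] lemma DM_zero (Φ : E → E → K) (r c : ℕ → E) : DM Φ 0 r c = 1 := by
  simp [DM]

@[simp] lemma DM_one (Φ : E → E → K) (r c : ℕ → E) : DM Φ 1 r c = Φ (r 0) (c 0) := by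
  simp [DM]

lemma DM_pivot (Φ Φ' : E → E → K) (n : ℕ) (r c : ℕ → E) (hp : Φ (r 0) (c 0) ≠ 0)
    (h : ∀ u v, Φ' u v = Φ u v - Φ u (c 0) * Φ (r 0) v / Φ (r 0) (c 0)) :
    DM Φ (n + 1) r c = Φ (r 0) (c 0) * DM Φ' n (fun i => r (i + 1)) (fun i => c (i + 1)) := by
  set B : Matrix (Fin (n + 1)) (Fin (n + 1)) K := Matrix.of fun i j =>
    if i = 0 then Φ (r 0) (c j) else Φ' (r i) (c j) with hB
  have h1 : DM Φ (n + 1) r c = B.det := by
    rw [DM]
    refine Matrix.det_eq_of_forall_row_eq_smul_add_const
      (fun i : Fin (n + 1) => if i = 0 then 0 else Φ (r i) (c 0) / Φ (r 0) (c 0)) 0 (by simp) ?_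
    intro i j
    simp only [Matrix.of_apply, hB]
    by_cases hi : i = 0
    · subst hi; simp
    · simp only [hi, if_false, if_true]
      rw [h]
      field_simp
      simp
  rw [h1, Matrix.det_succ_column_zero, Fin.sum_univ_succ, Finset.sum_eq_zero]
  · simp only [Fin.val_zero, pow_zero, one_mul, add_zero, hB, Matrix.of_apply, if_true]
    congr 1
  · intro i _
    have : B i.succ 0 = 0 := by
      simp only [hB, Matrix.of_apply, Fin.succ_ne_zero, if_false, Fin.val_zero]
      rw [h]
      field_simp
      ring
    rw [this]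
    ring

lemma DM_swap (Φ : E → E → K) (n : ℕ) (x : E) (y c : ℕ → E) :
    DM Φ (n + 2) (fun i => Nat.casesOn i x y) c =
      - DM Φ (n + 2) (fun i => Nat.casesOn i (y 0) (fun i => Nat.casesOn i x (fun k => y (k + 1)))) c := by
  rw [DM, DM]
  have := Matrix.det_permute (Equiv.swap (0 : Fin (n + 2)) 1)
    (Matrix.of fun i j : Fin (n + 2) => Φ (Nat.casesOn (motive := fun _ => E) (i : ℕ) (y 0)
      (fun i => Nat.casesOn i x (fun k => y (k + 1)))) (c j))
  rw [Equiv.Perm.sign_swap (by simp)] at this
  simp only [Units.val_neg, Units.val_one, Int.cast_neg, Int.cast_one, neg_mul, one_mul] at this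
  rw [← this]
  congr 1
  ext i j
  simp only [Matrix.of_apply, Matrix.submatrix_apply, id]
  rcases i with ⟨i, hi⟩
  rcases i with _ | _ | i
  · have : (Equiv.swap (0 : Fin (n + 2)) 1) ⟨0, hi⟩ = 1 := by
      have : (⟨0, hi⟩ : Fin (n + 2)) = 0 := rfl
      rw [this, Equiv.swap_apply_left]
    rw [this]
    rfl
  · have : (Equiv.swap (0 : Fin (n + 2)) 1) ⟨0 + 1, hi⟩ = 0 := by
      have : (⟨0 + 1, hi⟩ : Fin (n + 2)) = 1 := rfl
      rw [this, Equiv.swap_apply_right]
    rw [this]
    rfl
  · have : (Equiv.swap (0 : Fin (n + 2)) 1) ⟨i + 1 + 1, hi⟩ = ⟨i + 1 + 1, hi⟩ := by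
      apply Equiv.swap_apply_of_ne_of_ne
      · simp [Fin.ext_iff]
      · simp [Fin.ext_iff]
    rw [this]

/-- the determinant through the interior block: unequal reindexings of rows and columns -/
lemma det_submatrix_two {m n : Type*} [Fintype m] [DecidableEq m] [Fintype n] [DecidableEq n]
    (e f : m ≃ n) (A : Matrix n n K) :
    (A.submatrix e f).det = ((Equiv.Perm.sign (e.symm.trans f) : ℤ) : K) * A.det := by
  have h : A.submatrix e f = (A.submatrix id (e.symm.trans f)).submatrix e e := by
    ext i j
    simp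
  rw [h, Matrix.det_submatrix_equiv_self, Matrix.det_permute']

/-- reindexing: interior and the two ends -/
noncomputable def eMid (n : ℕ) : Fin n ⊕ Fin 2 ≃ Fin (n + 2) :=
  Equiv.ofBijective (Sum.elim (fun i => i.castSucc.succ) (fun k => if k = 0 then 0 else Fin.last _))
    (by
      rw [Fintype.bijective_iff_injective_and_card]
      refine ⟨?_, by simp⟩
      intro a b hab
      rcases a with a | a <;> rcases b with b | b
      · have := congrArg Fin.val hab
        simp only [Sum.elim_inl, Fin.val_succ, Fin.val_castSucc] at this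
        congr 1
        ext
        omega
      · exfalso
        have ha := a.2
        have := congrArg Fin.val hab
        by_cases hb : b = 0
        · simp [hb] at this
        · simp only [Sum.elim_inl, Sum.elim_inr, Fin.val_succ, Fin.val_castSucc, hb,
            if_false, Fin.val_last] at this
          omega
      · exfalso
        have hb := b.2
        have := congrArg Fin.val hab
        by_cases ha : a = 0
        · simp [ha] at this
        · simp only [Sum.elim_inl, Sum.elim_inr, Fin.val_succ, Fin.val_castSucc, ha,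
            if_false, Fin.val_last] at this
          omega
      · congr 1
        have := congrArg Fin.val hab
        by_cases ha : a = 0 <;> by_cases hb : b = 0
        · rw [ha, hb]
        · simp [ha, hb] at this
        · simp [ha, hb] at this
        · omega)

/-- reindexing: interior and the first index -/
noncomputable def eFst (n : ℕ) : Fin n ⊕ Unit ≃ Fin (n + 1) :=
  Equiv.ofBijective (Sum.elim (fun i => i.succ) (fun _ => 0))
    (by
      rw [Fintype.bijective_iff_injective_and_card]
      refine ⟨?_, by simp⟩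
      intro a b hab
      rcases a with a | a <;> rcases b with b | b
      · simpa using hab
      · exact absurd hab (Fin.succ_ne_zero _)
      · exact absurd hab.symm (Fin.succ_ne_zero _)
      · rfl)

/-- reindexing: interior and the last index -/
noncomputable def eLst (n : ℕ) : Fin n ⊕ Unit ≃ Fin (n + 1) :=
  Equiv.ofBijective (Sum.elim (fun i => i.castSucc) (fun _ => Fin.last _))
    (by
      rw [Fintype.bijective_iff_injective_and_card]
      refine ⟨?_, by simp⟩
      intro a b hab
      rcases a with a | a <;> rcases b with b | b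
      · simpa using hab
      · exact absurd hab (Fin.castSucc_ne_last _)
      · exact absurd hab.symm (Fin.castSucc_ne_last _)
      · rfl)

@[simp] lemma eMid_inl (n : ℕ) (i : Fin n) : eMid n (Sum.inl i) = i.castSucc.succ := rfl
@[simp] lemma eMid_inr0 (n : ℕ) : eMid n (Sum.inr 0) = 0 := rfl
@[simp] lemma eMid_inr1 (n : ℕ) : eMid n (Sum.inr 1) = Fin.last _ := rfl
@[simp] lemma eFst_inl (n : ℕ) (i : Fin n) : eFst n (Sum.inl i) = i.succ := rfl
@[simp] lemma eFst_inr (n : ℕ) (u : Unit) : eFst n (Sum.inr u) = 0 := rfl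
@[simp] lemma eLst_inl (n : ℕ) (i : Fin n) : eLst n (Sum.inl i) = i.castSucc := rfl
@[simp] lemma eLst_inr (n : ℕ) (u : Unit) : eLst n (Sum.inr u) = Fin.last _ := rfl

/-- Desnanot-Jacobi with nonzero interior minor. -/
theorem desnanot (n : ℕ) (M : Matrix (Fin (n + 2)) (Fin (n + 2)) K)
    (hA : (M.submatrix (fun i : Fin n => i.castSucc.succ) (fun i : Fin n => i.castSucc.succ)).det ≠ 0) :
    M.det * (M.submatrix (fun i : Fin n => i.castSucc.succ) (fun i : Fin n => i.castSucc.succ)).det =
      (M.submatrix Fin.castSucc Fin.castSucc).det * (M.submatrix Fin.succ Fin.succ).det -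
      (M.submatrix Fin.castSucc Fin.succ).det * (M.submatrix Fin.succ Fin.castSucc).det := by
  set A := M.submatrix (fun i : Fin n => i.castSucc.succ) (fun i : Fin n => i.castSucc.succ) with hAdef
  have hunit : IsUnit A.det := isUnit_iff_ne_zero.mpr hA
  let _ : Invertible A := Matrix.invertibleOfIsUnitDet A hunit
  -- the Schur complement entries
  let row (i : Fin (n + 2)) : Matrix Unit (Fin n) K := Matrix.of fun _ j => M i j.castSucc.succ
  let col (j : Fin (n + 2)) : Matrix (Fin n) Unit K := Matrix.of fun i _ => M i.castSucc.succ j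
  let S (i j : Fin (n + 2)) : K := M i j - (row i * ⅟A * col j) () ()
  have hM : M.det = A.det * (S 0 0 * S (Fin.last _) (Fin.last _) - S 0 (Fin.last _) * S (Fin.last _) 0) := by
    rw [← Matrix.det_submatrix_equiv_self (eMid n) M]
    have hb : M.submatrix (eMid n) (eMid n) = Matrix.fromBlocks A
        (Matrix.of fun (i : Fin n) (k : Fin 2) => M i.castSucc.succ (eMid n (Sum.inr k)))
        (Matrix.of fun (k : Fin 2) (i : Fin n) => M (eMid n (Sum.inr k)) i.castSucc.succ)
        (Matrix.of fun (k l : Fin 2) => M (eMid n (Sum.inr k)) (eMid n (Sum.inr l))) := by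
      ext i j
      rcases i with i | i <;> rcases j with j | j <;> simp [hAdef]
    rw [hb, Matrix.det_fromBlocks₁₁, Matrix.det_fin_two]
    congr 1
  have h1 : ∀ (i j : Fin (n + 2)) , (Matrix.fromBlocks A (col j) (row i)
      (Matrix.of fun (_ _ : Unit) => M i j)).det = A.det * S i j := by
    intro i j
    rw [Matrix.det_fromBlocks₁₁]
    congr 1
    rw [Matrix.det_unique]
    rfl
  have h00 : (M.submatrix Fin.castSucc Fin.castSucc).det = A.det * S 0 0 := by
    rw [← h1, ← Matrix.det_submatrix_equiv_self (eFst n)]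
    congr 1
    ext i j
    rcases i with i | i <;> rcases j with j | j <;> simp [hAdef, row, col]
  have h11 : (M.submatrix Fin.succ Fin.succ).det = A.det * S (Fin.last _) (Fin.last _) := by
    rw [← h1, ← Matrix.det_submatrix_equiv_self (eLst n)]
    congr 1
    ext i j
    rcases i with i | i <;> rcases j with j | j <;> simp [hAdef, row, col]
  have h01 : ((Equiv.Perm.sign ((eFst n).symm.trans (eLst n)) : ℤ) : K) *
      (M.submatrix Fin.castSucc Fin.succ).det = A.det * S 0 (Fin.last _) := by
    rw [← h1, ← det_submatrix_two]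
    congr 1
    ext i j
    rcases i with i | i <;> rcases j with j | j <;> simp [hAdef, row, col]
  have h10 : ((Equiv.Perm.sign ((eLst n).symm.trans (eFst n)) : ℤ) : K) *
      (M.submatrix Fin.succ Fin.castSucc).det = A.det * S (Fin.last _) 0 := by
    rw [← h1, ← det_submatrix_two]
    congr 1
    ext i j
    rcases i with i | i <;> rcases j with j | j <;> simp [hAdef, row, col]
  have hsign : ((Equiv.Perm.sign ((eLst n).symm.trans (eFst n)) : ℤ) : K) *
      ((Equiv.Perm.sign ((eFst n).symm.trans (eLst n)) : ℤ) : K) = 1 := by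
    rw [← Int.cast_mul, ← Units.val_mul, ← Equiv.Perm.sign_mul]
    have : ((eLst n).symm.trans (eFst n)) * ((eFst n).symm.trans (eLst n)) = 1 := by
      ext i
      simp
    rw [this]
    simp
  have hprod : (M.submatrix Fin.castSucc Fin.succ).det * (M.submatrix Fin.succ Fin.castSucc).det =
      (A.det * S 0 (Fin.last _)) * (A.det * S (Fin.last _) 0) := by
    rw [← h01, ← h10]
    linear_combination (-(M.submatrix Fin.castSucc Fin.succ).det *
      (M.submatrix Fin.succ Fin.castSucc).det) * hsign
  rw [hprod, h00, h11, hM]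
  ring

/-- Desnanot-Jacobi for windows of a kernel. -/
lemma DM_desnanot (Φ : E → E → K) (n : ℕ) (r c : ℕ → E)
    (h : DM Φ n (fun i => r (i + 1)) (fun i => c (i + 1)) ≠ 0) :
    DM Φ (n + 2) r c * DM Φ n (fun i => r (i + 1)) (fun i => c (i + 1)) =
      DM Φ (n + 1) r c * DM Φ (n + 1) (fun i => r (i + 1)) (fun i => c (i + 1)) -
      DM Φ (n + 1) r (fun i => c (i + 1)) * DM Φ (n + 1) (fun i => r (i + 1)) c := by
  have := desnanot n (Matrix.of fun i j : Fin (n + 2) => Φ (r i) (c j))
  simp only [DM] at h ⊢
  have e1 : (Matrix.of fun i j : Fin (n + 2) => Φ (r i) (c j)).submatrix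
      (fun i : Fin n => i.castSucc.succ) (fun i : Fin n => i.castSucc.succ) =
      Matrix.of fun i j : Fin n => Φ (r (i + 1)) (c (j + 1)) := by
    ext i j; simp
  have e2 : (Matrix.of fun i j : Fin (n + 2) => Φ (r i) (c j)).submatrix
      Fin.castSucc Fin.castSucc = Matrix.of fun i j : Fin (n + 1) => Φ (r i) (c j) := by
    ext i j; simp
  have e3 : (Matrix.of fun i j : Fin (n + 2) => Φ (r i) (c j)).submatrix
      Fin.succ Fin.succ = Matrix.of fun i j : Fin (n + 1) => Φ (r (i + 1)) (c (j + 1)) := by
    ext i j; simp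
  have e4 : (Matrix.of fun i j : Fin (n + 2) => Φ (r i) (c j)).submatrix
      Fin.castSucc Fin.succ = Matrix.of fun i j : Fin (n + 1) => Φ (r i) (c (j + 1)) := by
    ext i j; simp
  have e5 : (Matrix.of fun i j : Fin (n + 2) => Φ (r i) (c j)).submatrix
      Fin.succ Fin.castSucc = Matrix.of fun i j : Fin (n + 1) => Φ (r (i + 1)) (c j) := by
    ext i j; simp
  rw [e1, e2, e3, e4, e5] at this
  exact this h

end H60TS
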