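import Pool.Agent.H60.TS.Cmp

/-!
Multiplicativity of the universal matrix coefficients and the quadratic identity.
-/

set_option linter.unusedSectionVars false

namespace H60TS
open Finset
open scoped TensorProduct

variable {I : Type} [DecidableEq I] {K : Type} [Field K]

/-- finiteness of the region where the quadratic function is not positive -/
def FinT [Fintype I] (C : I → I → ℤ) : Prop :=
  ∀ ν : I → ℤ, (∀ i, 0 ≤ ν i) → ∃ B : ℕ, ∀ β : I → ℤ, (∀ i, 0 ≤ β i) → qf C ν β ≤ 0 → ∑ i, β i ≤ B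

/-- fundamental weights -/
def om (j : I) : I → ℤ := Pi.single j 1

lemma om_nonneg (j i : I) : 0 ≤ om j i := by
  rw [om, Pi.single_apply]
  split_ifs <;> norm_num

section

variable [Fintype I] [CharZero K] {C : I → I → ℤ}

lemma LM_nil (S : SLaced C) (hF : FinT C) (ν : I → ℤ) (hν : ∀ i, 0 ≤ ν i) :
    ∃ n : ℕ, (∀ i, (eL C ν i ^ n : LM K C ν →ₗ[K] LM K C ν) = 0) ∧
      ∀ i, (fL C ν i ^ n : LM K C ν →ₗ[K] LM K C ν) = 0 := by
  obtain ⟨B, hB⟩ := hF ν hν
  exact ⟨B + 1, (LM_Irr C ν).e_nil S hν B hB, (LM_Irr C ν).f_nil S hν B hB⟩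

lemma cc_add (S : SLaced C) (hF : FinT C) (ν ν' : I → ℤ) (hν : ∀ i, 0 ≤ ν i)
    (hν' : ∀ i, 0 ≤ ν' i) : ∃ N0 : ℕ, ∀ N ≥ N0, ∀ a : List (Ltr I K),
      cc N C (ν + ν') a = cc N C ν a * cc N C ν' a := by
  obtain ⟨n, he, hf⟩ := LM_nil (K := K) S hF ν hν
  obtain ⟨n', he', hf'⟩ := LM_nil (K := K) S hF ν' hν'
  refine ⟨2 * (n + n'), fun N hN a => ?_⟩
  have h1 : ∀ (X : LM K C ν →ₗ[K] LM K C ν), (X ^ n : LM K C ν →ₗ[K] LM K C ν) = 0 →
      (X ^ (n + n') : LM K C ν →ₗ[K] LM K C ν) = 0 := by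
    intro X hX; rw [pow_add, hX, zero_mul]
  have h2 : ∀ (X : LM K C ν' →ₗ[K] LM K C ν'), (X ^ n' : LM K C ν' →ₗ[K] LM K C ν') = 0 →
      (X ^ (n + n') : LM K C ν' →ₗ[K] LM K C ν') = 0 := by
    intro X hX; rw [pow_add, hX, mul_zero]
  have h3 := wop_tensor N (n + n') hN (fun i => h1 _ (he i)) (fun i => h1 _ (hf i))
    (fun i => h2 _ (he' i)) (fun i => h2 _ (hf' i)) a (vL C ν) (vL C ν')
  have h4 := compare (tp_KM (LM_KM (K := K) C ν) (LM_KM (K := K) C ν'))
    (tp_HWV (LM_HWV (K := K) C ν) (LM_HWV (K := K) C ν')) N a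
  rw [h3, tf_tmul, compare (LM_KM C ν) (LM_HWV C ν), compare (LM_KM C ν') (LM_HWV C ν')] at h4
  exact h4.symm

lemma cc_zero (N : ℕ) (hN : 1 ≤ N) (a : List (Ltr I K)) : cc N C 0 a = 1 := by
  have H : KM C (fun _ : I => (0 : K →ₗ[K] K)) (fun _ => 0) (fun _ => 0) :=
    ⟨by intro i j x; simp, by intro i j x; simp, by intro i j x; simp⟩
  have H' : HWV (0 : I → ℤ) (fun _ : I => (0 : K →ₗ[K] K)) (fun _ => 0) (fun _ => 0) (1 : K)
      LinearMap.id :=
    ⟨by intro i; simp, by intro i; simp, by intro i x; simp, by simp⟩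
  rw [← compare H H']
  have : wop N (fun _ : I => (0 : K →ₗ[K] K)) (fun _ => 0) a (1 : K) = 1 := by
    induction a with
    | nil => rfl
    | cons l a ih =>
      rw [wop_cons, ih, lop_apply]
      obtain ⟨N', rfl⟩ := Nat.exists_eq_add_of_le' hN
      rw [Finset.sum_range_succ']
      simp
  rw [this]
  rfl

lemma cc_sum (S : SLaced C) (hF : FinT C) (s : Finset I) :
    ∃ N0 : ℕ, ∀ N ≥ N0, ∀ a : List (Ltr I K),
      cc N C (∑ i ∈ s, om i) a = ∏ i ∈ s, cc N C (om i) a := by
  induction s using Finset.induction_on with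
  | empty => exact ⟨1, fun N hN a => by rw [Finset.sum_empty, Finset.prod_empty, cc_zero N hN]⟩
  | insert i s hi ih =>
    obtain ⟨N1, h1⟩ := ih
    obtain ⟨N2, h2⟩ := cc_add (K := K) S hF (om i) (∑ i ∈ s, om i) (om_nonneg i) (by
      intro k
      rw [Finset.sum_apply]
      exact Finset.sum_nonneg (fun l _ => om_nonneg l k))
    refine ⟨max N1 N2, fun N hN a => ?_⟩
    rw [Finset.sum_insert hi, Finset.prod_insert hi, h2 N (le_trans (le_max_right _ _) hN),
      h1 N (le_trans (le_max_left _ _) hN)]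

lemma om_sum (S : SLaced C) (j : I) :
    (∑ i with C i j = -1, om i) = fun i => om j i + om j i - C i j := by
  funext k
  rw [Finset.sum_apply]
  simp only [om]
  rw [Finset.sum_pi_single]
  simp only [Finset.mem_filter, Finset.mem_univ, true_and]
  by_cases hkj : k = j
  · subst hkj
    simp [S.diag]
  · rcases S.off k j hkj with h | h
    · simp [h, hkj]
    · simp [h, hkj]

variable {M : Type} [AddCommGroup M] [Module K M] {e f h : I → M →ₗ[K] M} {v : M} {vs : M →ₗ[K] K}
  {j : I}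

namespace Irr

/-- value of e f on the highest weight vector -/
lemma ef_v (H : Irr C (om j) e f h v vs) (k i : I) :
    e k (f i v) = if k = i then (om j k : K) • v else 0 := by
  rw [H.km.ef, H.hw.ev, map_zero, zero_add]
  split_ifs
  · rw [H.hw.hv]
  · rfl

lemma antisym_HWV (H : Irr C (om j) e f h v vs) :
    HWV (fun i => om j i + om j i - C i j) (tp e e) (tp f f) (tp h h)
      (v ⊗ₜ f j v - f j v ⊗ₜ v)
      ((2 : K)⁻¹ • (tf vs (vs ∘ₗ e j) - tf (vs ∘ₗ e j) vs)) where
  ev i := by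
    simp only [map_sub, tp_tmul, H.ef_v, H.hw.ev, TensorProduct.zero_tmul,
      TensorProduct.tmul_zero, zero_add, add_zero]
    split_ifs with hij
    · rw [← TensorProduct.smul_tmul', TensorProduct.tmul_smul, sub_self]
    · simp
  hv i := by
    simp only [map_sub, tp_tmul, H.km.hf, H.hw.hv, map_smul, TensorProduct.tmul_sub,
      TensorProduct.sub_tmul, ← TensorProduct.smul_tmul', TensorProduct.tmul_smul]
    push_cast
    module
  vsf i x := by
    have key : ∀ x : M ⊗[K] M, (tf vs (vs ∘ₗ e j) - tf (vs ∘ₗ e j) vs) (tp f f i x) = 0 := by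
      intro x
      induction x using TensorProduct.induction_on with
      | zero => simp
      | tmul x y =>
        simp only [tp_tmul, map_add, LinearMap.sub_apply, tf_tmul, LinearMap.comp_apply, H.km.ef,
          H.hw.vsf, zero_mul, mul_zero, zero_add]
        split_ifs with hij
        · subst hij
          rw [H.vs_h, H.vs_h]
          ring
        · simp
      | add x y hx hy => rw [map_add, map_add, hx, hy, add_zero]
    rw [LinearMap.smul_apply, key, smul_zero]
  vsv := by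
    simp only [LinearMap.smul_apply, LinearMap.sub_apply, map_sub, tf_tmul, LinearMap.comp_apply,
      H.ef_v, H.hw.ev, H.hw.vsf, H.hw.vsv, if_true, om, Pi.single_eq_same, map_zero]
    norm_num
    rw [H.hw.vsv]
    norm_num

/-- the quadratic identity -/
theorem fz (H : Irr C (om j) e f h v vs) (S : SLaced C) (hF : FinT C) (n : ℕ)
    (he : ∀ i, (e i ^ n : M →ₗ[K] M) = 0) (hf : ∀ i, (f i ^ n : M →ₗ[K] M) = 0) :
    ∃ N0 : ℕ, ∀ N ≥ N0, ∀ a : List (Ltr I K),
      vs (wop N e f a v) * vs (e j (wop N e f a (f j v))) -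
        vs (wop N e f a (f j v)) * vs (e j (wop N e f a v)) =
      ∏ i with C i j = -1, cc N C (om i) a := by
  obtain ⟨N1, h1⟩ := cc_sum (K := K) S hF (Finset.univ.filter (fun i => C i j = -1))
  refine ⟨max N1 (2 * n), fun N hN a => ?_⟩
  have h2 := compare (tp_KM H.km H.km) H.antisym_HWV N a
  rw [← om_sum S j, h1 N (le_trans (le_max_left _ _) hN)] at h2
  rw [← h2, map_sub, wop_tensor N n (le_trans (le_max_right _ _) hN) he hf he hf,
    wop_tensor N n (le_trans (le_max_right _ _) hN) he hf he hf]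
  simp only [LinearMap.smul_apply, LinearMap.sub_apply, map_sub, tf_tmul, LinearMap.comp_apply,
    smul_eq_mul]
  ring

end Irr

end

end H60TS
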