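import Mathlib

/-!
Operators e, f, h attached to a matrix of integers, the universal highest weight module on words,
its comparison with other modules and its irreducible quotient.
-/

set_option linter.unusedSectionVars false

namespace H60TS
open Finset

variable {I : Type} [DecidableEq I] {K : Type} [Field K]

/-- the relations between the operators -/
structure KM (C : I → I → ℤ) {M : Type} [AddCommGroup M] [Module K M]
    (e f h : I → M →ₗ[K] M) : Prop where
  ef : ∀ i j x, e i (f j x) = f j (e i x) + if i = j then h i x else 0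
  hf : ∀ i j x, h i (f j x) = f j (h i x) - (C i j : K) • f j x
  he : ∀ i j x, h i (e j x) = e j (h i x) + (C i j : K) • e j x

/-- a highest weight vector together with a dual lowest weight functional -/
structure HWV (ν : I → ℤ) {M : Type} [AddCommGroup M] [Module K M]
    (e f h : I → M →ₗ[K] M) (v : M) (vs : M →ₗ[K] K) : Prop where
  ev : ∀ i, e i v = 0
  hv : ∀ i, h i v = (ν i : K) • v
  vsf : ∀ i x, vs (f i x) = 0
  vsv : vs v = 1

/-- action of a word -/
def fw {M : Type} (f : I → M → M) (w : List I) (v : M) : M := w.foldr (fun i x => f i x) v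

@[simp] lemma fw_nil {M : Type} (f : I → M → M) (v : M) : fw f [] v = v := rfl
@[simp] lemma fw_cons {M : Type} (f : I → M → M) (i : I) (w : List I) (v : M) :
    fw f (i :: w) v = f i (fw f w v) := rfl

/-- weight of a word -/
def wtc (C : I → I → ℤ) (ν : I → ℤ) (w : List I) (i : I) : ℤ := ν i - (w.map (C i)).sum

@[simp] lemma wtc_nil (C : I → I → ℤ) (ν : I → ℤ) (i : I) : wtc C ν [] i = ν i := by simp [wtc]
lemma wtc_cons (C : I → I → ℤ) (ν : I → ℤ) (j : I) (w : List I) (i : I) :
    wtc C ν (j :: w) i = wtc C ν w i - C i j := by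
  simp only [wtc, List.map_cons, List.sum_cons]; ring

lemma fw_append {M : Type} (f : I → M → M) (w w' : List I) (v : M) :
    fw f (w ++ w') v = fw f w (fw f w' v) := by
  induction w with
  | nil => rfl
  | cons i w ih => rw [List.cons_append, fw_cons, ih, fw_cons]

/-- the action of a word as a linear map -/
def fwL {M : Type} [AddCommGroup M] [Module K M] (f : I → M →ₗ[K] M) (w : List I) : M →ₗ[K] M where
  toFun := fw (fun i => f i) w
  map_add' := by
    intro x y
    induction w with
    | nil => rfl
    | cons i w ih => simp only [fw_cons]; rw [ih, map_add]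
  map_smul' := by
    intro c x
    induction w with
    | nil => rfl
    | cons i w ih => simp only [fw_cons, RingHom.id_apply] at ih ⊢; rw [ih, map_smul]

lemma fwL_apply {M : Type} [AddCommGroup M] [Module K M] (f : I → M →ₗ[K] M) (w : List I) (x : M) :
    fwL f w x = fw (fun i => f i) w x := rfl

section module

variable {C : I → I → ℤ} {M : Type} [AddCommGroup M] [Module K M] {e f h : I → M →ₗ[K] M}

lemma KM.h_fw (H : KM C e f h) {ν : I → ℤ} {v : M} (hv : ∀ i, h i v = (ν i : K) • v) (w : List I)
    (i : I) : h i (fw (fun j => f j) w v) = (wtc C ν w i : K) • fw (fun j => f j) w v := by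
  induction w with
  | nil => simpa using hv i
  | cons j w ih =>
    rw [fw_cons, H.hf, ih, wtc_cons, map_smul]
    push_cast
    rw [sub_smul]

end module

/-! ### the module on words -/

section words

variable (K) in
/-- the space of words -/
abbrev WM (I K : Type) [Field K] : Type := List I →₀ K

lemma WM_ext {M : Type} [AddCommGroup M] [Module K M] {φ ψ : WM I K →ₗ[K] M}
    (h : ∀ w, φ (Finsupp.single w 1) = ψ (Finsupp.single w 1)) : φ = ψ := by
  apply Finsupp.lhom_ext'
  intro w
  apply LinearMap.ext_ring
  exact h w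

variable (C : I → I → ℤ) (ν : I → ℤ)

/-- prepend a letter -/
noncomputable def fF (i : I) : WM I K →ₗ[K] WM I K := Finsupp.lmapDomain K K (List.cons i)

@[simp] lemma fF_single (i : I) (w : List I) (c : K) :
    fF i (Finsupp.single w c) = Finsupp.single (i :: w) c := by
  simp [fF, Finsupp.lmapDomain_apply, Finsupp.mapDomain_single]

/-- the diagonal operator -/
noncomputable def hF (i : I) : WM I K →ₗ[K] WM I K :=
  Finsupp.linearCombination K (fun w => (wtc C ν w i : K) • Finsupp.single w (1 : K))

@[simp] lemma hF_single (i : I) (w : List I) :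
    hF C ν i (Finsupp.single w (1 : K)) = (wtc C ν w i : K) • Finsupp.single w 1 := by
  simp [hF, Finsupp.linearCombination_single]

/-- the value of the raising operator on words -/
noncomputable def eW (i : I) : List I → WM I K
  | [] => 0
  | j :: w => fF j (eW i w) + if i = j then (wtc C ν w i : K) • Finsupp.single w 1 else 0

/-- the raising operator -/
noncomputable def eF (i : I) : WM I K →ₗ[K] WM I K := Finsupp.linearCombination K (eW C ν i)

@[simp] lemma eF_nil (i : I) : eF C ν i (Finsupp.single [] (1 : K)) = 0 := by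
  simp [eF, Finsupp.linearCombination_single, eW]

lemma eF_cons (i j : I) (w : List I) : eF C ν i (Finsupp.single (j :: w) (1 : K)) =
    fF j (eF C ν i (Finsupp.single w 1)) +
      if i = j then (wtc C ν w i : K) • Finsupp.single w 1 else 0 := by
  simp [eF, Finsupp.linearCombination_single, eW]

lemma WM_ef (i j : I) (x : WM I K) :
    eF C ν i (fF j x) = fF j (eF C ν i x) + if i = j then hF C ν i x else 0 := by
  have : (eF C ν i : WM I K →ₗ[K] WM I K) ∘ₗ fF j =
      fF j ∘ₗ eF C ν i + if i = j then hF C ν i else 0 := by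
    apply WM_ext
    intro w
    simp only [LinearMap.comp_apply, LinearMap.add_apply, fF_single, eF_cons]
    split_ifs <;> simp
  have h := LinearMap.congr_fun this x
  simp only [LinearMap.comp_apply, LinearMap.add_apply] at h
  rw [h]
  split_ifs <;> simp

lemma WM_hf (i j : I) (x : WM I K) :
    hF C ν i (fF j x) = fF j (hF C ν i x) - (C i j : K) • fF j x := by
  have : (hF C ν i : WM I K →ₗ[K] WM I K) ∘ₗ fF j =
      fF j ∘ₗ hF C ν i - (C i j : K) • fF j := by
    apply WM_ext
    intro w
    simp only [LinearMap.comp_apply, LinearMap.sub_apply, LinearMap.smul_apply, fF_single,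
      hF_single, wtc_cons, map_smul]
    push_cast
    rw [sub_smul]
  exact LinearMap.congr_fun this x

lemma WM_he (i j : I) (x : WM I K) :
    hF C ν i (eF C ν j x) = eF C ν j (hF C ν i x) + (C i j : K) • eF C ν j x := by
  have : (hF C ν i : WM I K →ₗ[K] WM I K) ∘ₗ eF C ν j =
      eF C ν j ∘ₗ hF C ν i + (C i j : K) • eF C ν j := by
    apply WM_ext
    intro w
    simp only [LinearMap.comp_apply, LinearMap.add_apply, LinearMap.smul_apply]
    induction w with
    | nil => rw [eF_nil, map_zero, hF_single, map_smul, eF_nil]; simp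
    | cons k w ih =>
      have hs : (Finsupp.single (k :: w) (1 : K)) = fF k (Finsupp.single w 1) :=
        (fF_single k w 1).symm
      rw [hs, WM_ef, WM_hf, map_add, WM_hf, ih]
      simp only [map_sub, map_smul, map_add, WM_ef, hF_single]
      split_ifs with hjk
      · subst hjk
        simp only [hF_single, map_smul]
        module
      · simp only [map_zero]
        module
  exact LinearMap.congr_fun this x

lemma WM_KM : KM C (eF C ν : I → WM I K →ₗ[K] WM I K) fF (hF C ν) :=
  ⟨WM_ef C ν, WM_hf C ν, WM_he C ν⟩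

/-- the coefficient of the empty word -/
noncomputable def vsF : WM I K →ₗ[K] K := Finsupp.lapply []

lemma WM_HWV : HWV ν (eF C ν : I → WM I K →ₗ[K] WM I K) fF (hF C ν) (Finsupp.single [] 1) vsF where
  ev i := eF_nil C ν i
  hv i := by rw [hF_single, wtc_nil]
  vsf i x := by
    have : (vsF : WM I K →ₗ[K] K) ∘ₗ fF i = 0 := by
      apply WM_ext
      intro w
      simp [vsF]
    exact LinearMap.congr_fun this x
  vsv := by simp [vsF]

/-! ### comparison -/

variable {C ν}

/-- the comparison map -/
noncomputable def cmpM {M : Type} [AddCommGroup M] [Module K M] (f : I → M →ₗ[K] M) (v : M) :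
    WM I K →ₗ[K] M := Finsupp.linearCombination K (fun w => fw (fun i => f i) w v)

@[simp] lemma cmpM_single {M : Type} [AddCommGroup M] [Module K M] (f : I → M →ₗ[K] M) (v : M)
    (w : List I) : cmpM f v (Finsupp.single w 1) = fw (fun i => f i) w v := by
  simp [cmpM, Finsupp.linearCombination_single]

lemma cmpM_f {M : Type} [AddCommGroup M] [Module K M] (f : I → M →ₗ[K] M) (v : M) (i : I)
    (x : WM I K) : cmpM f v (fF i x) = f i (cmpM f v x) := by
  have : cmpM f v ∘ₗ fF i = f i ∘ₗ cmpM f v := by
    apply WM_ext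
    intro w
    simp
  exact LinearMap.congr_fun this x

lemma cmpM_e {M : Type} [AddCommGroup M] [Module K M] {e f h : I → M →ₗ[K] M}
    (H : KM C e f h) {v : M} (ev : ∀ i, e i v = 0) (hv : ∀ i, h i v = (ν i : K) • v) (i : I)
    (x : WM I K) : cmpM f v (eF C ν i x) = e i (cmpM f v x) := by
  have : cmpM f v ∘ₗ eF C ν i = e i ∘ₗ cmpM f v := by
    apply WM_ext
    intro w
    simp only [LinearMap.comp_apply]
    induction w with
    | nil => rw [eF_nil, map_zero, cmpM_single, fw_nil, ev]
    | cons j w ih =>
      rw [eF_cons, map_add, cmpM_f, ih, cmpM_single, cmpM_single, fw_cons, H.ef]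
      split_ifs with hij
      · rw [map_smul, cmpM_single, H.h_fw hv]
      · rw [map_zero]
  exact LinearMap.congr_fun this x

lemma cmpM_vs {M : Type} [AddCommGroup M] [Module K M] {e f h : I → M →ₗ[K] M} {v : M}
    {vs : M →ₗ[K] K} (H : HWV ν e f h v vs) (x : WM I K) : vs (cmpM f v x) = vsF x := by
  have : vs ∘ₗ cmpM f v = vsF := by
    apply WM_ext
    intro w
    cases w with
    | nil => simp [H.vsv, vsF]
    | cons i w => simp [H.vsf, vsF]
  exact LinearMap.congr_fun this x

/-! ### the irreducible quotient -/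

variable (C ν)

variable (K) in
/-- the radical -/
noncomputable def Rad : Submodule K (WM I K) where
  carrier := {x | ∀ E : List I, vsF (fwL (eF C ν) E x) = 0}
  zero_mem' := by
    intro E
    rw [map_zero, map_zero]
  add_mem' := by
    intro x y hx hy E
    rw [map_add, map_add, hx E, hy E, add_zero]
  smul_mem' := by
    intro c x hx E
    rw [map_smul, map_smul, hx E, smul_zero]

lemma mem_Rad (x : WM I K) : x ∈ Rad K C ν ↔ ∀ E : List I, vsF (fwL (eF C ν) E x) = 0 :=
  Iff.rfl

lemma fwL_append {M : Type} [AddCommGroup M] [Module K M] (f : I → M →ₗ[K] M) (w w' : List I)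
    (x : M) : fwL f (w ++ w') x = fwL f w (fwL f w' x) := fw_append _ w w' x

@[simp] lemma fwL_nil {M : Type} [AddCommGroup M] [Module K M] (f : I → M →ₗ[K] M) (x : M) :
    fwL f [] x = x := rfl

@[simp] lemma fwL_cons {M : Type} [AddCommGroup M] [Module K M] (f : I → M →ₗ[K] M) (i : I)
    (w : List I) (x : M) : fwL f (i :: w) x = f i (fwL f w x) := rfl

lemma Rad_e (i : I) (x : WM I K) (hx : x ∈ Rad K C ν) : eF C ν i x ∈ Rad K C ν := by
  intro E
  have h := hx (E ++ [i])
  rwa [fwL_append] at h

lemma Rad_h (i : I) (x : WM I K) (hx : x ∈ Rad K C ν) : hF C ν i x ∈ Rad K C ν := by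
  intro E
  induction E using List.reverseRecOn generalizing x with
  | nil =>
    have : (vsF : WM I K →ₗ[K] K) ∘ₗ hF C ν i = (ν i : K) • vsF := by
      apply WM_ext
      intro w
      cases w with
      | nil => simp [vsF]
      | cons j w => simp [vsF]
    have h1 := LinearMap.congr_fun this x
    simp only [LinearMap.comp_apply, LinearMap.smul_apply] at h1
    rw [fwL_nil, h1]
    have h2 := hx []
    rw [fwL_nil] at h2
    rw [h2, smul_zero]
  | append_singleton E j ih =>
    rw [fwL_append, fwL_cons, fwL_nil]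
    have h1 : eF C ν j (hF C ν i x) = hF C ν i (eF C ν j x) - (C i j : K) • eF C ν j x := by
      rw [WM_he]; module
    rw [h1, map_sub, map_sub, map_smul, map_smul, ih _ (Rad_e C ν j x hx), Rad_e C ν j x hx E]
    simp

lemma Rad_f (i : I) (x : WM I K) (hx : x ∈ Rad K C ν) : fF i x ∈ Rad K C ν := by
  intro E
  induction E using List.reverseRecOn generalizing x with
  | nil => rw [fwL_nil, (WM_HWV C ν).vsf]
  | append_singleton E j ih =>
    rw [fwL_append, fwL_cons, fwL_nil, WM_ef, map_add, map_add, ih _ (Rad_e C ν j x hx)]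
    split_ifs
    · rw [Rad_h C ν j x hx E, add_zero]
    · simp

/-- the irreducible quotient -/
def LM (K : Type) [Field K] {I : Type} [DecidableEq I] (C : I → I → ℤ) (ν : I → ℤ) : Type :=
  WM I K ⧸ (Rad K C ν)

noncomputable instance : AddCommGroup (LM K C ν) :=
  inferInstanceAs (AddCommGroup (WM I K ⧸ (Rad K C ν)))

noncomputable instance : Module K (LM K C ν) :=
  inferInstanceAs (Module K (WM I K ⧸ (Rad K C ν)))

variable (K) in
/-- the projection -/
noncomputable def prL : WM I K →ₗ[K] LM K C ν := (Rad K C ν).mkQ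

lemma prL_surj (x : LM K C ν) : ∃ y : WM I K, prL K C ν y = x := (Rad K C ν).mkQ_surjective x

lemma prL_eq_zero (x : WM I K) : prL K C ν x = 0 ↔ x ∈ Rad K C ν :=
  Submodule.Quotient.mk_eq_zero (Rad K C ν)

/-- raising operator on the quotient -/
noncomputable def eL (i : I) : LM K C ν →ₗ[K] LM K C ν :=
  (Rad K C ν).mapQ (Rad K C ν) (eF C ν i) (fun x hx => Rad_e C ν i x hx)

/-- lowering operator on the quotient -/
noncomputable def fL (i : I) : LM K C ν →ₗ[K] LM K C ν :=
  (Rad K C ν).mapQ (Rad K C ν) (fF i) (fun x hx => Rad_f C ν i x hx)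

/-- diagonal operator on the quotient -/
noncomputable def hL (i : I) : LM K C ν →ₗ[K] LM K C ν :=
  (Rad K C ν).mapQ (Rad K C ν) (hF C ν i) (fun x hx => Rad_h C ν i x hx)

/-- the functional on the quotient -/
noncomputable def vsL : LM K C ν →ₗ[K] K := (Rad K C ν).liftQ vsF (fun _ hx => hx [])

lemma eL_pr (i : I) (x : WM I K) : eL C ν i (prL K C ν x) = prL K C ν (eF C ν i x) := rfl
lemma fL_pr (i : I) (x : WM I K) : fL C ν i (prL K C ν x) = prL K C ν (fF i x) := rfl
lemma hL_pr (i : I) (x : WM I K) : hL C ν i (prL K C ν x) = prL K C ν (hF C ν i x) := rfl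
lemma vsL_pr (x : WM I K) : vsL C ν (prL K C ν x) = vsF x := rfl

/-- the highest weight vector of the quotient -/
noncomputable def vL : LM K C ν := prL K C ν (Finsupp.single [] 1)

lemma LM_KM : KM C (eL C ν : I → LM K C ν →ₗ[K] LM K C ν) (fL C ν) (hL C ν) where
  ef i j x := by
    obtain ⟨x, rfl⟩ := prL_surj C ν x
    rw [fL_pr, eL_pr, eL_pr, fL_pr, hL_pr, WM_ef, map_add]
    split_ifs
    · rfl
    · rw [map_zero]
  hf i j x := by
    obtain ⟨x, rfl⟩ := prL_surj C ν x
    rw [fL_pr, hL_pr, hL_pr, fL_pr, WM_hf, map_sub, map_smul]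
  he i j x := by
    obtain ⟨x, rfl⟩ := prL_surj C ν x
    rw [eL_pr, hL_pr, hL_pr, eL_pr, WM_he, map_add, map_smul]

lemma LM_HWV : HWV ν (eL C ν : I → LM K C ν →ₗ[K] LM K C ν) (fL C ν) (hL C ν) (vL C ν)
    (vsL C ν) where
  ev i := by rw [vL, eL_pr, eF_nil, map_zero]
  hv i := by rw [vL, hL_pr, hF_single, wtc_nil, map_smul]
  vsf i x := by
    obtain ⟨x, rfl⟩ := prL_surj C ν x
    rw [fL_pr, vsL_pr]
    exact (WM_HWV C ν).vsf i x
  vsv := by
    rw [vL, vsL_pr]
    exact (WM_HWV C ν).vsv

/-- the structure of the irreducible highest weight module -/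
structure Irr (C : I → I → ℤ) (ν : I → ℤ) {M : Type} [AddCommGroup M] [Module K M]
    (e f h : I → M →ₗ[K] M) (v : M) (vs : M →ₗ[K] K) : Prop where
  km : KM C e f h
  hw : HWV ν e f h v vs
  nondeg : ∀ x : M, (∀ E : List I, vs (fwL e E x) = 0) → x = 0
  gen : ∀ S : Submodule K M, v ∈ S → (∀ i, ∀ x ∈ S, f i x ∈ S) → ∀ x, x ∈ S

theorem LM_Irr : Irr C ν (eL C ν : I → LM K C ν →ₗ[K] LM K C ν) (fL C ν) (hL C ν) (vL C ν)
    (vsL C ν) where
  km := LM_KM C ν
  hw := LM_HWV C ν
  nondeg x hx := by
    obtain ⟨x, rfl⟩ := prL_surj C ν x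
    rw [prL_eq_zero]
    intro E
    rw [← hx E]
    have : fwL (eL C ν) E (prL K C ν x) = prL K C ν (fwL (eF C ν) E x) := by
      induction E with
      | nil => rfl
      | cons i E ih => rw [fwL_cons, ih, fwL_cons, eL_pr]
    rw [this, vsL_pr]
  gen S hv hf x := by
    obtain ⟨x, rfl⟩ := prL_surj C ν x
    have hw : ∀ w : List I, prL K C ν (Finsupp.single w (1 : K)) ∈ S := by
      intro w
      induction w with
      | nil => exact hv
      | cons i w ih =>
        have := hf i _ ih
        rwa [fL_pr, fF_single] at this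
    induction x using Finsupp.induction_linear with
    | zero => rw [map_zero]; exact S.zero_mem
    | add x y hx hy => rw [map_add]; exact S.add_mem hx hy
    | single w c =>
      have : Finsupp.single w c = c • Finsupp.single w (1 : K) := by simp
      rw [this, map_smul]
      exact S.smul_mem _ (hw w)

end words

end H60TS
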