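import Pool.Agent.H60.TS.Hw1

/-!
Irreducible highest weight modules for simply laced matrices: Serre relations, local nilpotency,
finite dimension in the positive definite case.
-/

set_option linter.unusedSectionVars false

namespace H60TS
open Finset

variable {I : Type} [DecidableEq I] {K : Type} [Field K]

/-- simply laced matrices -/
structure SLaced (C : I → I → ℤ) : Prop where
  diag : ∀ i, C i i = 2
  symm : ∀ i j, C i j = C j i
  off : ∀ i j, i ≠ j → C i j = 0 ∨ C i j = -1

section km

variable {C : I → I → ℤ} {M : Type} [AddCommGroup M] [Module K M] {e f h : I → M →ₗ[K] M}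
  {ν : I → ℤ} {v : M} {vs : M →ₗ[K] K}

namespace KM

lemma ef_ne (H : KM C e f h) {i j : I} (hij : i ≠ j) (x : M) : e i (f j x) = f j (e i x) := by
  rw [H.ef, if_neg hij, add_zero]

lemma ef_eq (H : KM C e f h) (i : I) (x : M) : e i (f i x) = f i (e i x) + h i x := by
  rw [H.ef, if_pos rfl]

lemma ef_pow_ne (H : KM C e f h) {i j : I} (hij : i ≠ j) (n : ℕ) (x : M) :
    e i ((f j ^ n : M →ₗ[K] M) x) = (f j ^ n : M →ₗ[K] M) (e i x) := by
  induction n with
  | zero => rfl
  | succ n ih => rw [pow_succ', Module.End.mul_apply, H.ef_ne hij, ih, Module.End.mul_apply]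

lemma hf_pow (H : KM C e f h) (i : I) (hC : C i i = 2) (n : ℕ) (x : M) :
    h i ((f i ^ n : M →ₗ[K] M) x) = (f i ^ n : M →ₗ[K] M) (h i x) -
      (2 * n : K) • (f i ^ n : M →ₗ[K] M) x := by
  induction n with
  | zero => simp
  | succ n ih =>
    rw [pow_succ', Module.End.mul_apply, Module.End.mul_apply, H.hf, ih, hC, map_sub, map_smul]
    push_cast
    module

lemma he_pow (H : KM C e f h) (i : I) (hC : C i i = 2) (n : ℕ) (x : M) :
    h i ((e i ^ n : M →ₗ[K] M) x) = (e i ^ n : M →ₗ[K] M) (h i x) +
      (2 * n : K) • (e i ^ n : M →ₗ[K] M) x := by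
  induction n with
  | zero => simp
  | succ n ih =>
    rw [pow_succ', Module.End.mul_apply, Module.End.mul_apply, H.he, ih, hC, map_add, map_smul]
    push_cast
    module

lemma ef_pow (H : KM C e f h) (i : I) (hC : C i i = 2) (n : ℕ) (x : M) :
    e i ((f i ^ (n + 1) : M →ₗ[K] M) x) = (f i ^ (n + 1) : M →ₗ[K] M) (e i x) +
      ((n + 1 : ℕ) : K) • (f i ^ n : M →ₗ[K] M) (h i x) -
      ((n + 1 : ℕ) * n : K) • (f i ^ n : M →ₗ[K] M) x := by
  induction n with
  | zero => simp [H.ef_eq]
  | succ n ih =>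
    rw [pow_succ' (f i) (n + 1), Module.End.mul_apply, Module.End.mul_apply, H.ef_eq, ih,
      H.hf_pow i hC]
    simp only [map_add, map_sub, map_smul]
    have e1 : ∀ y : M, f i ((f i ^ n : M →ₗ[K] M) y) = (f i ^ (n + 1) : M →ₗ[K] M) y := by
      intro y; rw [pow_succ', Module.End.mul_apply]
    rw [e1, e1]
    push_cast
    module

lemma epow_f (H : KM C e f h) (i : I) (hC : C i i = 2) (n : ℕ) (x : M) :
    (e i ^ (n + 1) : M →ₗ[K] M) (f i x) = f i ((e i ^ (n + 1) : M →ₗ[K] M) x) +
      ((n + 1 : ℕ) : K) • (e i ^ n : M →ₗ[K] M) (h i x) +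
      ((n + 1 : ℕ) * n : K) • (e i ^ n : M →ₗ[K] M) x := by
  induction n with
  | zero => simp [H.ef_eq]
  | succ n ih =>
    rw [pow_succ' (e i) (n + 1), Module.End.mul_apply, Module.End.mul_apply, ih]
    simp only [map_add, map_smul]
    have e1 : ∀ y : M, e i ((e i ^ n : M →ₗ[K] M) y) = (e i ^ (n + 1) : M →ₗ[K] M) y := by
      intro y; rw [pow_succ', Module.End.mul_apply]
    rw [e1, e1, H.ef_eq, H.he_pow i hC]
    push_cast
    module

/-- a vector of negative weight which is nilpotent for f and killed by the corresponding power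
of e is zero -/
lemma refl (H : KM C e f h) [CharZero K] (i : I) (hC : C i i = 2) (n : ℕ) :
    ∀ (p : ℕ) (x : M), h i x = -(p : K) • x → (f i ^ n : M →ₗ[K] M) x = 0 →
      (e i ^ p : M →ₗ[K] M) x = 0 → x = 0 := by
  induction n with
  | zero => intro p x _ hf _; simpa using hf
  | succ n ih =>
    intro p x hx hf he
    have h1 : f i x = 0 := by
      refine ih (p + 2) (f i x) ?_ ?_ ?_
      · rw [H.hf, hx, hC, map_smul]
        push_cast
        module
      · rw [pow_succ, Module.End.mul_apply] at hf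
        exact hf
      · rw [H.epow_f i hC (p + 1), hx]
        have e2 : (e i ^ (p + 1) : M →ₗ[K] M) x = 0 := by
          rw [pow_succ', Module.End.mul_apply, he, map_zero]
        have e3 : (e i ^ (p + 1 + 1) : M →ₗ[K] M) x = 0 := by
          rw [pow_succ', Module.End.mul_apply, e2, map_zero]
        rw [e3, map_smul, e2]
        simp
    have h2 : ∀ k : ℕ, k ≤ p → (e i ^ k : M →ₗ[K] M) x = 0 → x = 0 := by
      intro k
      induction k with
      | zero => intro _ hk; simpa using hk
      | succ k ihk =>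
        intro hk hk0
        refine ihk (by omega) ?_
        have h3 := H.epow_f i hC k x
        rw [h1, map_zero, hk0, map_zero, hx, map_smul] at h3
        have h4 : (((k + 1 : ℕ) : K) * ((p : K) - k)) • (e i ^ k : M →ₗ[K] M) x = 0 := by
          have : (((k + 1 : ℕ) : K) * ((p : K) - k)) • (e i ^ k : M →ₗ[K] M) x =
            -(0 + ((k + 1 : ℕ) : K) • (-(p : K) • (e i ^ k : M →ₗ[K] M) x) +
              ((k + 1 : ℕ) * k : K) • (e i ^ k : M →ₗ[K] M) x) := by
            module
          rw [this, ← h3, neg_zero]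
        rcases smul_eq_zero.mp h4 with h | h
        · exfalso
          rcases mul_eq_zero.mp h with h | h
          · exact absurd h (by exact_mod_cast (Nat.succ_ne_zero k))
          · rw [sub_eq_zero] at h
            have : p = k := by exact_mod_cast h
            omega
        · exact h
    exact h2 p le_rfl he

end KM

namespace Irr

lemma zero_crit (H : Irr C ν e f h v vs) (x : M) (he : ∀ i, e i x = 0) (hv : vs x = 0) : x = 0 := by
  apply H.nondeg
  intro E
  rcases List.eq_nil_or_concat E with rfl | ⟨E', j, rfl⟩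
  · exact hv
  · rw [List.concat_eq_append, fwL_append, fwL_cons, fwL_nil, he, map_zero, map_zero]

lemma zero_of_comm (H : Irr C ν e f h v vs) (θ : M →ₗ[K] M) (hc : ∀ k x, e k (θ x) = θ (e k x))
    (hv : ∀ x, vs (θ x) = 0) (x : M) : θ x = 0 := by
  apply H.nondeg
  intro E
  have : fwL e E (θ x) = θ (fwL e E x) := by
    induction E with
    | nil => rfl
    | cons i E ih => rw [fwL_cons, ih, hc, fwL_cons]
  rw [this, hv]

lemma vs_h (H : Irr C ν e f h v vs) (i : I) (x : M) : vs (h i x) = (ν i : K) * vs x := by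
  have := H.gen (LinearMap.ker (vs ∘ₗ h i - (ν i : K) • vs)) ?_ ?_ x
  · rw [LinearMap.mem_ker] at this
    simpa [sub_eq_zero] using this
  · rw [LinearMap.mem_ker]
    simp [H.hw.hv, H.hw.vsv]
  · intro j x _
    rw [LinearMap.mem_ker]
    simp [H.km.hf, H.hw.vsf]

/-- lowering operators of non-adjacent indices commute -/
lemma ff_comm (H : Irr C ν e f h v vs) (S : SLaced C) {i j : I} (hij : C i j = 0) (x : M) :
    f i (f j x) = f j (f i x) := by
  have hne : i ≠ j := by
    rintro rfl
    rw [S.diag] at hij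
    norm_num at hij
  have hji : C j i = 0 := by rw [S.symm]; exact hij
  have := H.zero_of_comm (f i ∘ₗ f j - f j ∘ₗ f i) ?_ ?_ x
  · simpa [sub_eq_zero] using this
  · intro k y
    simp only [LinearMap.sub_apply, LinearMap.comp_apply, map_sub]
    by_cases hki : k = i
    · subst hki
      rw [H.km.ef_eq, H.km.ef_ne hne, H.km.ef_ne hne, H.km.ef_eq, H.km.hf, hij]
      simp only [map_add]
      push_cast
      module
    · by_cases hkj : k = j
      · subst hkj
        rw [H.km.ef_ne hki, H.km.ef_eq, H.km.ef_eq, H.km.ef_ne hki, H.km.hf, hji]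
        simp only [map_add]
        push_cast
        module
      · rw [H.km.ef_ne hki, H.km.ef_ne hkj, H.km.ef_ne hkj, H.km.ef_ne hki]
  · intro y
    simp [H.hw.vsf]

/-- the Serre relation -/
lemma serre (H : Irr C ν e f h v vs) (S : SLaced C) {i j : I} (hij : C i j = -1) (x : M) :
    f i (f i (f j x)) = (2 : K) • f i (f j (f i x)) - f j (f i (f i x)) := by
  have hne : i ≠ j := by
    rintro rfl
    rw [S.diag] at hij
    norm_num at hij
  have hji : C j i = -1 := by rw [S.symm]; exact hij
  have := H.zero_of_comm (f i ∘ₗ f i ∘ₗ f j - (2 : K) • (f i ∘ₗ f j ∘ₗ f i) + f j ∘ₗ f i ∘ₗ f i)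
    ?_ ?_ x
  · simp only [LinearMap.add_apply, LinearMap.sub_apply, LinearMap.smul_apply,
      LinearMap.comp_apply] at this
    rw [← sub_eq_zero, ← this]
    module
  · intro k y
    simp only [LinearMap.add_apply, LinearMap.sub_apply, LinearMap.smul_apply,
      LinearMap.comp_apply, map_sub, map_add, map_smul]
    by_cases hki : k = i
    · subst hki
      simp only [H.km.ef_eq, H.km.ef_ne hne, H.km.hf, hij, S.diag, map_add, map_sub, map_smul]
      push_cast
      module
    · by_cases hkj : k = j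
      · subst hkj
        simp only [H.km.ef_eq, H.km.ef_ne hki, H.km.hf, hji, map_add, map_sub, map_smul]
        push_cast
        module
      · simp only [H.km.ef_ne hki, H.km.ef_ne hkj]
  · intro y
    simp [H.hw.vsf]

/-- powers of a lowering operator kill the highest weight vector -/
lemma fpow_v (H : Irr C ν e f h v vs) (S : SLaced C) (i : I) (n : ℕ) (hn : ν i = n) :
    (f i ^ (n + 1) : M →ₗ[K] M) v = 0 := by
  apply H.zero_crit
  · intro j
    by_cases hij : j = i
    · subst hij
      rw [H.km.ef_pow j (S.diag j), H.hw.ev, H.hw.hv, hn, map_zero, map_smul]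
      push_cast
      module
    · rw [H.km.ef_pow_ne hij, H.hw.ev, map_zero]
  · rw [pow_succ', Module.End.mul_apply, H.hw.vsf]

lemma fpow_fj (H : Irr C ν e f h v vs) (S : SLaced C) {i j : I} (hij : C i j = -1) (n : ℕ) (x : M) :
    (f i ^ (n + 1) : M →ₗ[K] M) (f j x) = ((n + 1 : ℕ) : K) • f i (f j ((f i ^ n : M →ₗ[K] M) x)) -
      (n : K) • f j ((f i ^ (n + 1) : M →ₗ[K] M) x) := by
  induction n with
  | zero => simp
  | succ n ih =>
    rw [pow_succ' (f i) (n + 1), Module.End.mul_apply, ih]
    simp only [map_sub, map_smul]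
    rw [H.serre S hij]
    have e1 : ∀ y : M, f i ((f i ^ n : M →ₗ[K] M) y) = (f i ^ (n + 1) : M →ₗ[K] M) y := by
      intro y; rw [pow_succ', Module.End.mul_apply]
    rw [e1, Module.End.mul_apply]
    push_cast
    module

/-- local nilpotency -/
lemma loc_nil (H : Irr C ν e f h v vs) (S : SLaced C) (hν : ∀ i, 0 ≤ ν i) (i : I) (x : M) :
    ∃ n : ℕ, (f i ^ n : M →ₗ[K] M) x = 0 := by
  have hmono : ∀ (m n : ℕ) (y : M), m ≤ n → (f i ^ m : M →ₗ[K] M) y = 0 →
      (f i ^ n : M →ₗ[K] M) y = 0 := by
    intro m n y hmn hy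
    obtain ⟨k, rfl⟩ := Nat.exists_eq_add_of_le' hmn
    rw [pow_add, Module.End.mul_apply, hy, map_zero]
  let N : Submodule K M :=
    { carrier := {x | ∃ n : ℕ, (f i ^ n : M →ₗ[K] M) x = 0}
      zero_mem' := ⟨0, by simp⟩
      add_mem' := by
        rintro x y ⟨m, hm⟩ ⟨n, hn⟩
        refine ⟨max m n, ?_⟩
        rw [map_add, hmono m _ x (le_max_left _ _) hm, hmono n _ y (le_max_right _ _) hn, add_zero]
      smul_mem' := by
        rintro c x ⟨m, hm⟩
        exact ⟨m, by rw [map_smul, hm, smul_zero]⟩ }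
  refine H.gen N ?_ ?_ x
  · obtain ⟨n, hn⟩ := Int.eq_ofNat_of_zero_le (hν i)
    exact ⟨n + 1, H.fpow_v S i n hn⟩
  · rintro j x ⟨n, hn⟩
    by_cases hji : i = j
    · subst hji
      refine ⟨n, ?_⟩
      have : (f i ^ n : M →ₗ[K] M) (f i x) = f i ((f i ^ n : M →ₗ[K] M) x) := by
        rw [← Module.End.mul_apply, ← Module.End.mul_apply, ← pow_succ, ← pow_succ']
      rw [this, hn, map_zero]
    · rcases S.off i j hji with h0 | h1
      · refine ⟨n, ?_⟩
        have : (f i ^ n : M →ₗ[K] M) (f j x) = f j ((f i ^ n : M →ₗ[K] M) x) := by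
          clear hn
          induction n with
          | zero => rfl
          | succ n ih => rw [pow_succ', Module.End.mul_apply, ih, H.ff_comm S h0,
              Module.End.mul_apply]
        rw [this, hn, map_zero]
      · refine ⟨n + 1, ?_⟩
        rw [H.fpow_fj S h1, hn, pow_succ', Module.End.mul_apply, hn]
        simp

end Irr

end km

end H60TS
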