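import Pool.Agent.H60.TS.Hw2

/-!
Finite dimension of the irreducible highest weight modules when the quadratic function is positive
outside a finite set.
-/

set_option linter.unusedSectionVars false

namespace H60TS
open Finset

variable {I : Type} [DecidableEq I] {K : Type} [Field K]

/-- multiplicities of the letters of a word -/
def cnt (w : List I) : I → ℤ := fun i => (w.count i : ℤ)

lemma cnt_cons (j : I) (w : List I) : cnt (j :: w) = cnt w + Pi.single j 1 := by
  funext i
  simp only [cnt, List.count_cons, Pi.add_apply, Pi.single_apply]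
  by_cases h : j = i
  · subst h; simp
  · have h' : i ≠ j := fun h' => h h'.symm
    simp [h, h']

lemma cnt_nonneg (w : List I) (i : I) : 0 ≤ cnt w i := by simp [cnt]

/-- the quadratic function -/
def qf [Fintype I] (C : I → I → ℤ) (ν : I → ℤ) (β : I → ℤ) : ℤ :=
  ∑ i, β i * ∑ j, C i j * β j - 2 * ∑ i, ν i * β i

/-- weight in terms of multiplicities -/
def mu [Fintype I] (C : I → I → ℤ) (ν : I → ℤ) (β : I → ℤ) (i : I) : ℤ := ν i - ∑ j, C i j * β j

lemma qf_refl [Fintype I] (C : I → I → ℤ) (S : SLaced C) (ν : I → ℤ) (β : I → ℤ) (i : I) (p : ℤ)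
    (hp : mu C ν β i = -p) : qf C ν (β - Pi.single i p) = qf C ν β := by
  have e1 : ∀ k, ∑ j, C k j * (β - Pi.single i p : I → ℤ) j = (∑ j, C k j * β j) - C k i * p := by
    intro k
    simp only [Pi.sub_apply, mul_sub, Finset.sum_sub_distrib]
    congr 1
    rw [Finset.sum_eq_single i]
    · simp
    · intro j _ hj; simp [hj]
    · simp
  have e2 : ∀ g : I → ℤ, ∑ k, (β - Pi.single i p : I → ℤ) k * g k = (∑ k, β k * g k) - p * g i := by
    intro g
    simp only [Pi.sub_apply, sub_mul, Finset.sum_sub_distrib]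
    congr 1
    rw [Finset.sum_eq_single i]
    · simp
    · intro j _ hj; simp [hj]
    · simp
  have e3 : ∑ k, ν k * (β - Pi.single i p : I → ℤ) k = (∑ k, ν k * β k) - p * ν i := by
    have := e2 ν
    simpa only [mul_comm] using this
  have e4 : ∑ k, β k * (C k i * p) = p * ∑ j, C i j * β j := by
    rw [Finset.mul_sum]
    refine Finset.sum_congr rfl (fun k _ => ?_)
    rw [S.symm k i]; ring
  rw [qf, qf, e3, e2]
  simp only [e1, mul_sub, Finset.sum_sub_distrib]
  rw [e4, S.diag]
  rw [mu] at hp
  linear_combination 2 * p * hp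

section km

variable {C : I → I → ℤ} {M : Type} [AddCommGroup M] [Module K M] {e f h : I → M →ₗ[K] M}
  {ν : I → ℤ} {v : M} {vs : M →ₗ[K] K}

/-- the graded pieces -/
def gr (f : I → M →ₗ[K] M) (v : M) (β : I → ℤ) : Submodule K M :=
  Submodule.span K {y | ∃ w : List I, cnt w = β ∧ y = fw (fun i => f i) w v}

lemma fw_mem_gr (f : I → M →ₗ[K] M) (v : M) (w : List I) :
    fw (fun i => f i) w v ∈ gr f v (cnt w) := Submodule.subset_span ⟨w, rfl, rfl⟩

lemma gr_neg (f : I → M →ₗ[K] M) (v : M) (β : I → ℤ) (i : I) (hi : β i < 0) : gr f v β = ⊥ := by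
  rw [gr, Submodule.span_eq_bot]
  rintro y ⟨w, hw, _⟩
  exfalso
  have := cnt_nonneg w i
  rw [hw] at this
  omega

lemma gr_f (f : I → M →ₗ[K] M) (v : M) (β : I → ℤ) (j : I) (x : M) (hx : x ∈ gr f v β) :
    f j x ∈ gr f v (β + Pi.single j 1) := by
  rw [gr] at hx
  induction hx using Submodule.span_induction with
  | mem y hy =>
    obtain ⟨w, hw, rfl⟩ := hy
    rw [← hw, ← cnt_cons]
    exact fw_mem_gr f v (j :: w)
  | zero => rw [map_zero]; exact Submodule.zero_mem _
  | add y z _ _ hy hz => rw [map_add]; exact Submodule.add_mem _ hy hz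
  | smul c y _ hy => rw [map_smul]; exact Submodule.smul_mem _ _ hy

namespace KM

lemma gr_e (H : KM C e f h) (ev : ∀ i, e i v = 0) (hv : ∀ i, h i v = (ν i : K) • v) (β : I → ℤ)
    (j : I) (x : M) (hx : x ∈ gr f v β) : e j x ∈ gr f v (β - Pi.single j 1) := by
  rw [gr] at hx
  induction hx using Submodule.span_induction with
  | mem y hy =>
    obtain ⟨w, hw, rfl⟩ := hy
    rw [← hw]
    clear hw
    induction w with
    | nil => rw [fw_nil, ev]; exact Submodule.zero_mem _
    | cons k w ih =>
      rw [fw_cons, H.ef]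
      refine Submodule.add_mem _ ?_ ?_
      · have := gr_f f v _ k _ ih
        have e1 : cnt w - Pi.single j 1 + Pi.single k 1 = cnt (k :: w) - Pi.single j 1 := by
          rw [cnt_cons]; abel
        rwa [e1] at this
      · split_ifs with hjk
        · subst hjk
          rw [H.h_fw hv]
          refine Submodule.smul_mem _ _ ?_
          have e1 : cnt (j :: w) - Pi.single j 1 = cnt w := by
            rw [cnt_cons]; abel
          rw [e1]
          exact fw_mem_gr f v w
        · exact Submodule.zero_mem _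
  | zero => rw [map_zero]; exact Submodule.zero_mem _
  | add y z _ _ hy hz => rw [map_add]; exact Submodule.add_mem _ hy hz
  | smul c y _ hy => rw [map_smul]; exact Submodule.smul_mem _ _ hy

lemma gr_epow (H : KM C e f h) (ev : ∀ i, e i v = 0) (hv : ∀ i, h i v = (ν i : K) • v)
    (β : I → ℤ) (j : I) (n : ℕ) (x : M) (hx : x ∈ gr f v β) :
    (e j ^ n : M →ₗ[K] M) x ∈ gr f v (β - Pi.single j (n : ℤ)) := by
  induction n with
  | zero => simpa using hx
  | succ n ih =>
    have := H.gr_e ev hv _ j _ ih
    rw [pow_succ', Module.End.mul_apply]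
    have e1 : β - Pi.single j (n : ℤ) - Pi.single j 1 = β - Pi.single j ((n + 1 : ℕ) : ℤ) := by
      rw [sub_sub, ← Pi.single_add]
      push_cast
      rfl
    rwa [e1] at this

variable [Fintype I]

lemma gr_h (H : KM C e f h) (hv : ∀ i, h i v = (ν i : K) • v) (β : I → ℤ)
    (i : I) (x : M) (hx : x ∈ gr f v β) : h i x = (mu C ν β i : K) • x := by
  rw [gr] at hx
  induction hx using Submodule.span_induction with
  | mem y hy =>
    obtain ⟨w, hw, rfl⟩ := hy
    rw [H.h_fw hv, ← hw]
    have : wtc C ν w i = mu C ν (cnt w) i := by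
      clear hw
      induction w with
      | nil => simp [mu, cnt]
      | cons k w ih =>
        rw [wtc_cons, ih, mu, mu, cnt_cons]
        simp only [Pi.add_apply, mul_add, Finset.sum_add_distrib]
        rw [Finset.sum_eq_single (f := fun j => C i j * (Pi.single k 1 : I → ℤ) j) k]
        · simp; ring
        · intro j _ hj; simp [hj]
        · simp
    rw [this]
  | zero => rw [map_zero, smul_zero]
  | add y z _ _ hy hz => rw [map_add, hy, hz, smul_add]
  | smul c y _ hy => rw [map_smul, hy, smul_comm]

end KM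

variable [Fintype I] [CharZero K]

namespace Irr

lemma gr_bot (H : Irr C ν e f h v vs) (S : SLaced C) (hν : ∀ i, 0 ≤ ν i) (n : ℕ) :
    ∀ β : I → ℤ, (∑ i, β i = n) → 0 < qf C ν β → gr f v β = ⊥ := by
  induction n using Nat.strong_induction_on with
  | _ n ih =>
    intro β hn hq
    by_cases hneg : ∃ i, β i < 0
    · obtain ⟨i, hi⟩ := hneg
      exact gr_neg f v β i hi
    · push Not at hneg
      have hex : ∃ i, mu C ν β i < 0 := by
        by_contra hcon
        push Not at hcon
        have h1 : qf C ν β = -∑ i, β i * (ν i + mu C ν β i) := by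
          rw [qf]
          simp only [mu, mul_add, mul_sub, Finset.sum_add_distrib, Finset.sum_sub_distrib]
          have : ∑ i, ν i * β i = ∑ i, β i * ν i := Finset.sum_congr rfl (fun i _ => mul_comm _ _)
          rw [this]; ring
        have h2 : 0 ≤ ∑ i, β i * (ν i + mu C ν β i) :=
          Finset.sum_nonneg (fun i _ => mul_nonneg (hneg i) (add_nonneg (hν i) (hcon i)))
        omega
      obtain ⟨i, hi⟩ := hex
      obtain ⟨p, hp⟩ := Int.eq_ofNat_of_zero_le (a := -mu C ν β i) (by omega)
      have hp' : mu C ν β i = -(p : ℤ) := by omega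
      have hp0 : 0 < p := by omega
      have hβ' : gr f v (β - Pi.single i (p : ℤ)) = ⊥ := by
        by_cases hneg' : ∃ k, (β - Pi.single i (p : ℤ) : I → ℤ) k < 0
        · obtain ⟨k, hk⟩ := hneg'
          exact gr_neg f v _ k hk
        · push Not at hneg'
          have hsum : ∑ k, (β - Pi.single i (p : ℤ) : I → ℤ) k = n - p := by
            simp only [Pi.sub_apply, Finset.sum_sub_distrib, hn]
            rw [Finset.sum_pi_single']
            simp
          have h0 : 0 ≤ ∑ k, (β - Pi.single i (p : ℤ) : I → ℤ) k := Finset.sum_nonneg (fun k _ => hneg' k)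
          rw [hsum] at h0
          refine ih (n - p) (by omega) _ ?_ ?_
          · rw [hsum]; omega
          · rw [qf_refl C S ν β i p hp']; exact hq
      rw [Submodule.eq_bot_iff]
      intro x hx
      obtain ⟨m, hm⟩ := H.loc_nil S hν i x
      refine H.km.refl i (S.diag i) m p x ?_ hm ?_
      · rw [H.km.gr_h H.hw.hv β i x hx, hp']
        push_cast
        rfl
      · have := H.km.gr_epow H.hw.ev H.hw.hv β i p x hx
        rw [hβ', Submodule.mem_bot] at this
        exact this

/-- words longer than the bound act by zero -/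
lemma fw_zero (H : Irr C ν e f h v vs) (S : SLaced C) (hν : ∀ i, 0 ≤ ν i) (B : ℕ)
    (hB : ∀ β : I → ℤ, (∀ i, 0 ≤ β i) → qf C ν β ≤ 0 → ∑ i, β i ≤ B) (w : List I)
    (hw : B < w.length) : fw (fun i => f i) w v = 0 := by
  have hsum : ∑ i, cnt w i = w.length := by
    clear hw
    induction w with
    | nil => simp [cnt]
    | cons k w ih =>
      rw [cnt_cons]
      simp only [Pi.add_apply, Finset.sum_add_distrib, ih, List.length_cons]
      rw [Finset.sum_pi_single']
      simp
  have hq : 0 < qf C ν (cnt w) := by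
    by_contra hcon
    push Not at hcon
    have := hB (cnt w) (cnt_nonneg w) hcon
    rw [hsum] at this
    omega
  have h1 := H.gr_bot S hν w.length (cnt w) hsum hq
  have h2 := fw_mem_gr f v w
  rw [h1, Submodule.mem_bot] at h2
  exact h2

lemma span_words (H : Irr C ν e f h v vs) (x : M) :
    x ∈ Submodule.span K (Set.range (fun w : List I => fw (fun i => f i) w v)) := by
  refine H.gen (Submodule.span K (Set.range (fun w : List I => fw (fun i => f i) w v)))
    (Submodule.subset_span ⟨[], rfl⟩) ?_ x
  intro i x hx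
  induction hx using Submodule.span_induction with
  | mem y hy =>
    obtain ⟨w, rfl⟩ := hy
    exact Submodule.subset_span ⟨i :: w, rfl⟩
  | zero => rw [map_zero]; exact Submodule.zero_mem _
  | add y z _ _ hy hz => rw [map_add]; exact Submodule.add_mem _ hy hz
  | smul c y _ hy => rw [map_smul]; exact Submodule.smul_mem _ _ hy

lemma finite (H : Irr C ν e f h v vs) (S : SLaced C) (hν : ∀ i, 0 ≤ ν i) (B : ℕ)
    (hB : ∀ β : I → ℤ, (∀ i, 0 ≤ β i) → qf C ν β ≤ 0 → ∑ i, β i ≤ B) : Module.Finite K M := by
  have hfin : (Set.range (fun w : List I => fw (fun i => f i) w v)).Finite := by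
    have h1 : ((fun w : List I => fw (fun i => f i) w v) '' {w | w.length ≤ B}).Finite :=
      (List.finite_length_le I B).image _
    refine (h1.union (Set.finite_singleton 0)).subset ?_
    rintro _ ⟨w, rfl⟩
    by_cases hw : w.length ≤ B
    · left; exact ⟨w, hw, rfl⟩
    · right
      rw [Set.mem_singleton_iff]
      exact H.fw_zero S hν B hB w (by omega)
  refine ⟨?_⟩
  rw [← (Submodule.eq_top_iff'.mpr H.span_words)]
  exact Submodule.fg_span hfin

lemma ext_words (H : Irr C ν e f h v vs) (θ : M →ₗ[K] M)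
    (h0 : ∀ w : List I, θ (fw (fun i => f i) w v) = 0) : θ = 0 := by
  apply LinearMap.ext
  intro x
  have := H.span_words x
  induction this using Submodule.span_induction with
  | mem y hy =>
    obtain ⟨w, rfl⟩ := hy
    exact h0 w
  | zero => rw [map_zero]; rfl
  | add y z _ _ hy hz => rw [map_add, hy, hz]; simp
  | smul c y _ hy => rw [map_smul, hy]; simp

lemma f_nil (H : Irr C ν e f h v vs) (S : SLaced C) (hν : ∀ i, 0 ≤ ν i) (B : ℕ)
    (hB : ∀ β : I → ℤ, (∀ i, 0 ≤ β i) → qf C ν β ≤ 0 → ∑ i, β i ≤ B) (i : I) :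
    (f i ^ (B + 1) : M →ₗ[K] M) = 0 := by
  apply H.ext_words
  intro w
  have : ∀ n, (f i ^ n : M →ₗ[K] M) (fw (fun i => f i) w v) =
      fw (fun i => f i) (List.replicate n i ++ w) v := by
    intro n
    induction n with
    | zero => rfl
    | succ n ih => rw [pow_succ', Module.End.mul_apply, ih, List.replicate_succ,
        List.cons_append, fw_cons]
  rw [this]
  apply H.fw_zero S hν B hB
  rw [List.length_append, List.length_replicate]
  omega

lemma e_nil (H : Irr C ν e f h v vs) (S : SLaced C) (hν : ∀ i, 0 ≤ ν i) (B : ℕ)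
    (hB : ∀ β : I → ℤ, (∀ i, 0 ≤ β i) → qf C ν β ≤ 0 → ∑ i, β i ≤ B) (i : I) :
    (e i ^ (B + 1) : M →ₗ[K] M) = 0 := by
  apply H.ext_words
  intro w
  by_cases hw : B < w.length
  · rw [H.fw_zero S hν B hB w hw, map_zero]
  · have h1 := H.km.gr_epow H.hw.ev H.hw.hv (cnt w) i (B + 1) _ (fw_mem_gr f v w)
    rw [gr_neg f v _ i, Submodule.mem_bot] at h1
    · exact h1
    · have h2 : w.count i ≤ w.length := List.count_le_length
      have h3 : cnt w i = (w.count i : ℤ) := rfl
      simp only [Pi.sub_apply, Pi.single_eq_same, h3]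
      omega

end Irr

end km

end H60TS
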