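import Mathlib

/-!
A two-regular graph commuting with a graph of finite type: edges of the second graph are covered
by perfect matchings of neighbourhoods.
-/

set_option linter.unusedSectionVars false

namespace H60TS
open Finset Matrix

variable {V : Type} [Fintype V] [DecidableEq V] (Γ Δ : SimpleGraph V) [DecidableRel Γ.Adj]
  [DecidableRel Δ.Adj]

lemma adj_comm_apply (hcomm : Commute (Γ.adjMatrix ℝ) (Δ.adjMatrix ℝ)) (u w : V) :
    ∑ z ∈ Γ.neighborFinset u, (Δ.adjMatrix ℝ) z w = ∑ z ∈ Δ.neighborFinset u, (Γ.adjMatrix ℝ) z w := by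
  rw [← SimpleGraph.adjMatrix_mul_apply, ← SimpleGraph.adjMatrix_mul_apply, hcomm.eq]

/-- functions on which the two-regular graph acts by two are constant on its components -/
lemma const_comp (hΓ : ∀ v, Γ.degree v = 2) (g : V → ℝ)
    (hg : ∀ v, ∑ u ∈ Γ.neighborFinset v, g u = 2 * g v) (u w : V) (h : Γ.Reachable u w) :
    g u = g w := by
  have h1 : Γ.lapMatrix ℝ *ᵥ g = 0 := by
    funext v
    rw [SimpleGraph.lapMatrix_mulVec_apply, hΓ, hg]
    simp
  exact (SimpleGraph.lapMatrix_mulVec_eq_zero_iff_forall_reachable Γ).mp h1 u w h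

open Classical in
/-- number of neighbours in the component of w -/
noncomputable def nC (w : V) (u : V) : ℝ :=
  ∑ z ∈ Δ.neighborFinset u, if Γ.Reachable w z then (1 : ℝ) else 0

lemma nC_const (hcomm : Commute (Γ.adjMatrix ℝ) (Δ.adjMatrix ℝ)) (hΓ : ∀ v, Γ.degree v = 2)
    (w u u' : V) (h : Γ.Reachable u u') : nC Γ Δ w u = nC Γ Δ w u' := by
  classical
  refine const_comp Γ hΓ (nC Γ Δ w) ?_ u u' h
  intro v
  set x : V → ℝ := fun z => if Γ.Reachable w z then (1 : ℝ) else 0 with hx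
  have h1 : nC Γ Δ w = Δ.adjMatrix ℝ *ᵥ x := by
    funext u
    rw [SimpleGraph.adjMatrix_mulVec_apply]
    rfl
  have h2 : Γ.adjMatrix ℝ *ᵥ x = (2 : ℝ) • x := by
    funext u
    rw [SimpleGraph.adjMatrix_mulVec_apply, Pi.smul_apply, smul_eq_mul]
    have : ∀ z ∈ Γ.neighborFinset u, x z = x u := by
      intro z hz
      rw [SimpleGraph.mem_neighborFinset] at hz
      simp only [hx]
      congr 1
      apply propext
      constructor
      · intro h; exact h.trans hz.reachable.symm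
      · intro h; exact h.trans hz.reachable
    rw [Finset.sum_congr rfl this, Finset.sum_const, SimpleGraph.card_neighborFinset_eq_degree, hΓ]
    simp
  have h3 : Γ.adjMatrix ℝ *ᵥ (Δ.adjMatrix ℝ *ᵥ x) = (2 : ℝ) • (Δ.adjMatrix ℝ *ᵥ x) := by
    rw [Matrix.mulVec_mulVec, hcomm.eq, ← Matrix.mulVec_mulVec, h2, Matrix.mulVec_smul]
  have h4 := congrFun h3 v
  rw [SimpleGraph.adjMatrix_mulVec_apply, ← h1] at h4
  exact h4

lemma match_unique (hcomm : Commute (Γ.adjMatrix ℝ) (Δ.adjMatrix ℝ)) (hΓ : ∀ v, Γ.degree v = 2)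
    (hΔ : ((2 : ℝ) • (1 : Matrix V V ℝ) - Δ.adjMatrix ℝ).PosDef) (w y o o' : V)
    (h1 : Γ.Adj w o) (h2 : Γ.Adj w o') (h3 : Δ.Adj o y) (h4 : Δ.Adj o' y) : o = o' := by
  classical
  by_contra hne
  -- two paths
  have hwy : (2 : ℝ) ≤ ∑ z ∈ Γ.neighborFinset w, (Δ.adjMatrix ℝ) z y := by
    have hsub : ({o, o'} : Finset V) ⊆ Γ.neighborFinset w := by
      intro z hz
      rw [Finset.mem_insert, Finset.mem_singleton] at hz
      rw [SimpleGraph.mem_neighborFinset]
      rcases hz with rfl | rfl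
      · exact h1
      · exact h2
    have h5 : ∑ z ∈ ({o, o'} : Finset V), (Δ.adjMatrix ℝ) z y ≤
        ∑ z ∈ Γ.neighborFinset w, (Δ.adjMatrix ℝ) z y := by
      refine Finset.sum_le_sum_of_subset_of_nonneg hsub (fun z _ _ => ?_)
      rw [SimpleGraph.adjMatrix_apply]
      split_ifs <;> norm_num
    rw [Finset.sum_pair hne] at h5
    simp only [SimpleGraph.adjMatrix_apply, h3, h4, if_true] at h5
    calc (2 : ℝ) = 1 + 1 := by norm_num
      _ ≤ _ := by simpa [SimpleGraph.adjMatrix_apply] using h5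
  have hA : ∀ a b z : V, (Γ.adjMatrix ℝ) z b ≤ if Γ.Reachable b z then (1 : ℝ) else 0 := by
    intro _ b z
    rw [SimpleGraph.adjMatrix_apply]
    by_cases h : Γ.Adj z b
    · rw [if_pos h, if_pos h.symm.reachable]
    · rw [if_neg h]; split_ifs <;> norm_num
  have gw : (2 : ℝ) ≤ nC Γ Δ y w := by
    rw [adj_comm_apply Γ Δ hcomm] at hwy
    refine le_trans hwy (Finset.sum_le_sum (fun z _ => hA w y z))
  have gy : (2 : ℝ) ≤ nC Γ Δ w y := by
    have h5 : ∑ z ∈ Δ.neighborFinset y, (Γ.adjMatrix ℝ) z w =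
        ∑ z ∈ Γ.neighborFinset w, (Δ.adjMatrix ℝ) z y := by
      rw [← SimpleGraph.adjMatrix_mul_apply, ← SimpleGraph.adjMatrix_mul_apply]
      have h6 : (Δ.adjMatrix ℝ * Γ.adjMatrix ℝ)ᵀ = Γ.adjMatrix ℝ * Δ.adjMatrix ℝ := by
        rw [Matrix.transpose_mul, SimpleGraph.transpose_adjMatrix, SimpleGraph.transpose_adjMatrix]
      rw [← h6, Matrix.transpose_apply]
    rw [← h5] at hwy
    exact le_trans hwy (Finset.sum_le_sum (fun z _ => hA y w z))
  -- the test vector
  set x : V → ℝ := fun z => if Γ.Reachable w z ∨ Γ.Reachable y z then (1 : ℝ) else 0 with hx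
  have hx0 : x ≠ 0 := by
    intro h
    have := congrFun h w
    simp [hx] at this
  have hbig : ∀ u, x u = 1 → (2 : ℝ) ≤ ∑ z ∈ Δ.neighborFinset u, x z := by
    intro u hu
    have hu' : Γ.Reachable w u ∨ Γ.Reachable y u := by
      by_contra hcon
      simp [hx, hcon] at hu
    rcases hu' with h | h
    · have h5 : nC Γ Δ y w = nC Γ Δ y u := nC_const Γ Δ hcomm hΓ y w u h
      rw [h5] at gw
      refine le_trans gw (Finset.sum_le_sum (fun z _ => ?_))
      simp only [hx]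
      by_cases hz : Γ.Reachable y z
      · rw [if_pos hz, if_pos (Or.inr hz)]
      · rw [if_neg hz]; split_ifs <;> norm_num
    · have h5 : nC Γ Δ w y = nC Γ Δ w u := nC_const Γ Δ hcomm hΓ w y u h
      rw [h5] at gy
      refine le_trans gy (Finset.sum_le_sum (fun z _ => ?_))
      simp only [hx]
      by_cases hz : Γ.Reachable w z
      · rw [if_pos hz, if_pos (Or.inl hz)]
      · rw [if_neg hz]; split_ifs <;> norm_num
  have hpos := hΔ.dotProduct_mulVec_pos hx0
  have hle : star x ⬝ᵥ (((2 : ℝ) • (1 : Matrix V V ℝ) - Δ.adjMatrix ℝ) *ᵥ x) ≤ 0 := by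
    rw [dotProduct]
    refine Finset.sum_nonpos (fun u _ => ?_)
    rw [Matrix.sub_mulVec, Pi.sub_apply, Matrix.smul_mulVec, Matrix.one_mulVec, Pi.smul_apply,
      SimpleGraph.adjMatrix_mulVec_apply, smul_eq_mul]
    by_cases hu : Γ.Reachable w u ∨ Γ.Reachable y u
    · have hu1 : x u = 1 := by simp only [hx]; rw [if_pos hu]
      have := hbig u hu1
      have h6 : star x u = 1 := by simpa using hu1
      rw [h6, hu1]
      linarith
    · have hu1 : x u = 0 := by simp only [hx]; rw [if_neg hu]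
      have h6 : star x u = 0 := by simpa using hu1
      rw [h6, zero_mul]
  linarith

lemma match_exists (hcomm : Commute (Γ.adjMatrix ℝ) (Δ.adjMatrix ℝ)) (v w o : V)
    (h1 : Δ.Adj v w) (h2 : Γ.Adj v o) : ∃ o', Γ.Adj w o' ∧ Δ.Adj o o' := by
  classical
  have h3 := adj_comm_apply Γ Δ hcomm o w
  have h4 : (1 : ℝ) ≤ ∑ z ∈ Γ.neighborFinset o, (Δ.adjMatrix ℝ) z w := by
    have h5 : (Δ.adjMatrix ℝ) v w ≤ ∑ z ∈ Γ.neighborFinset o, (Δ.adjMatrix ℝ) z w := by
      refine Finset.single_le_sum (f := fun z => (Δ.adjMatrix ℝ) z w) (fun z _ => ?_) ?_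
      · simp only [SimpleGraph.adjMatrix_apply]
        split_ifs <;> norm_num
      · rw [SimpleGraph.mem_neighborFinset]; exact h2.symm
    rw [SimpleGraph.adjMatrix_apply, if_pos h1] at h5
    exact h5
  rw [h3] at h4
  have h6 : ∃ z ∈ Δ.neighborFinset o, (Γ.adjMatrix ℝ) z w ≠ 0 := by
    by_contra hcon
    push Not at hcon
    rw [Finset.sum_eq_zero hcon] at h4
    norm_num at h4
  obtain ⟨z, hz, hz'⟩ := h6
  rw [SimpleGraph.mem_neighborFinset] at hz
  rw [SimpleGraph.adjMatrix_apply] at hz'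
  refine ⟨z, ?_, hz⟩
  by_contra hcon
  exact hz' (if_neg (fun h => hcon h.symm))

/-- a positive definite matrix is bounded below -/
lemma posdef_lower {n : Type} [Fintype n] (M : Matrix n n ℝ) (hM : M.PosDef) :
    ∃ c : ℝ, 0 < c ∧ ∀ x : n → ℝ, c * ∑ i, x i ^ 2 ≤ x ⬝ᵥ (M *ᵥ x) := by
  classical
  rcases isEmpty_or_nonempty n with h | h
  · exact ⟨1, one_pos, fun x => by simp [dotProduct]⟩
  · -- the unit sphere of the maximum norm
    have hcont : Continuous (fun x : n → ℝ => x ⬝ᵥ (M *ᵥ x)) := by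
      unfold dotProduct Matrix.mulVec dotProduct
      fun_prop
    have hcomp : IsCompact (Metric.sphere (0 : n → ℝ) 1) := isCompact_sphere 0 1
    have hne : (Metric.sphere (0 : n → ℝ) 1).Nonempty := by
      refine ⟨fun _ => 1, ?_⟩
      rw [mem_sphere_zero_iff_norm]
      exact (pi_norm_const (1 : ℝ)).trans (by norm_num)
    obtain ⟨x0, hx0, hmin⟩ := hcomp.exists_isMinOn hne hcont.continuousOn
    set c0 := x0 ⬝ᵥ (M *ᵥ x0) with hc0
    have hx00 : x0 ≠ 0 := by
      rintro rfl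
      rw [mem_sphere_zero_iff_norm, norm_zero] at hx0
      norm_num at hx0
    have hc0pos : 0 < c0 := by
      have := hM.dotProduct_mulVec_pos hx00
      simpa using this
    have hcard : (0 : ℝ) < Fintype.card n := by exact_mod_cast Fintype.card_pos
    refine ⟨c0 / Fintype.card n, div_pos hc0pos hcard, fun x => ?_⟩
    by_cases hx : x = 0
    · subst hx; simp [dotProduct]
    · have hnx : 0 < ‖x‖ := norm_pos_iff.mpr hx
      have h1 : (‖x‖⁻¹ • x) ∈ Metric.sphere (0 : n → ℝ) 1 := by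
        rw [mem_sphere_zero_iff_norm, norm_smul, norm_inv, norm_norm, inv_mul_cancel₀ hnx.ne']
      have h2 : c0 ≤ (‖x‖⁻¹ • x) ⬝ᵥ (M *ᵥ (‖x‖⁻¹ • x)) := hmin h1
      rw [Matrix.mulVec_smul, dotProduct_smul, smul_dotProduct, smul_eq_mul, smul_eq_mul] at h2
      have h3 : c0 * ‖x‖ ^ 2 ≤ x ⬝ᵥ (M *ᵥ x) := by
        have h4 : ‖x‖⁻¹ * (‖x‖⁻¹ * (x ⬝ᵥ (M *ᵥ x))) = (x ⬝ᵥ (M *ᵥ x)) / ‖x‖ ^ 2 := by
          field_simp
        rw [h4, le_div_iff₀ (by positivity)] at h2
        exact h2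
      have h5 : ∑ i, x i ^ 2 ≤ Fintype.card n * ‖x‖ ^ 2 := by
        have : ∀ i ∈ (Finset.univ : Finset n), x i ^ 2 ≤ ‖x‖ ^ 2 := by
          intro i _
          have h6 := norm_le_pi_norm x i
          rw [Real.norm_eq_abs] at h6
          rw [← sq_abs]
          exact pow_le_pow_left₀ (abs_nonneg _) h6 2
        calc ∑ i, x i ^ 2 ≤ ∑ _i : n, ‖x‖ ^ 2 := Finset.sum_le_sum this
          _ = Fintype.card n * ‖x‖ ^ 2 := by simp
      calc c0 / Fintype.card n * ∑ i, x i ^ 2 ≤ c0 / Fintype.card n * (Fintype.card n * ‖x‖ ^ 2) :=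
            mul_le_mul_of_nonneg_left h5 (by positivity)
        _ = c0 * ‖x‖ ^ 2 := by field_simp
        _ ≤ _ := h3

end H60TS
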