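import Mathlib

/-!
Linear recurrent functions on the integers: closure properties, the space of solutions of a
recurrence with periodic coefficients, and the passage from a recurrence over the field to a
recurrence with invariant coefficients.
-/

namespace H60TS
open Polynomial

section Rec

variable {K : Type*} [Field K]

/-- the shift by n on functions on the integers -/
def sh (n : ℤ) : (ℤ → K) →ₗ[K] (ℤ → K) where
  toFun f := fun s => f (s + n)
  map_add' _ _ := rfl
  map_smul' _ _ := rfl

@[simp] lemma sh_apply (n : ℤ) (f : ℤ → K) (s : ℤ) : sh n f s = f (s + n) := rfl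

/-- f lies in a finite dimensional space of functions which is stable under a positive shift -/
def IsRec (f : ℤ → K) : Prop :=
  ∃ p : ℕ, 0 < p ∧ ∃ V : Submodule K (ℤ → K), V.FG ∧ (∀ g ∈ V, sh (p : ℤ) g ∈ V) ∧ f ∈ V

lemma sh_iter {V : Submodule K (ℤ → K)} {p : ℤ} (h : ∀ g ∈ V, sh p g ∈ V) (n : ℕ) :
    ∀ g ∈ V, sh (n * p) g ∈ V := by
  induction n with
  | zero => intro g hg; simpa [sh] using hg
  | succ n ih =>
    intro g hg
    have := h _ (ih g hg)
    convert this using 1
    funext s
    simp only [sh_apply]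
    congr 1
    push_cast
    ring

lemma IsRec.of_per {f : ℤ → K} (p : ℕ) (hp : 0 < p) (h : ∀ s, f (s + p) = f s) : IsRec f := by
  refine ⟨p, hp, Submodule.span K {f}, Submodule.fg_span_singleton f, ?_,
    Submodule.mem_span_singleton_self f⟩
  intro g hg
  rw [Submodule.mem_span_singleton] at hg ⊢
  obtain ⟨c, rfl⟩ := hg
  refine ⟨c, ?_⟩
  funext s
  simp [h]

lemma IsRec.const (c : K) : IsRec (fun _ : ℤ => c) := IsRec.of_per 1 one_pos (fun _ => rfl)

lemma IsRec.add {f g : ℤ → K} (hf : IsRec f) (hg : IsRec g) : IsRec (fun s => f s + g s) := by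
  obtain ⟨p, hp, V, hV, hV', hfV⟩ := hf
  obtain ⟨q, hq, W, hW, hW', hgW⟩ := hg
  refine ⟨p * q, Nat.mul_pos hp hq, V ⊔ W, hV.sup hW, ?_, ?_⟩
  · intro u hu
    rw [Submodule.mem_sup] at hu
    obtain ⟨y, hy, z, hz, rfl⟩ := hu
    rw [map_add]
    refine Submodule.add_mem_sup ?_ ?_
    · have := sh_iter hV' q y hy
      have e : ((p * q : ℕ) : ℤ) = (q : ℤ) * p := by push_cast; ring
      rw [e]; exact this
    · have := sh_iter hW' p z hz
      have e : ((p * q : ℕ) : ℤ) = (p : ℤ) * q := by push_cast; ring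
      rw [e]; exact this
  · exact Submodule.add_mem_sup hfV hgW

lemma sh_mul (n : ℤ) (f g : ℤ → K) : sh n (f * g) = sh n f * sh n g := rfl

lemma IsRec.mul {f g : ℤ → K} (hf : IsRec f) (hg : IsRec g) : IsRec (fun s => f s * g s) := by
  obtain ⟨p, hp, V, hV, hV', hfV⟩ := hf
  obtain ⟨q, hq, W, hW, hW', hgW⟩ := hg
  refine ⟨p * q, Nat.mul_pos hp hq, V * W, hV.mul hW, ?_, ?_⟩
  · intro u hu
    refine Submodule.mul_induction_on hu ?_ ?_
    · intro y hy z hz
      rw [sh_mul]
      refine Submodule.mul_mem_mul ?_ ?_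
      · have := sh_iter hV' q y hy
        have e : ((p * q : ℕ) : ℤ) = (q : ℤ) * p := by push_cast; ring
        rw [e]; exact this
      · have := sh_iter hW' p z hz
        have e : ((p * q : ℕ) : ℤ) = (p : ℤ) * q := by push_cast; ring
        rw [e]; exact this
    · intro y z hy hz
      rw [map_add]
      exact Submodule.add_mem _ hy hz
  · exact Submodule.mul_mem_mul hfV hgW

lemma IsRec.smul {f : ℤ → K} (c : K) (hf : IsRec f) : IsRec (fun s => c * f s) :=
  (IsRec.const c).mul hf

lemma IsRec.neg {f : ℤ → K} (hf : IsRec f) : IsRec (fun s => - f s) := by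
  simpa using hf.smul (-1)

lemma IsRec.sub {f g : ℤ → K} (hf : IsRec f) (hg : IsRec g) : IsRec (fun s => f s - g s) := by
  simpa [sub_eq_add_neg] using hf.add hg.neg

lemma IsRec.shift {f : ℤ → K} (n : ℤ) (hf : IsRec f) : IsRec (fun s => f (s + n)) := by
  obtain ⟨p, hp, V, hV, hV', hfV⟩ := hf
  refine ⟨p, hp, V.map (sh n), hV.map _, ?_, ?_⟩
  · intro g hg
    rw [Submodule.mem_map] at hg ⊢
    obtain ⟨y, hy, rfl⟩ := hg
    refine ⟨sh p y, hV' y hy, ?_⟩
    funext s
    simp only [sh_apply]
    congr 1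
    ring
  · exact Submodule.mem_map_of_mem hfV

lemma IsRec.sum {ι : Type*} (t : Finset ι) (f : ι → ℤ → K) (h : ∀ i ∈ t, IsRec (f i)) :
    IsRec (fun s => ∑ i ∈ t, f i s) := by
  classical
  induction t using Finset.induction_on with
  | empty => simpa using IsRec.const (0 : K)
  | insert i t hi ih =>
    have h1 := h i (Finset.mem_insert_self i t)
    have h2 := ih (fun j hj => h j (Finset.mem_insert_of_mem hj))
    have := h1.add h2
    simpa [Finset.sum_insert hi] using this

lemma IsRec.prod {ι : Type*} (t : Finset ι) (f : ι → ℤ → K) (h : ∀ i ∈ t, IsRec (f i)) :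
    IsRec (fun s => ∏ i ∈ t, f i s) := by
  classical
  induction t using Finset.induction_on with
  | empty => simpa using IsRec.const (1 : K)
  | insert i t hi ih =>
    have h1 := h i (Finset.mem_insert_self i t)
    have h2 := ih (fun j hj => h j (Finset.mem_insert_of_mem hj))
    have := h1.mul h2
    simpa [Finset.prod_insert hi] using this

lemma IsRec.det {n : ℕ} (M : ℤ → Matrix (Fin n) (Fin n) K)
    (h : ∀ i j, IsRec (fun s => M s i j)) : IsRec (fun s => (M s).det) := by
  simp only [Matrix.det_apply']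
  refine IsRec.sum _ _ (fun σ _ => ?_)
  exact (IsRec.const _).mul (IsRec.prod _ _ (fun i _ => h _ _))

/-! ### solutions of a recurrence with periodic coefficients -/

/-- solutions of g k = sum of nu i k * g (k+1+i) over i < D -/
def Sol (D : ℕ) (nu : ℕ → ℤ → K) : Submodule K (ℤ → K) where
  carrier := {g | ∀ k, g k = ∑ i ∈ Finset.range D, nu i k * g (k + 1 + i)}
  zero_mem' := by intro k; simp
  add_mem' := by
    intro f g hf hg k
    simp only [Set.mem_ofPred_eq] at hf hg
    simp only [Pi.add_apply, mul_add, Finset.sum_add_distrib]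
    rw [hf k, hg k]
  smul_mem' := by
    intro c f hf k
    simp only [Set.mem_ofPred_eq] at hf
    simp only [Pi.smul_apply, smul_eq_mul]
    rw [hf k, Finset.mul_sum]
    refine Finset.sum_congr rfl (fun i _ => ?_)
    ring

lemma mem_Sol {D : ℕ} {nu : ℕ → ℤ → K} {g : ℤ → K} :
    g ∈ Sol D nu ↔ ∀ k, g k = ∑ i ∈ Finset.range D, nu i k * g (k + 1 + i) := Iff.rfl

lemma Sol_zero {D : ℕ} {nu : ℕ → ℤ → K} (hnu : ∀ k, nu D k ≠ 0) {g : ℤ → K}
    (hg : g ∈ Sol (D + 1) nu) (h0 : ∀ i < D + 1, g (i : ℤ) = 0) : g = 0 := by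
  rw [mem_Sol] at hg
  have key : ∀ k : ℤ, ∀ i : ℕ, i < D + 1 → g (k + i) = 0 := by
    intro k
    induction k using Int.induction_on with
    | zero => intro i hi; simpa using h0 i hi
    | succ k ih =>
      intro i hi
      have h1 := hg (k : ℤ)
      have h2 : g (k : ℤ) = 0 := by simpa using ih 0 (by omega)
      rw [h2, Finset.sum_range_succ, Finset.sum_eq_zero] at h1
      · by_cases hiD : i = D
        · subst hiD
          have := hnu (k : ℤ)
          have h3 : nu i (k : ℤ) * g (k + 1 + i) = 0 := by simpa using h1.symm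
          rcases mul_eq_zero.mp h3 with h | h
          · exact absurd h this
          · exact h
        · have := ih (i + 1) (by omega)
          rw [← this]
          congr 1
          push_cast
          ring
      · intro j hj
        rw [Finset.mem_range] at hj
        have := ih (j + 1) (by omega)
        have e : (k : ℤ) + 1 + j = (k : ℤ) + ((j + 1 : ℕ) : ℤ) := by push_cast; ring
        rw [e, this, mul_zero]
    | pred k ih =>
      intro i hi
      rcases Nat.eq_zero_or_pos i with h | h
      · subst h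
        have h1 := hg (-(k : ℤ) - 1)
        have : g (-(k : ℤ) - 1 + (0 : ℕ)) = g (-(k : ℤ) - 1) := by simp
        rw [this, h1]
        refine Finset.sum_eq_zero (fun j hj => ?_)
        rw [Finset.mem_range] at hj
        have := ih j hj
        have e : -(k : ℤ) - 1 + 1 + j = -(k : ℤ) + j := by ring
        rw [e, this, mul_zero]
      · have := ih (i - 1) (by omega)
        rw [← this]
        congr 1
        have : ((i - 1 : ℕ) : ℤ) = (i : ℤ) - 1 := by omega
        rw [this]
        ring
  funext k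
  have := key k 0 (by omega)
  simpa using this

/-- coordinates: there are recurrent functions u p with g k = sum of g p * u p k for all
solutions g. -/
lemma Sol_basis {D : ℕ} {nu : ℕ → ℤ → K} (hnu : ∀ k, nu D k ≠ 0) (N : ℕ) (hN : 0 < N)
    (hper : ∀ i k, nu i (k + N) = nu i k) :
    ∃ u : Fin (D + 1) → ℤ → K, (∀ p, IsRec (u p)) ∧
      ∀ g ∈ Sol (D + 1) nu, ∀ k, g k = ∑ p : Fin (D + 1), g ((p : ℕ) : ℤ) * u p k := by
  classical
  let ev : Sol (D + 1) nu →ₗ[K] (Fin (D + 1) → K) :=
    { toFun := fun g p => g.1 ((p : ℕ) : ℤ)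
      map_add' := fun _ _ => rfl
      map_smul' := fun _ _ => rfl }
  have hinj : LinearMap.ker ev = ⊥ := by
    rw [LinearMap.ker_eq_bot']
    intro g hg
    apply Subtype.ext
    refine Sol_zero hnu g.2 (fun i hi => ?_)
    exact congrFun hg ⟨i, hi⟩
  have hfin : Module.Finite K (Sol (D + 1) nu) :=
    Module.Finite.of_injective ev (LinearMap.ker_eq_bot.mp hinj)
  obtain ⟨L, hL⟩ := LinearMap.exists_leftInverse_of_injective ev hinj
  refine ⟨fun p => (L (Pi.single p 1)).1, ?_, ?_⟩
  · intro p
    refine ⟨N, hN, Sol (D + 1) nu, (Submodule.fg_top _).mp hfin.fg_top, ?_, (L _).2⟩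
    intro g hg k
    rw [mem_Sol] at hg
    simp only [sh_apply]
    rw [hg (k + N)]
    refine Finset.sum_congr rfl (fun i _ => ?_)
    rw [hper]
    congr 2
    ring
  · intro g hg k
    have h1 : L (ev ⟨g, hg⟩) = ⟨g, hg⟩ := by
      have := LinearMap.congr_fun hL ⟨g, hg⟩
      simpa using this
    have h2 : ev ⟨g, hg⟩ = ∑ p : Fin (D + 1), g ((p : ℕ) : ℤ) • (Pi.single p (1 : K)) := by
      funext q
      simp [ev, Finset.sum_apply, Pi.single_apply]
    rw [h2, map_sum] at h1
    have h3 := congrArg (fun z : Sol (D + 1) nu => z.1 k) h1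
    simp only [map_smul, Submodule.coe_sum, Submodule.coe_smul, Finset.sum_apply, Pi.smul_apply,
      smul_eq_mul] at h3
    exact h3.symm

/-! ### invariant coefficients -/

lemma sh_one_pow (k : ℕ) (f : ℤ → K) (r : ℤ) : ((sh (K := K) 1) ^ k) f r = f (r + k) := by
  induction k generalizing f r with
  | zero => simp
  | succ k ih =>
    rw [pow_succ, Module.End.mul_apply, ih]
    simp only [sh_apply]
    congr 1
    push_cast
    ring

lemma aeval_sh (g : K[X]) (f : ℤ → K) (r : ℤ) :
    (aeval (sh (K := K) 1) g) f r = ∑ k ∈ Finset.range (g.natDegree + 1), g.coeff k * f (r + k) := by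
  rw [aeval_eq_sum_range]
  simp only [LinearMap.sum_apply, Finset.sum_apply, LinearMap.smul_apply, Pi.smul_apply,
    smul_eq_mul, sh_one_pow]

lemma IsRec.exists_monic {f : ℤ → K} (hf : IsRec f) :
    ∃ g : K[X], g.Monic ∧ aeval (sh (K := K) 1) g f = 0 := by
  obtain ⟨p, hp, V, hV, hV', hfV⟩ := hf
  have : Module.Finite K V := Module.Finite.iff_fg.mpr hV
  let T : V →ₗ[K] V := (sh (K := K) (p : ℤ)).restrict hV'
  have h1 : aeval T T.charpoly = 0 := T.aeval_self_charpoly
  refine ⟨expand K p T.charpoly, ?_, ?_⟩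
  · exact (LinearMap.charpoly_monic T).expand hp
  · rw [expand_aeval]
    have hpow : (sh (K := K) 1) ^ p = sh (p : ℤ) := by
      apply LinearMap.ext
      intro f
      funext r
      rw [sh_one_pow]
      rfl
    rw [hpow]
    have h2 : ∀ q : K[X], ((aeval T q) ⟨f, hfV⟩ : V).1 = aeval (sh (K := K) (p : ℤ)) q f := by
      intro q
      rw [aeval_eq_sum_range, aeval_eq_sum_range]
      simp only [LinearMap.sum_apply, LinearMap.smul_apply, Submodule.coe_sum, Submodule.coe_smul]
      refine Finset.sum_congr rfl (fun k _ => ?_)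
      congr 1
      have : ∀ (k : ℕ) (v : V), ((T ^ k) v).1 = ((sh (K := K) (p : ℤ)) ^ k) v.1 := by
        intro k
        induction k with
        | zero => intro v; simp
        | succ k ih =>
          intro v
          rw [pow_succ, pow_succ, Module.End.mul_apply, Module.End.mul_apply, ih]
          rfl
      exact this k ⟨f, hfV⟩
    rw [← h2, h1]
    rfl

/-- A recurrent sequence moved by a field endomorphism satisfies an alternating recurrence with
invariant coefficients, first and last coefficient one. -/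
theorem invariant_recurrence (σ : K →+* K) {f : ℤ → K} (hf : IsRec f)
    (hσ : ∀ r, f (r + 1) = σ (f r)) :
    ∃ (N : ℕ) (J : ℕ → K), J 0 = 1 ∧ J (N + 1) = 1 ∧ (∀ k ≤ N + 1, σ (J k) = J k) ∧
      ∀ r : ℤ, ∑ k ∈ Finset.range (N + 2), (-1) ^ k * J k * f (r + ((N : ℤ) + 1 - k)) = 0 := by
  classical
  -- the annihilating monic polynomial of least degree
  have hex : ∃ d : ℕ, ∃ g : K[X], g.Monic ∧ aeval (sh (K := K) 1) g f = 0 ∧ g.natDegree = d := by
    obtain ⟨g, hg, hg'⟩ := hf.exists_monic
    exact ⟨_, g, hg, hg', rfl⟩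
  obtain ⟨mu, hmu, hmu0, hdeg⟩ := Nat.find_spec hex
  set d := Nat.find hex with hd
  have hmin : ∀ g : K[X], g ≠ 0 → aeval (sh (K := K) 1) g f = 0 → d ≤ g.natDegree := by
    intro g hg hg0
    by_contra hlt
    push Not at hlt
    refine Nat.find_min hex hlt ⟨g * C g.leadingCoeff⁻¹, monic_mul_leadingCoeff_inv hg, ?_, ?_⟩
    · rw [mul_comm, map_mul, Module.End.mul_apply, hg0, map_zero]
    · rw [natDegree_mul_leadingCoeff_inv g hg]
  have hmap : ∀ g : K[X], aeval (sh (K := K) 1) g f = 0 →
      aeval (sh (K := K) 1) (g.map σ) f = 0 := by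
    intro g hg
    funext r
    rw [aeval_sh, natDegree_map]
    have h1 := congrFun hg (r - 1)
    rw [aeval_sh] at h1
    have h2 := congrArg σ h1
    rw [map_sum] at h2
    simp only [Pi.zero_apply, map_zero] at h2 ⊢
    rw [← h2]
    refine Finset.sum_congr rfl (fun k _ => ?_)
    rw [coeff_map, map_mul, ← hσ]
    congr 2
    ring
  -- invariance
  have hinv : mu.map σ = mu := by
    by_contra hne
    have hsub : mu.map σ - mu ≠ 0 := sub_ne_zero.mpr hne
    have h1 : aeval (sh (K := K) 1) (mu.map σ - mu) f = 0 := by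
      rw [map_sub, LinearMap.sub_apply, hmap mu hmu0, hmu0, sub_zero]
    have h2 := hmin _ hsub h1
    have h3 : (mu.map σ - mu).degree < (mu.map σ).degree := by
      refine degree_sub_lt_left ?_ ?_ ?_
      · rw [degree_map]
      · exact (hmu.map σ).ne_zero
      · rw [(hmu.map σ).leadingCoeff, hmu.leadingCoeff]
    have h4 : (mu.map σ - mu).natDegree < (mu.map σ).natDegree :=
      natDegree_lt_natDegree hsub h3
    rw [natDegree_map] at h4
    omega
  -- nonzero constant term
  have hinj : ∀ g : ℤ → K, sh (K := K) 1 g = 0 → g = 0 := by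
    intro g hg
    funext s
    have := congrFun hg (s - 1)
    simpa using this
  have hc0 : mu.coeff 0 ≠ 0 := by
    intro h0
    have hX : X ∣ mu := X_dvd_iff.mpr h0
    obtain ⟨q, hq⟩ := hX
    have hq0 : q ≠ 0 := by
      rintro rfl
      rw [mul_zero] at hq
      exact hmu.ne_zero hq
    have h1 : aeval (sh (K := K) 1) q f = 0 := by
      apply hinj
      have := hmu0
      rw [hq, map_mul, aeval_X, Module.End.mul_apply] at this
      exact this
    have h2 := hmin q hq0 h1
    have h3 : mu.natDegree = q.natDegree + 1 := by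
      rw [hq, natDegree_X_mul hq0]
    omega
  -- the modified polynomial
  set e : K := (-1) ^ d * (mu.coeff 0)⁻¹ with he
  have hcinv : ∀ k, σ (mu.coeff k) = mu.coeff k := by
    intro k
    rw [← coeff_map, hinv]
  have heinv : σ e = e := by
    rw [he, map_mul, map_pow, map_neg, map_one, map_inv₀, hcinv]
  set q : K[X] := (X - C e) * mu with hqdef
  have hqmonic : q.Monic := (monic_X_sub_C e).mul hmu
  have hqdeg : q.natDegree = d + 1 := by
    rw [hqdef, (monic_X_sub_C e).natDegree_mul hmu, natDegree_X_sub_C, hdeg]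
    ring
  have hq0 : aeval (sh (K := K) 1) q f = 0 := by
    rw [hqdef, map_mul, Module.End.mul_apply, hmu0, map_zero]
  have hqmap : q.map σ = q := by
    rw [hqdef, Polynomial.map_mul, Polynomial.map_sub, map_X, map_C, heinv, hinv]
  have hqc : ∀ k, σ (q.coeff k) = q.coeff k := by
    intro k
    rw [← coeff_map, hqmap]
  have hq00 : q.coeff 0 = (-1) ^ (d + 1) := by
    rw [hqdef, mul_coeff_zero, coeff_sub, coeff_X_zero, coeff_C_zero, he]
    rw [pow_succ]
    field_simp
    ring
  refine ⟨d, fun k => (-1) ^ k * q.coeff (d + 1 - k), ?_, ?_, ?_, ?_⟩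
  · simp only [pow_zero, one_mul, Nat.sub_zero]
    have := hqmonic.coeff_natDegree
    rwa [hqdeg] at this
  · simp only [Nat.sub_self]
    rw [hq00, ← pow_add, Even.neg_one_pow]
    exact ⟨d + 1, rfl⟩
  · intro k _
    rw [map_mul, map_pow, map_neg, map_one, hqc]
  · intro r
    have h1 := congrFun hq0 r
    rw [aeval_sh, hqdeg] at h1
    simp only [Pi.zero_apply] at h1
    rw [← Finset.sum_range_reflect] at h1
    rw [← h1]
    refine Finset.sum_congr rfl (fun k hk => ?_)
    rw [Finset.mem_range] at hk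
    have h2 : (-1 : K) ^ k * ((-1) ^ k * q.coeff (d + 1 - k)) = q.coeff (d + 1 - k) := by
      rw [← mul_assoc, ← pow_add, Even.neg_one_pow ⟨k, rfl⟩, one_mul]
    simp only [h2]
    have e1 : d + 1 + 1 - 1 - k = d + 1 - k := by omega
    rw [e1]
    have e2 : ((d + 1 - k : ℕ) : ℤ) = (d : ℤ) + 1 - k := by omega
    rw [e2]

end Rec

end H60TS
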