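import Pool.Agent.H60.TS.Sys

/-!
The linear relation between consecutive vectors and its consequences.
-/

namespace H60TS
open CliffordAlgebra

variable {K : Type*} [Field K] {E : Type*} [AddCommGroup E] [Module K E]

lemma ι_mul_wd_mem (x : E) (L : List E) (h : x ∈ L) :
    ι (0 : QuadraticForm K E) x * wd K L = 0 := by
  induction L with
  | nil => simp at h
  | cons y L ih =>
    rw [wd_cons, ← mul_assoc]
    by_cases hxy : x = y
    · subst hxy
      rw [ι_sq_scalar]
      simp
    · have hx : x ∈ L := by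
        rcases List.mem_cons.mp h with h | h
        · exact absurd h hxy
        · exact h
      rw [FD.ι_anticomm, neg_mul, mul_assoc, ih hx, mul_zero, neg_zero]

lemma contract_wd (φ : Module.Dual K E) (L : List E) (h : ∀ x ∈ L, φ x = 0) :
    contractLeft φ (wd K L) = 0 := by
  induction L with
  | nil => simp
  | cons y L ih =>
    rw [wd_cons, contractLeft_ι_mul, h y (List.mem_cons_self ..), zero_smul,
      ih (fun x hx => h x (List.mem_cons_of_mem _ hx)), mul_zero, sub_zero]

lemma mem_win {E : Type*} (e : ℤ → E) (s : ℤ) (n : ℕ) (x : E) :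
    x ∈ win e s n ↔ ∃ i < n, x = e (s + (i : ℕ)) := by
  induction n with
  | zero => simp [win]
  | succ n ih =>
    rw [win, seg_succ', List.mem_append]
    rw [win] at ih
    rw [ih]
    constructor
    · rintro (⟨i, hi, rfl⟩ | h)
      · exact ⟨i, by omega, rfl⟩
      · rw [List.mem_singleton] at h
        exact ⟨n, by omega, h⟩
    · rintro ⟨i, hi, rfl⟩
      rcases Nat.lt_or_ge i n with h | h
      · left; exact ⟨i, h, rfl⟩
      · right
        rw [List.mem_singleton]
        have : i = n := by omega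
        rw [this]

/-- the vector e k minus a combination of the next n vectors -/
def rv (e : ℤ → E) (n : ℕ) (nu : ℕ → K) (k : ℤ) : E :=
  e k - ∑ i ∈ Finset.range n, nu i • e (k + 1 + i)

/-- the relation for one form datum -/
lemma exists_rel (F : FD K E) (e : ℤ → E) (n : ℕ) (k : ℤ)
    (hB : DM (fun u v => F.Φ u v) n (fun i => e (k + 1 + i)) (fun i => e (k + 1 + i)) ≠ 0)
    (h1 : (F.Th (wd K (win e (k + 1) n))).1 ≠ 0) (h2 : (F.Th (wd K (win e (k + 1) n))).2 ≠ 0)
    (h0 : F.Th (wd K (win e k (n + 1))) = 0) :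
    ∃ nu : ℕ → K, F.a (rv e n nu k) = 0 ∧ F.b (rv e n nu k) = 0 ∧
      ∀ i ≤ n, F.Φ (rv e n nu k) (e (k + i)) = 0 ∧ F.Φ (e (k + i)) (rv e n nu k) = 0 := by
  set G : Matrix (Fin n) (Fin n) K :=
    Matrix.of fun i j : Fin n => F.Φ (e (k + 1 + i)) (e (k + 1 + j)) with hG
  have hdet : IsUnit G.det := isUnit_iff_ne_zero.mpr hB
  set w : Fin n → K := Matrix.vecMul (fun j : Fin n => F.Φ (e k) (e (k + 1 + j))) G⁻¹ with hw
  have hwG : Matrix.vecMul w G = fun j : Fin n => F.Φ (e k) (e (k + 1 + j)) := by
    rw [hw, Matrix.vecMul_vecMul, Matrix.nonsing_inv_mul _ hdet, Matrix.vecMul_one]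
  let nu : ℕ → K := fun i => if h : i < n then w ⟨i, h⟩ else 0
  have hnu : ∀ i : Fin n, nu i = w i := by
    intro i
    simp [nu]
  set r := rv e n nu k with hr
  have hΦ : ∀ x : E, F.Φ r x = F.Φ (e k) x - ∑ i : Fin n, w i * F.Φ (e (k + 1 + i)) x := by
    intro x
    rw [hr, rv, map_sub, LinearMap.sub_apply, map_sum, LinearMap.sum_apply,
      ← Fin.sum_univ_eq_sum_range (fun i => F.Φ (nu i • e (k + 1 + i)) x) n]
    congr 1
    refine Finset.sum_congr rfl (fun i _ => ?_)
    rw [map_smul, LinearMap.smul_apply, hnu, smul_eq_mul]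
  have hrow : ∀ j : Fin n, F.Φ r (e (k + 1 + j)) = 0 := by
    intro j
    rw [hΦ]
    have := congrFun hwG j
    simp only [Matrix.vecMul, dotProduct, hG, Matrix.of_apply] at this
    rw [this, sub_self]
  -- the functionals vanish
  have hcon : contractLeft (F.Φ r) (wd K (win e (k + 1) n)) = 0 := by
    apply contract_wd
    intro x hx
    rw [mem_win] at hx
    obtain ⟨i, hi, rfl⟩ := hx
    exact hrow ⟨i, hi⟩
  have hι : ι (0 : QuadraticForm K E) r * wd K (win e (k + 1) n) = wd K (win e k (n + 1)) := by
    rw [win_succ, wd_cons, hr, rv, map_sub, sub_mul, map_sum, Finset.sum_mul,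
      Finset.sum_eq_zero, sub_zero]
    intro i hi
    rw [map_smul, smul_mul_assoc, ι_mul_wd_mem, smul_zero]
    rw [mem_win]
    exact ⟨i, Finset.mem_range.mp hi, rfl⟩
  have hTh := F.Th_ι_mul r (wd K (win e (k + 1) n))
  rw [hcon, map_zero, sub_zero, hι, h0] at hTh
  have ha : F.a r = 0 := by
    have := congrArg Prod.fst hTh
    simp only [FD.rho_apply, Prod.fst_zero] at this
    exact (mul_eq_zero.mp this.symm).resolve_right h2
  have hb : F.b r = 0 := by
    have := congrArg Prod.snd hTh
    simp only [FD.rho_apply, Prod.snd_zero] at this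
    exact (mul_eq_zero.mp this.symm).resolve_right h1
  have hcol : ∀ x, F.Φ x r = - F.Φ r x := by
    intro x
    have := F.symm r x
    rw [ha, hb] at this
    linear_combination this
  have hk : F.Φ r (e k) = 0 := by
    have hek : e k = r + ∑ i ∈ Finset.range n, nu i • e (k + 1 + i) := by
      rw [hr, rv, sub_add_cancel]
    rw [hek, map_add, F.h, ha, zero_mul, zero_add, map_sum]
    refine Finset.sum_eq_zero (fun i hi => ?_)
    rw [map_smul, hrow ⟨i, Finset.mem_range.mp hi⟩, smul_zero]
  have hall : ∀ i ≤ n, F.Φ r (e (k + i)) = 0 := by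
    intro i hi
    rcases i with _ | i
    · simpa using hk
    · have := hrow ⟨i, by omega⟩
      rw [← this]
      congr 2
      push_cast
      ring
  refine ⟨nu, ha, hb, fun i hi => ⟨hall i hi, ?_⟩⟩
  rw [hcol, hall i hi, neg_zero]

/-- a vector killed by a matrix with zero determinant: row version -/
lemma kill_last {n : ℕ} (M : Matrix (Fin (n + 1)) (Fin (n + 1)) K) (v : Fin (n + 1) → K) (z : K)
    (hdet : M.det = 0) (hv : Matrix.vecMul v M = fun j => if j = Fin.last n then z else 0)
    (hminor : (M.submatrix Fin.succ Fin.castSucc).det ≠ 0) : z = 0 := by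
  have h1 : Matrix.vecMul (Matrix.vecMul v M) M.adjugate = 0 := by
    rw [Matrix.vecMul_vecMul, Matrix.mul_adjugate, hdet, zero_smul, Matrix.vecMul_zero]
  have h2 := congrFun h1 0
  rw [hv] at h2
  simp only [Matrix.vecMul, dotProduct, ite_mul, zero_mul, Finset.sum_ite_eq', Finset.mem_univ,
    if_true, Pi.zero_apply] at h2
  rw [Matrix.adjugate_fin_succ_eq_det_submatrix] at h2
  have e1 : M.submatrix (Fin.succAbove 0) (Fin.succAbove (Fin.last n)) =
      M.submatrix Fin.succ Fin.castSucc := by
    ext i j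
    simp
  rw [e1] at h2
  rcases mul_eq_zero.mp h2 with h | h
  · exact h
  · exfalso
    rcases mul_eq_zero.mp h with h | h
    · exact pow_ne_zero _ (by norm_num : (-1 : K) ≠ 0) h
    · exact hminor h

/-- column version -/
lemma kill_first {n : ℕ} (M : Matrix (Fin (n + 1)) (Fin (n + 1)) K) (v : Fin (n + 1) → K) (z : K)
    (hdet : M.det = 0) (hv : Matrix.mulVec M v = fun j => if j = 0 then z else 0)
    (hminor : (M.submatrix Fin.succ Fin.succ).det ≠ 0) : z = 0 := by
  have h1 : Matrix.mulVec M.adjugate (Matrix.mulVec M v) = 0 := by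
    rw [Matrix.mulVec_mulVec, Matrix.adjugate_mul, hdet, zero_smul, Matrix.zero_mulVec]
  have h2 := congrFun h1 0
  rw [hv] at h2
  simp only [Matrix.mulVec, dotProduct, mul_ite, mul_zero, Finset.sum_ite_eq', Finset.mem_univ,
    if_true, Pi.zero_apply] at h2
  rw [Matrix.adjugate_fin_succ_eq_det_submatrix] at h2
  have e1 : M.submatrix (Fin.succAbove 0) (Fin.succAbove 0) =
      M.submatrix Fin.succ Fin.succ := by
    ext i j
    simp
  rw [e1] at h2
  rcases mul_eq_zero.mp h2 with h | h
  · exfalso
    rcases mul_eq_zero.mp h with h | h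
    · exact pow_ne_zero _ (by norm_num : (-1 : K) ≠ 0) h
    · exact hminor h
  · exact h

/-- the relation operator on functions -/
def Rop (n : ℕ) (nu : ℕ → K) (g : ℤ → K) (k : ℤ) : K :=
  g k - ∑ i ∈ Finset.range n, nu i * g (k + 1 + i)

lemma map_rv (f : E →ₗ[K] K) (e : ℤ → E) (n : ℕ) (nu : ℕ → K) (k : ℤ) :
    f (rv e n nu k) = Rop n nu (fun x => f (e x)) k := by
  simp only [rv, Rop, map_sub, map_sum, map_smul, smul_eq_mul]

lemma Rop_congr (n : ℕ) (nu nu' : ℕ → K) (g : ℤ → K) (k : ℤ) (h : ∀ i < n, nu i = nu' i) :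
    Rop n nu g k = Rop n nu' g k := by
  rw [Rop, Rop]
  congr 1
  refine Finset.sum_congr rfl (fun i hi => ?_)
  rw [h i (Finset.mem_range.mp hi)]

lemma Rop_add (n : ℕ) (nu : ℕ → K) (g g' : ℤ → K) (k : ℤ) :
    Rop n nu (fun x => g x + g' x) k = Rop n nu g k + Rop n nu g' k := by
  simp only [Rop, mul_add, Finset.sum_add_distrib]
  ring

lemma Rop_mul (n : ℕ) (nu : ℕ → K) (g : ℤ → K) (c : K) (k : ℤ) :
    Rop n nu (fun x => g x * c) k = Rop n nu g k * c := by
  simp only [Rop, sub_mul, Finset.sum_mul, mul_assoc]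

/-- the coefficient vector of the relation -/
def cv (nu : ℕ → K) : ℕ → K
  | 0 => 1
  | i + 1 => - nu i

lemma Rop_eq_sum (n : ℕ) (nu : ℕ → K) (g : ℤ → K) (k : ℤ) :
    Rop n nu g k = ∑ i : Fin (n + 1), cv nu i * g (k + i) := by
  rw [Fin.sum_univ_succ, Rop, sub_eq_add_neg, ← Finset.sum_neg_distrib,
    ← Fin.sum_univ_eq_sum_range (fun i => -(nu i * g (k + 1 + i))) n]
  congr 1
  · simp [cv]
  · refine Finset.sum_congr rfl (fun i _ => ?_)
    simp only [Fin.val_succ, cv, neg_mul]
    congr 3
    push_cast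
    ring

section

variable {N m : ℕ} {S : Sys K N m}

/-- the relation in the two-fork system -/
theorem relation (R : Rz S E) : ∃ nu : ℕ → ℤ → K,
    (∀ k, Rop (m + 1) (fun i => nu i k) (S.P 1) k = 0) ∧
    (∀ k, Rop (m + 1) (fun i => nu i k) (S.Q 1) k = 0) ∧
    (∀ k, Rop (m + 1) (fun i => nu i k) (S.P' 1) k = 0) ∧
    (∀ k, Rop (m + 1) (fun i => nu i k) (S.Q' 1) k = 0) ∧
    (∀ k l, Rop (m + 1) (fun i => nu i k) (fun x => S.ker x l) k = 0) ∧
    (∀ k l, Rop (m + 1) (fun i => nu i k) (fun x => S.ker l x) k = 0) ∧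
    (∀ i k, nu i (k + N) = nu i k) ∧ (∀ k, nu m k ≠ 0) := by
  have hN := S.hN
  have hW := window R
  have W1 : ∀ d ≤ N, ∀ s, S.W d (m + 1) s = 1 := by
    intro d hd s
    rw [← (hW (m + 1) (by omega) s).2.2.2.2 d hd, S.T1 d hd]
  have W2 : ∀ d ≤ N, ∀ s, S.W d (m + 2) s = 0 := by
    intro d hd s
    rw [← (hW (m + 2) le_rfl s).2.2.2.2 d hd, S.T2 d hd]
  -- relation at the first fork
  have e0 : ∀ k, ∃ nu : ℕ → K, R.S0.a (rv R.e (m + 1) nu k) = 0 ∧
      R.S0.b (rv R.e (m + 1) nu k) = 0 ∧
      ∀ i ≤ m + 1, R.S0.Φ (rv R.e (m + 1) nu k) (R.e (k + i)) = 0 ∧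
        R.S0.Φ (R.e (k + i)) (rv R.e (m + 1) nu k) = 0 := by
    intro k
    apply exists_rel
    · have h := W1 0 (Nat.zero_le _) (k + 1)
      rw [Sys.W] at h
      have : DM (fun u v => R.S0.Φ u v) (m + 1) (fun i => R.e (k + 1 + i))
          (fun i => R.e (k + 1 + i)) = 1 := by
        rw [← h]
        simp only [DM, R.Φ0]
        congr 1
        ext i j
        simp
      rw [this]
      exact one_ne_zero
    · rw [← (hW (m + 1) (by omega) (k + 1)).1, S.P1]
      exact one_ne_zero
    · rw [← (hW (m + 1) (by omega) (k + 1)).2.1, S.Q1]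
      exact one_ne_zero
    · ext
      · rw [← (hW (m + 2) (by omega) k).1, S.P2]; rfl
      · rw [← (hW (m + 2) (by omega) k).2.1, S.Q2]; rfl
  have e1 : ∀ k, ∃ nu : ℕ → K, R.S1.a (rv R.e (m + 1) nu k) = 0 ∧
      R.S1.b (rv R.e (m + 1) nu k) = 0 ∧
      ∀ i ≤ m + 1, R.S1.Φ (rv R.e (m + 1) nu k) (R.e (k + i)) = 0 ∧
        R.S1.Φ (R.e (k + i)) (rv R.e (m + 1) nu k) = 0 := by
    intro k
    apply exists_rel
    · have h := W1 N le_rfl (k + 1)
      rw [Sys.W] at h
      have : DM (fun u v => R.S1.Φ u v) (m + 1) (fun i => R.e (k + 1 + i))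
          (fun i => R.e (k + 1 + i)) = 1 := by
        rw [← h, ← DM_transpose]
        simp only [DM, R.Φ1]
        congr 1
        ext i j
        simp only [Matrix.of_apply]
        congr 1
        ring
      rw [this]
      exact one_ne_zero
    · rw [← (hW (m + 1) (by omega) (k + 1)).2.2.1, S.P'1]
      exact one_ne_zero
    · rw [← (hW (m + 1) (by omega) (k + 1)).2.2.2.1, S.Q'1]
      exact one_ne_zero
    · ext
      · rw [← (hW (m + 2) (by omega) k).2.2.1, S.P'2]; rfl
      · rw [← (hW (m + 2) (by omega) k).2.2.2.1, S.Q'2]; rfl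
  choose nu0 ha0 hb0 hΦ0 using e0
  choose nu1 ha1 hb1 hΦ1 using e1
  -- translate to functions
  have fa0 : ∀ k, Rop (m + 1) (nu0 k) (S.P 1) k = 0 := by
    intro k
    have := ha0 k
    rw [map_rv] at this
    simpa only [R.a0] using this
  have fb0 : ∀ k, Rop (m + 1) (nu0 k) (S.Q 1) k = 0 := by
    intro k
    have := hb0 k
    rw [map_rv] at this
    simpa only [R.b0] using this
  have fa1 : ∀ k, Rop (m + 1) (nu1 k) (S.P' 1) k = 0 := by
    intro k
    have := ha1 k
    rw [map_rv] at this
    simpa only [R.a1] using this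
  have fb1 : ∀ k, Rop (m + 1) (nu1 k) (S.Q' 1) k = 0 := by
    intro k
    have := hb1 k
    rw [map_rv] at this
    simpa only [R.b1] using this
  have gA0 : ∀ k, ∀ i ≤ m + 1, Rop (m + 1) (nu0 k) (fun x => S.ker x (k + i)) k = 0 := by
    intro k i hi
    have := (hΦ0 k i hi).1
    have h2 := map_rv (LinearMap.flip R.S0.Φ (R.e (k + i))) R.e (m + 1) (nu0 k) k
    simp only [LinearMap.flip_apply, R.Φ0] at h2
    rw [← h2, this]
  have gB0 : ∀ k, ∀ i ≤ m + 1, Rop (m + 1) (nu0 k) (fun x => S.ker (k + i) x) k = 0 := by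
    intro k i hi
    have := (hΦ0 k i hi).2
    have h2 := map_rv (R.S0.Φ (R.e (k + i))) R.e (m + 1) (nu0 k) k
    simp only [R.Φ0] at h2
    rw [← h2, this]
  have gA1 : ∀ k, ∀ i ≤ m + 1, Rop (m + 1) (nu1 k) (fun x => S.ker (k + i) (x + N)) k = 0 := by
    intro k i hi
    have := (hΦ1 k i hi).1
    have h2 := map_rv (LinearMap.flip R.S1.Φ (R.e (k + i))) R.e (m + 1) (nu1 k) k
    simp only [LinearMap.flip_apply, R.Φ1] at h2
    rw [← h2, this]
  have gB1 : ∀ k, ∀ i ≤ m + 1, Rop (m + 1) (nu1 k) (fun x => S.ker x (k + i + N)) k = 0 := by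
    intro k i hi
    have := (hΦ1 k i hi).2
    have h2 := map_rv (R.S1.Φ (R.e (k + i))) R.e (m + 1) (nu1 k) k
    simp only [R.Φ1] at h2
    rw [← h2, this]
  -- right extension
  have right : ∀ k, ∀ d ≤ N, ∀ i ≤ m + 1,
      Rop (m + 1) (nu0 k) (fun x => S.ker x (k + d + i)) k = 0 := by
    intro k d
    induction d with
    | zero => intro _ i hi; simpa using gA0 k i hi
    | succ d ih =>
      intro hd i hi
      have ih' := ih (by omega)
      rcases Nat.lt_or_ge i (m + 1) with h | h
      · have := ih' (i + 1) (by omega)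
        rw [← this]
        congr 1
        funext x
        congr 1
        push_cast
        ring
      · have hi' : i = m + 1 := by omega
        subst hi'
        refine kill_last (Matrix.of fun a b : Fin (m + 2) =>
          S.ker (k + a) (k + ((d + 1 : ℕ) : ℤ) + b)) (fun a => cv (nu0 k) a) _ (W2 (d + 1) hd k)
          ?_ ?_
        · funext b
          have h1 : Matrix.vecMul (fun a : Fin (m + 2) => cv (nu0 k) a)
              (Matrix.of fun a b : Fin (m + 2) => S.ker (k + a) (k + ((d + 1 : ℕ) : ℤ) + b)) b =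
              Rop (m + 1) (nu0 k) (fun x => S.ker x (k + ((d + 1 : ℕ) : ℤ) + b)) k := by
            rw [Rop_eq_sum]
            rfl
          rw [h1]
          by_cases hb : b = Fin.last (m + 1)
          · rw [if_pos hb, hb]
            simp
          · rw [if_neg hb]
            have hb' : (b : ℕ) < m + 1 := by
              have := b.2
              have h3 : (b : ℕ) ≠ m + 1 := fun h => hb (Fin.ext h)
              omega
            have := ih' (b + 1) (by omega)
            rw [← this]
            congr 1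
            funext x
            congr 1
            push_cast
            ring
        · have := W1 d (by omega) (k + 1)
          have h2 : ((Matrix.of fun a b : Fin (m + 2) =>
              S.ker (k + a) (k + ((d + 1 : ℕ) : ℤ) + b)).submatrix Fin.succ Fin.castSucc).det =
              S.W d (m + 1) (k + 1) := by
            rw [Sys.W, DM]
            congr 1
            ext a b
            simp only [Matrix.submatrix_apply, Matrix.of_apply, Fin.val_succ, Fin.val_castSucc]
            congr 1
            · push_cast; ring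
            · push_cast; ring
          rw [h2, this]
          exact one_ne_zero
  -- left extension
  have left : ∀ k, ∀ d ≤ N, ∀ i ≤ m + 1,
      Rop (m + 1) (nu0 k) (fun x => S.ker (k - d + i) x) k = 0 := by
    intro k d
    induction d with
    | zero => intro _ i hi; simpa using gB0 k i hi
    | succ d ih =>
      intro hd i hi
      have ih' := ih (by omega)
      rcases Nat.eq_zero_or_pos i with h | h
      · subst h
        refine kill_first (Matrix.of fun a b : Fin (m + 2) =>
          S.ker (k - ((d + 1 : ℕ) : ℤ) + a) (k - ((d + 1 : ℕ) : ℤ) + ((d + 1 : ℕ) : ℤ) + b))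
          (fun a => cv (nu0 k) a) _ (W2 (d + 1) hd (k - ((d + 1 : ℕ) : ℤ))) ?_ ?_
        · funext a
          have h1 : Matrix.mulVec (Matrix.of fun a b : Fin (m + 2) =>
              S.ker (k - ((d + 1 : ℕ) : ℤ) + a) (k - ((d + 1 : ℕ) : ℤ) + ((d + 1 : ℕ) : ℤ) + b))
              (fun a : Fin (m + 2) => cv (nu0 k) a) a =
              Rop (m + 1) (nu0 k) (fun x => S.ker (k - ((d + 1 : ℕ) : ℤ) + a) x) k := by
            rw [Rop_eq_sum]
            simp only [Matrix.mulVec, dotProduct, Matrix.of_apply, sub_add_cancel]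
            exact Finset.sum_congr rfl (fun i _ => mul_comm _ _)
          rw [h1]
          by_cases hb : a = 0
          · rw [if_pos hb, hb]
            simp
          · rw [if_neg hb]
            have hb' : 0 < (a : ℕ) := by
              have h3 : (a : ℕ) ≠ 0 := fun h => hb (Fin.ext h)
              omega
            have := ih' (a - 1) (by have := a.2; omega)
            rw [← this]
            congr 1
            funext x
            congr 1
            have : ((a - 1 : ℕ) : ℤ) = (a : ℤ) - 1 := by omega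
            rw [this]
            push_cast
            ring
        · have := W1 (d + 1) (by omega) (k - d)
          have h2 : ((Matrix.of fun a b : Fin (m + 2) =>
              S.ker (k - ((d + 1 : ℕ) : ℤ) + a)
                (k - ((d + 1 : ℕ) : ℤ) + ((d + 1 : ℕ) : ℤ) + b)).submatrix Fin.succ Fin.succ).det =
              S.W (d + 1) (m + 1) (k - d) := by
            rw [Sys.W, DM]
            congr 1
            ext a b
            simp only [Matrix.submatrix_apply, Matrix.of_apply, Fin.val_succ]
            congr 1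
            · push_cast; ring
            · push_cast; ring
          rw [h2, this]
          exact one_ne_zero
      · have := ih' (i - 1) (by omega)
        rw [← this]
        congr 1
        funext x
        congr 1
        have : ((i - 1 : ℕ) : ℤ) = (i : ℤ) - 1 := by omega
        rw [this]
        push_cast
        ring
  -- the symmetrised identity
  have hsym : ∀ k l, Rop (m + 1) (nu0 k) (fun x => S.ker x l) k +
      Rop (m + 1) (nu0 k) (fun x => S.ker l x) k = 0 := by
    intro k l
    rw [← Rop_add]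
    have : (fun x => S.ker x l + S.ker l x) = fun x => S.P 1 x * S.Q 1 l + S.Q 1 x * S.P 1 l := by
      funext x; exact S.R0 x l
    rw [this, Rop_add, Rop_mul, Rop_mul, fa0, fb0]
    ring
  -- comparison of coefficients
  have cmp1 : ∀ k, ∀ i < m + 1, nu1 k i = nu0 (k + N) i := by
    intro k
    have hdet : (Matrix.of fun a b : Fin (m + 1) =>
        S.ker (k + 1 + a) (k + 1 + N + b)).det ≠ 0 := by
      have := W1 N le_rfl (k + 1)
      rw [Sys.W, DM] at this
      rw [this]
      exact one_ne_zero
    have hz := Matrix.eq_zero_of_mulVec_eq_zero hdet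
      (v := fun i : Fin (m + 1) => nu1 k i - nu0 (k + N) i) (by
        funext a
        simp only [Matrix.mulVec, dotProduct, Matrix.of_apply, Pi.zero_apply]
        have h1 := gA1 k (a + 1) (by have := a.2; omega)
        have h2 := left (k + N) N le_rfl (a + 1) (by have := a.2; omega)
        rw [Rop] at h1 h2
        rw [← Fin.sum_univ_eq_sum_range (fun i => nu1 k i *
          S.ker (k + ((a + 1 : ℕ) : ℤ)) (k + 1 + i + N)) (m + 1)] at h1
        rw [← Fin.sum_univ_eq_sum_range (fun i => nu0 (k + N) i *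
          S.ker (k + N - N + ((a + 1 : ℕ) : ℤ)) (k + N + 1 + i)) (m + 1)] at h2
        have h3 : ∀ i : Fin (m + 1), S.ker (k + 1 + a) (k + 1 + N + i) * (nu1 k i - nu0 (k + N) i) =
            nu1 k i * S.ker (k + ((a + 1 : ℕ) : ℤ)) (k + 1 + i + N) -
            nu0 (k + N) i * S.ker (k + N - N + ((a + 1 : ℕ) : ℤ)) (k + N + 1 + i) := by
          intro i
          have q1 : k + ((a + 1 : ℕ) : ℤ) = k + 1 + a := by push_cast; ring
          have q2 : k + N - N + ((a + 1 : ℕ) : ℤ) = k + 1 + a := by push_cast; ring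
          have q3 : k + 1 + (i : ℤ) + N = k + 1 + N + i := by ring
          have q4 : k + N + 1 + (i : ℤ) = k + 1 + N + i := by ring
          rw [q1, q2, q3, q4]
          ring
        rw [Finset.sum_congr rfl (fun i _ => h3 i), Finset.sum_sub_distrib]
        have q5 : k + (N : ℤ) - N + ((a + 1 : ℕ) : ℤ) = k + ((a + 1 : ℕ) : ℤ) := by ring
        rw [q5] at h2 ⊢
        linear_combination h2 - h1)
    intro i hi
    have := congrFun hz ⟨i, hi⟩
    simpa [sub_eq_zero] using this
  have cmp0 : ∀ k, ∀ i < m + 1, nu1 k i = nu0 k i := by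
    intro k
    have hdet : (Matrix.of fun a b : Fin (m + 1) =>
        S.ker (k + 1 + a) (k + 1 + N + b)).det ≠ 0 := by
      have := W1 N le_rfl (k + 1)
      rw [Sys.W, DM] at this
      rw [this]
      exact one_ne_zero
    have hz := Matrix.eq_zero_of_vecMul_eq_zero hdet
      (v := fun i : Fin (m + 1) => nu1 k i - nu0 k i) (by
        funext b
        simp only [Matrix.vecMul, dotProduct, Matrix.of_apply, Pi.zero_apply]
        have h1 := gB1 k (b + 1) (by have := b.2; omega)
        have h2 := right k N le_rfl (b + 1) (by have := b.2; omega)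
        rw [Rop] at h1 h2
        rw [← Fin.sum_univ_eq_sum_range (fun i => nu1 k i *
          S.ker (k + 1 + i) (k + ((b + 1 : ℕ) : ℤ) + N)) (m + 1)] at h1
        rw [← Fin.sum_univ_eq_sum_range (fun i => nu0 k i *
          S.ker (k + 1 + i) (k + N + ((b + 1 : ℕ) : ℤ))) (m + 1)] at h2
        have q5 : k + ((b + 1 : ℕ) : ℤ) + N = k + 1 + N + b := by push_cast; ring
        have q6 : k + N + ((b + 1 : ℕ) : ℤ) = k + 1 + N + b := by push_cast; ring
        rw [q5] at h1
        rw [q6] at h2
        simp only [sub_mul]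
        rw [Finset.sum_sub_distrib]
        linear_combination h2 - h1)
    intro i hi
    have := congrFun hz ⟨i, hi⟩
    simpa [sub_eq_zero] using this
  have per : ∀ k, ∀ i < m + 1, nu0 (k + N) i = nu0 k i := by
    intro k i hi
    rw [← cmp1 k i hi, cmp0 k i hi]
  have fa' : ∀ k, Rop (m + 1) (nu0 k) (S.P' 1) k = 0 := by
    intro k
    rw [← Rop_congr (m + 1) (nu1 k) (nu0 k) _ k (cmp0 k), fa1]
  have fb' : ∀ k, Rop (m + 1) (nu0 k) (S.Q' 1) k = 0 := by
    intro k
    rw [← Rop_congr (m + 1) (nu1 k) (nu0 k) _ k (cmp0 k), fb1]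
  -- the translation identity
  have trans : ∀ k l, Rop (m + 1) (nu0 k) (fun x => S.ker x (l + N)) k =
      Rop (m + 1) (nu0 (k + N)) (fun x => S.ker x l) (k + N) := by
    intro k l
    have h1 : Rop (m + 1) (nu0 k) (fun x => S.ker x (l + N)) k +
        Rop (m + 1) (nu0 k) (fun x => S.ker l (x + N)) k = 0 := by
      rw [← Rop_add]
      have : (fun x => S.ker x (l + N) + S.ker l (x + N)) =
          fun x => S.P' 1 x * S.Q' 1 l + S.Q' 1 x * S.P' 1 l := by
        funext x; exact S.R1 x l
      rw [this, Rop_add, Rop_mul, Rop_mul, fa', fb']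
      ring
    have h2 : Rop (m + 1) (nu0 k) (fun x => S.ker l (x + N)) k =
        Rop (m + 1) (nu0 (k + N)) (fun x => S.ker l x) (k + N) := by
      rw [Rop, Rop]
      congr 1
      refine Finset.sum_congr rfl (fun i hi => ?_)
      rw [per k i (Finset.mem_range.mp hi)]
      congr 2
      ring
    have h3 := hsym (k + N) l
    rw [h2] at h1
    linear_combination h1 - h3
  -- vanishing everywhere
  have near : ∀ k l : ℤ, (l - k).natAbs ≤ N →
      Rop (m + 1) (nu0 k) (fun x => S.ker x l) k = 0 := by
    intro k l h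
    rcases le_total k l with h1 | h1
    · have := right k (l - k).toNat (by omega) 0 (Nat.zero_le _)
      have e : k + (((l - k).toNat : ℕ) : ℤ) + ((0 : ℕ) : ℤ) = l := by omega
      rw [e] at this
      exact this
    · have := left k (k - l).toNat (by omega) 0 (Nat.zero_le _)
      have e : k - (((k - l).toNat : ℕ) : ℤ) + ((0 : ℕ) : ℤ) = l := by omega
      rw [e] at this
      have h2 := hsym k l
      rw [this, add_zero] at h2
      exact h2
  have all : ∀ n : ℕ, ∀ k l : ℤ, (l - k).natAbs ≤ n →
      Rop (m + 1) (nu0 k) (fun x => S.ker x l) k = 0 := by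
    intro n
    induction n with
    | zero => intro k l h; exact near k l (by omega)
    | succ n ih =>
      intro k l h
      rcases Nat.lt_or_ge N (l - k).natAbs with h1 | h1
      · rcases le_total k l with h2 | h2
        · have h3 := trans k (l - N)
          rw [sub_add_cancel] at h3
          rw [h3]
          exact ih _ _ (by omega)
        · have h3 := trans (k - N) l
          rw [sub_add_cancel] at h3
          rw [← h3]
          exact ih _ _ (by omega)
      · exact near k l h1
  have A : ∀ k l : ℤ, Rop (m + 1) (nu0 k) (fun x => S.ker x l) k = 0 :=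
    fun k l => all _ k l le_rfl
  have B : ∀ k l : ℤ, Rop (m + 1) (nu0 k) (fun x => S.ker l x) k = 0 := by
    intro k l
    have := hsym k l
    rw [A, zero_add] at this
    exact this
  -- the last coefficient
  have last : ∀ k, nu0 k m ≠ 0 := by
    intro k hzero
    have hdet := W1 1 hN k
    have : (Matrix.of fun a b : Fin (m + 1) => S.ker (k + a) (k + ((1 : ℕ) : ℤ) + b)).det = 0 := by
      rw [← Matrix.exists_vecMul_eq_zero_iff]
      refine ⟨fun a => cv (nu0 k) a, ?_, ?_⟩
      · intro h
        have := congrFun h 0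
        simp [cv] at this
      · funext b
        simp only [Matrix.vecMul, dotProduct, Matrix.of_apply, Pi.zero_apply]
        have h1 := A k (k + ((1 : ℕ) : ℤ) + b)
        rw [Rop_eq_sum, Fin.sum_univ_castSucc] at h1
        simp only [Fin.val_castSucc, Fin.val_last, cv, hzero, neg_zero, zero_mul, add_zero] at h1
        exact h1
    rw [Sys.W, DM] at hdet
    rw [this] at hdet
    exact zero_ne_one hdet
  refine ⟨fun i k => if i < m + 1 then nu0 k i else 0, ?_, ?_, ?_, ?_, ?_, ?_, ?_, ?_⟩
  · intro k
    rw [Rop_congr (m + 1) _ (nu0 k) _ k (fun i hi => if_pos hi), fa0]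
  · intro k
    rw [Rop_congr (m + 1) _ (nu0 k) _ k (fun i hi => if_pos hi), fb0]
  · intro k
    rw [Rop_congr (m + 1) _ (nu0 k) _ k (fun i hi => if_pos hi), fa']
  · intro k
    rw [Rop_congr (m + 1) _ (nu0 k) _ k (fun i hi => if_pos hi), fb']
  · intro k l
    rw [Rop_congr (m + 1) _ (nu0 k) _ k (fun i hi => if_pos hi), A]
  · intro k l
    rw [Rop_congr (m + 1) _ (nu0 k) _ k (fun i hi => if_pos hi), B]
  · intro i k
    by_cases h : i < m + 1
    · simp only [h, if_true]
      exact per k i h
    · simp only [h, if_false]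
  · intro k
    simp only [Nat.lt_succ_self, if_true]
    exact last k

end

end H60TS
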