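import Pool.Agent.H60.TS.Clif
import Pool.Agent.H60.TS.Det

/-!
Window functions: iterated elimination, the principal minors and the shifted minors.
-/

namespace H60TS
open CliffordAlgebra

variable {K : Type*} [Field K] {E : Type*} [AddCommGroup E] [Module K E]

/-- product of the vectors of a list in the exterior algebra -/
noncomputable def wd (K : Type*) [Field K] {E : Type*} [AddCommGroup E] [Module K E]
    (L : List E) : CliffordAlgebra (0 : QuadraticForm K E) :=
  (L.map (ι (0 : QuadraticForm K E))).prod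

@[simp] lemma wd_nil : wd K ([] : List E) = 1 := by simp [wd]
@[simp] lemma wd_cons (y : E) (L : List E) : wd K (y :: L) = ι 0 y * wd K L := by simp [wd]
lemma wd_append (L L' : List E) : wd K (L ++ L') = wd K L * wd K L' := by simp [wd]

/-- iterated swap -/
def swp : ℕ → K × K → K × K
  | 0, x => x
  | n + 1, x => (swp n x).swap

lemma swp_mul (n : ℕ) (x y : K × K) : swp n (x * y) = swp n x * swp n y := by
  induction n with
  | zero => rfl
  | succ n ih => simp only [swp, ih]; rfl

lemma ι_mul_wd (x : E) (B : List E) :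
    ι (0 : QuadraticForm K E) x * wd K B = (-1 : K) ^ B.length • (wd K B * ι 0 x) := by
  induction B with
  | nil => simp
  | cons y B ih =>
    rw [wd_cons, ← mul_assoc, FD.ι_anticomm, neg_mul, mul_assoc, ih, List.length_cons, pow_succ,
      mul_smul_comm, mul_assoc]
    simp

/-- segment of a sequence -/
def seg {E : Type*} : (ℕ → E) → ℕ → List E
  | _, 0 => []
  | y, n + 1 => y 0 :: seg (fun i => y (i + 1)) n

@[simp] lemma seg_zero {E : Type*} (y : ℕ → E) : seg y 0 = [] := rfl
lemma seg_succ {E : Type*} (y : ℕ → E) (n : ℕ) : seg y (n + 1) = y 0 :: seg (fun i => y (i + 1)) n := rfl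

lemma seg_succ' {E : Type*} (y : ℕ → E) (n : ℕ) : seg y (n + 1) = seg y n ++ [y n] := by
  induction n generalizing y with
  | zero => rfl
  | succ n ih => rw [seg_succ, ih, seg_succ]; rfl

@[simp] lemma seg_length {E : Type*} (y : ℕ → E) (n : ℕ) : (seg y n).length = n := by
  induction n generalizing y with
  | zero => rfl
  | succ n ih => rw [seg_succ, List.length_cons, ih]

/-- put a vector in front of a sequence -/
def consq {E : Type*} (x : E) (y : ℕ → E) : ℕ → E := fun i => Nat.casesOn i x y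

@[simp] lemma consq_zero {E : Type*} (x : E) (y : ℕ → E) : consq x y 0 = x := rfl
@[simp] lemma consq_succ {E : Type*} (x : E) (y : ℕ → E) (i : ℕ) : consq x y (i + 1) = y i := rfl

namespace FD

open Classical in
/-- total version of the elimination -/
noncomputable def redt (S : FD K E) (y : E) : FD K E :=
  if h : S.a y ≠ 0 ∧ S.b y ≠ 0 then S.red y h.1 h.2 else S

lemma redt_eq {S : FD K E} {y : E} (ha : S.a y ≠ 0) (hb : S.b y ≠ 0) :
    S.redt y = S.red y ha hb := by
  rw [redt, dif_pos ⟨ha, hb⟩]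

/-- elimination of a list -/
noncomputable def redL : FD K E → List E → FD K E
  | S, [] => S
  | S, y :: B => redL (S.redt y) B

/-- all pivots are nonzero -/
def Nd : FD K E → List E → Prop
  | _, [] => True
  | S, y :: B => S.a y ≠ 0 ∧ S.b y ≠ 0 ∧ Nd (S.redt y) B

lemma Nd_append (S : FD K E) (B : List E) (w : E) :
    Nd S (B ++ [w]) ↔ Nd S B ∧ (S.redL B).a w ≠ 0 ∧ (S.redL B).b w ≠ 0 := by
  induction B generalizing S with
  | nil => simp [Nd, redL]
  | cons y B ih =>
    simp only [List.cons_append, Nd, redL]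
    rw [ih]
    tauto

lemma Th_wd_mul (B : List E) : ∀ (S : FD K E), Nd S B →
    ∀ x, S.Th (wd K B * x) = S.Th (wd K B) * swp B.length ((S.redL B).Th x) := by
  induction B with
  | nil => intro S _ x; rw [wd_nil, one_mul, Th_one]; ext <;> simp [swp, redL]
  | cons y B ih =>
    intro S h x
    obtain ⟨ha, hb, h⟩ := h
    rw [wd_cons, mul_assoc, Th_elim ha hb, Th_elim ha hb, ← redt_eq ha hb, ih _ h]
    ext <;> simp [swp, redL, mul_assoc]

lemma Nd_seg (S : FD K E) (y : ℕ → E) (n : ℕ)
    (h : ∀ i ≤ n, (S.Th (wd K (seg y i))).1 ≠ 0 ∧ (S.Th (wd K (seg y i))).2 ≠ 0) :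
    Nd S (seg y n) := by
  induction n with
  | zero => exact trivial
  | succ n ih =>
    have h1 := ih (fun i hi => h i (by omega))
    rw [seg_succ', Nd_append]
    refine ⟨h1, ?_⟩
    have h2 := h (n + 1) le_rfl
    rw [seg_succ', wd_append, Th_wd_mul _ _ h1, wd_cons, wd_nil, mul_one, Th_ι] at h2
    have key : ∀ (n : ℕ) (u v : K × K), (u * swp n v).1 ≠ 0 ∧ (u * swp n v).2 ≠ 0 →
        v.1 ≠ 0 ∧ v.2 ≠ 0 := by
      intro n
      induction n with
      | zero =>
        intro u v ⟨h1, h2⟩
        simp only [swp, Prod.fst_mul, Prod.snd_mul] at h1 h2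
        exact ⟨right_ne_zero_of_mul h1, right_ne_zero_of_mul h2⟩
      | succ n ih =>
        intro u v ⟨h1, h2⟩
        apply ih u.swap v
        simp only [swp, Prod.fst_mul, Prod.snd_mul, Prod.fst_swap, Prod.snd_swap] at h1 h2 ⊢
        exact ⟨h2, h1⟩
    exact key _ _ _ h2

/-- principal minors -/
lemma DM_princ (n : ℕ) : ∀ (S : FD K E) (y : ℕ → E), Nd S (seg y n) →
    DM (fun u v => S.Φ u v) (n + 1) y y =
      (S.Th (wd K (seg y (n + 1)))).1 * (S.Th (wd K (seg y (n + 1)))).2 := by
  induction n with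
  | zero =>
    intro S y _
    rw [DM_one, S.h, seg_succ, seg_zero, wd_cons, wd_nil, mul_one, Th_ι]
  | succ n ih =>
    intro S y hN
    rw [seg_succ] at hN
    obtain ⟨ha, hb, hN⟩ := hN
    have hp : S.Φ (y 0) (y 0) ≠ 0 := by rw [S.h]; exact mul_ne_zero ha hb
    rw [DM_pivot (fun u v => S.Φ u v) (fun u v => (S.red (y 0) ha hb).Φ u v) (n + 1) y y hp
      (by intro u v; rw [red_Φ, S.h])]
    rw [redt_eq ha hb] at hN
    rw [ih _ _ hN, seg_succ y (n + 1), wd_cons, Th_elim ha hb, S.h]
    simp only [rho_apply]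
    ring

lemma DM_princ' (n : ℕ) (S : FD K E) (y : ℕ → E) (h : Nd S (seg y n)) :
    DM (fun u v => S.Φ u v) n y y =
      (S.Th (wd K (seg y n))).1 * (S.Th (wd K (seg y n))).2 := by
  rcases n with _ | n
  · simp
  · apply DM_princ
    rw [seg_succ', Nd_append] at h
    exact h.1

/-- shifted minors -/
lemma DM_F (n : ℕ) : ∀ (S : FD K E) (x : E) (y : ℕ → E), Nd S (seg y n) →
    DM (fun u v => S.Φ u v) (n + 1) (consq x y) y =
      (-1) ^ n * ((S.Th (wd K (seg y n))).1 * (S.Th (wd K (seg y n))).2) *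
        (S.redL (seg y n)).Φ x (y n) := by
  induction n with
  | zero =>
    intro S x y _
    rw [DM_one]
    simp [consq, redL]
  | succ n ih =>
    intro S x y hN
    rw [seg_succ] at hN
    obtain ⟨ha, hb, hN⟩ := hN
    have hp : S.Φ (y 0) (y 0) ≠ 0 := by rw [S.h]; exact mul_ne_zero ha hb
    have hsw : DM (fun u v => S.Φ u v) (n + 2) (consq x y) y =
        - DM (fun u v => S.Φ u v) (n + 2) (consq (y 0) (consq x (fun k => y (k + 1)))) y :=
      DM_swap _ n x y y
    rw [hsw, DM_pivot (fun u v => S.Φ u v) (fun u v => (S.red (y 0) ha hb).Φ u v) (n + 1)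
      (consq (y 0) (consq x (fun k => y (k + 1)))) y hp (by intro u v; rw [red_Φ, consq_zero, S.h])]
    have e1 : (fun i => consq (y 0) (consq x fun k => y (k + 1)) (i + 1)) =
        consq x (fun k => y (k + 1)) := rfl
    rw [e1]
    rw [redt_eq ha hb] at hN
    rw [ih _ _ _ hN, seg_succ y n, wd_cons, Th_elim ha hb]
    simp only [rho_apply, consq_zero, redL]
    rw [redt_eq ha hb, S.h]
    ring

omit [Field K] in
lemma swp_cases (n : ℕ) (x : K × K) : (Even n ∧ swp n x = x) ∨ (¬ Even n ∧ swp n x = x.swap) := by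
  induction n with
  | zero => left; exact ⟨⟨0, rfl⟩, rfl⟩
  | succ n ih =>
    rcases ih with ⟨h1, h2⟩ | ⟨h1, h2⟩
    · right
      refine ⟨by rw [Nat.even_add_one, not_not]; exact h1, ?_⟩
      simp [swp, h2]
    · left
      refine ⟨by rw [Nat.even_add_one]; exact h1, ?_⟩
      simp [swp, h2]

/-- the shifted minor through the window functions -/
lemma DM_shift (n : ℕ) (S : FD K E) (x : E) (y : ℕ → E) (h : Nd S (seg y n)) :
    DM (fun u v => S.Φ u v) (n + 1) (consq x y) y =
        (S.Th (wd K (seg y (n + 1)))).1 * (S.Th (wd K (x :: seg y n))).2 -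
        (S.Th (wd K (x :: seg y (n + 1)))).2 * (S.Th (wd K (seg y n))).1 ∧
    DM (fun u v => S.Φ u v) (n + 1) (consq x y) y =
        (S.Th (wd K (seg y (n + 1)))).2 * (S.Th (wd K (x :: seg y n))).1 -
        (S.Th (wd K (x :: seg y (n + 1)))).1 * (S.Th (wd K (seg y n))).2 := by
  rw [DM_F n S x y h]
  have hw : S.Th (wd K (seg y (n + 1))) =
      S.Th (wd K (seg y n)) * swp n ((S.redL (seg y n)).a (y n), (S.redL (seg y n)).b (y n)) := by
    rw [seg_succ', wd_append, Th_wd_mul _ _ h, wd_cons, wd_nil, mul_one, Th_ι, seg_length]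
  have hx : S.Th (wd K (x :: seg y n)) = (-1 : K) ^ n •
      (S.Th (wd K (seg y n)) * swp n ((S.redL (seg y n)).a x, (S.redL (seg y n)).b x)) := by
    rw [wd_cons, ι_mul_wd, map_smul, Th_wd_mul _ _ h, Th_ι, seg_length]
  have hxw : S.Th (wd K (x :: seg y (n + 1))) = (-1 : K) ^ n •
      (S.Th (wd K (seg y n)) * swp n ((S.redL (seg y n)).a x * (S.redL (seg y n)).b (y n) -
        (S.redL (seg y n)).Φ x (y n), (S.redL (seg y n)).b x * (S.redL (seg y n)).a (y n) -
        (S.redL (seg y n)).Φ x (y n))) := by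
    rw [wd_cons, seg_succ', wd_append, ← mul_assoc, ι_mul_wd, smul_mul_assoc, map_smul, mul_assoc,
      Th_wd_mul _ _ h, seg_length, wd_cons, wd_nil, mul_one, Th_ι_mul, contractLeft_ι, Th_ι,
      Algebra.algebraMap_eq_smul_one, map_smul, Th_one]
    congr 3
    ext <;> simp
  rw [hw, hx, hxw]
  rcases swp_cases n ((S.redL (seg y n)).a (y n), (S.redL (seg y n)).b (y n)) with ⟨h1, h2⟩ | ⟨h1, h2⟩
  · have h3 : ∀ z : K × K, swp n z = z := by
      intro z
      rcases swp_cases n z with h | h
      · exact h.2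
      · exact absurd h1 h.1
    rw [h3, h3, h3]
    simp only [Prod.fst_mul, Prod.snd_mul, Prod.smul_fst, Prod.smul_snd, smul_eq_mul]
    constructor <;> ring
  · have h3 : ∀ z : K × K, swp n z = z.swap := by
      intro z
      rcases swp_cases n z with h | h
      · exact absurd h.1 h1
      · exact h.2
    rw [h3, h3, h3]
    simp only [Prod.fst_mul, Prod.snd_mul, Prod.smul_fst, Prod.smul_snd, smul_eq_mul,
      Prod.fst_swap, Prod.snd_swap]
    constructor <;> ring

end FD

end H60TS
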