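import Pool.Agent.H60.TS.Rec
import Pool.Agent.H60.TS.Win

/-!
The abstract two-fork system, its kernel and the window theorem.
-/

namespace H60TS
open CliffordAlgebra

/-- two forks (P,Q) and (P',Q') joined by the nodes T 1, ..., T (N-1), in levels 0, ..., m+2 -/
structure Sys (K : Type*) [Field K] (N m : ℕ) where
  P : ℕ → ℤ → K
  Q : ℕ → ℤ → K
  P' : ℕ → ℤ → K
  Q' : ℕ → ℤ → K
  T : ℕ → ℕ → ℤ → K
  hN : 1 ≤ N
  T0 : ∀ j s, T 0 j s = P j s * Q j s
  TN : ∀ j s, T N j s = P' j s * Q' j s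
  P0 : ∀ s, P 0 s = 1
  Q0 : ∀ s, Q 0 s = 1
  P'0 : ∀ s, P' 0 s = 1
  Q'0 : ∀ s, Q' 0 s = 1
  Tz : ∀ d, d ≤ N → ∀ s, T d 0 s = 1
  P1 : ∀ s, P (m + 1) s = 1
  Q1 : ∀ s, Q (m + 1) s = 1
  P'1 : ∀ s, P' (m + 1) s = 1
  Q'1 : ∀ s, Q' (m + 1) s = 1
  T1 : ∀ d, d ≤ N → ∀ s, T d (m + 1) s = 1
  P2 : ∀ s, P (m + 2) s = 0
  Q2 : ∀ s, Q (m + 2) s = 0
  P'2 : ∀ s, P' (m + 2) s = 0
  Q'2 : ∀ s, Q' (m + 2) s = 0
  T2 : ∀ d, d ≤ N → ∀ s, T d (m + 2) s = 0
  nzP : ∀ j ≤ m + 1, ∀ s, P j s ≠ 0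
  nzQ : ∀ j ≤ m + 1, ∀ s, Q j s ≠ 0
  nzP' : ∀ j ≤ m + 1, ∀ s, P' j s ≠ 0
  nzQ' : ∀ j ≤ m + 1, ∀ s, Q' j s ≠ 0
  nzT : ∀ d ≤ N, ∀ j ≤ m + 1, ∀ s, T d j s ≠ 0
  rel0 : ∀ j ≤ m, ∀ s, P (j + 1) (s + 1) * Q (j + 1) s =
    T 1 (j + 1) s + Q (j + 2) s * P j (s + 1)
  rel0' : ∀ j ≤ m, ∀ s, Q (j + 1) (s + 1) * P (j + 1) s =
    T 1 (j + 1) s + P (j + 2) s * Q j (s + 1)
  rel1 : ∀ j ≤ m, ∀ s, P' (j + 1) (s + 1) * Q' (j + 1) s =
    T (N - 1) (j + 1) (s + 1) + Q' (j + 2) s * P' j (s + 1)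
  rel1' : ∀ j ≤ m, ∀ s, Q' (j + 1) (s + 1) * P' (j + 1) s =
    T (N - 1) (j + 1) (s + 1) + P' (j + 2) s * Q' j (s + 1)
  relC : ∀ d, d + 1 < N → ∀ j ≤ m, ∀ s, T (d + 1) (j + 1) (s + 1) * T (d + 1) (j + 1) s =
    T (d + 2) (j + 1) s * T d (j + 1) (s + 1) + T (d + 1) (j + 2) s * T (d + 1) j (s + 1)

variable {K : Type*} [Field K] {N m : ℕ}

namespace Sys

variable (S : Sys K N m)

/-- the kernel -/
noncomputable def ker (k l : ℤ) : K :=
  have _hN : 1 ≤ N := S.hN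
  if _h : k ≤ l ∧ l ≤ k + N then S.T (l - k).toNat 1 k
  else if _h' : l < k then S.P 1 k * S.Q 1 l + S.Q 1 k * S.P 1 l - ker l k
  else S.P' 1 k * S.Q' 1 (l - N) + S.Q' 1 k * S.P' 1 (l - N) - ker (l - N) (k + N)
termination_by (2 * (l - k) - N).natAbs
decreasing_by
  · omega
  · omega

lemma ker_band (k : ℤ) (d : ℕ) (hd : d ≤ N) : S.ker k (k + d) = S.T d 1 k := by
  rw [ker]
  rw [dif_pos ⟨by omega, by omega⟩]
  congr 1
  omega

lemma ker_lt (k l : ℤ) (h : l < k) :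
    S.ker k l = S.P 1 k * S.Q 1 l + S.Q 1 k * S.P 1 l - S.ker l k := by
  rw [ker]
  rw [dif_neg (by omega), dif_pos h]

lemma ker_gt (k l : ℤ) (h : k + N < l) :
    S.ker k l = S.P' 1 k * S.Q' 1 (l - N) + S.Q' 1 k * S.P' 1 (l - N) -
      S.ker (l - N) (k + N) := by
  have := S.hN
  rw [ker]
  rw [dif_neg (by omega), dif_neg (by omega)]

lemma R0 (k l : ℤ) : S.ker k l + S.ker l k = S.P 1 k * S.Q 1 l + S.Q 1 k * S.P 1 l := by
  rcases lt_trichotomy k l with h | h | h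
  · rw [S.ker_lt l k h]; ring
  · subst h
    have h1 := S.ker_band k 0 (Nat.zero_le _)
    rw [S.T0] at h1
    simp only [Nat.cast_zero, add_zero] at h1
    rw [h1]; ring
  · rw [S.ker_lt k l h]; ring

lemma R1 (k l : ℤ) : S.ker k (l + N) + S.ker l (k + N) =
    S.P' 1 k * S.Q' 1 l + S.Q' 1 k * S.P' 1 l := by
  rcases lt_trichotomy k l with h | h | h
  · rw [S.ker_gt k (l + N) (by omega)]
    simp only [add_sub_cancel_right]
    ring
  · subst h
    have h1 := S.ker_band k N le_rfl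
    rw [S.TN] at h1
    rw [h1]; ring
  · rw [S.ker_gt l (k + N) (by omega)]
    simp only [add_sub_cancel_right]
    ring

/-- minors of the kernel -/
noncomputable def W (d j : ℕ) (s : ℤ) : K :=
  DM S.ker j (fun i => s + i) (fun i => s + d + i)

end Sys

/-- a realization of the kernel by two form data -/
structure Rz (S : Sys K N m) (E : Type*) [AddCommGroup E] [Module K E] where
  S0 : FD K E
  S1 : FD K E
  e : ℤ → E
  Φ0 : ∀ k l, S0.Φ (e k) (e l) = S.ker k l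
  a0 : ∀ k, S0.a (e k) = S.P 1 k
  b0 : ∀ k, S0.b (e k) = S.Q 1 k
  Φ1 : ∀ k l, S1.Φ (e k) (e l) = S.ker l (k + N)
  a1 : ∀ k, S1.a (e k) = S.P' 1 k
  b1 : ∀ k, S1.b (e k) = S.Q' 1 k

/-- window of consecutive vectors -/
def win {E : Type*} (e : ℤ → E) (s : ℤ) (j : ℕ) : List E := seg (fun i : ℕ => e (s + i)) j

lemma win_succ {E : Type*} (e : ℤ → E) (s : ℤ) (j : ℕ) :
    win e s (j + 1) = e s :: win e (s + 1) j := by
  rw [win, seg_succ, win]
  congr 2
  · simp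
  · funext i
    congr 1
    push_cast
    ring

variable {S : Sys K N m} {E : Type*} [AddCommGroup E] [Module K E]

/-- one step for one fork -/
lemma fork_step (F : FD K E) (e : ℤ → E) (j : ℕ) (A B : ℕ → ℤ → K) (D : ℤ → K)
    (hA : ∀ i ≤ j + 1, ∀ s, A i s = (F.Th (wd K (win e s i))).1)
    (hB : ∀ i ≤ j + 1, ∀ s, B i s = (F.Th (wd K (win e s i))).2)
    (nA : ∀ i ≤ j, ∀ s, A i s ≠ 0) (nB : ∀ i ≤ j, ∀ s, B i s ≠ 0)
    (hD : ∀ s, D s = DM (fun u v => F.Φ u v) (j + 1) (fun i => e (s + i)) (fun i => e (s + 1 + i)))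
    (r0 : ∀ s, A (j + 1) (s + 1) * B (j + 1) s = D s + B (j + 2) s * A j (s + 1))
    (r1 : ∀ s, B (j + 1) (s + 1) * A (j + 1) s = D s + A (j + 2) s * B j (s + 1)) (s : ℤ) :
    A (j + 2) s = (F.Th (wd K (win e s (j + 2)))).1 ∧
      B (j + 2) s = (F.Th (wd K (win e s (j + 2)))).2 := by
  have hNd : F.Nd (seg (fun i : ℕ => e (s + 1 + i)) j) := by
    apply FD.Nd_seg
    intro i hi
    have h1 := hA i (by omega) (s + 1)
    have h2 := hB i (by omega) (s + 1)
    rw [win] at h1 h2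
    rw [← h1, ← h2]
    exact ⟨nA i hi _, nB i hi _⟩
  obtain ⟨d1, d2⟩ := FD.DM_shift j F (e s) (fun i : ℕ => e (s + 1 + i)) hNd
  have hc : consq (e s) (fun i : ℕ => e (s + 1 + i)) = fun i : ℕ => e (s + i) := by
    funext i
    rcases i with _ | i
    · simp
    · rw [consq_succ]
      congr 1
      push_cast
      ring
  rw [hc, ← hD] at d1 d2
  have w0 : seg (fun i : ℕ => e (s + 1 + i)) j = win e (s + 1) j := rfl
  have w1 : seg (fun i : ℕ => e (s + 1 + i)) (j + 1) = win e (s + 1) (j + 1) := rfl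
  rw [w0, w1, ← win_succ, ← win_succ] at d1 d2
  rw [← hA _ le_rfl, ← hB _ le_rfl, ← hA _ (by omega)] at d1
  rw [← hA _ le_rfl, ← hB _ le_rfl, ← hB _ (by omega)] at d2
  have n1 := nA j le_rfl (s + 1)
  have n2 := nB j le_rfl (s + 1)
  constructor
  · apply mul_right_cancel₀ n2
    linear_combination (-1 : K) * r1 s - d2
  · apply mul_right_cancel₀ n1
    linear_combination (-1 : K) * r0 s - d1

lemma DM_transpose {X : Type*} (Φ : X → X → K) (n : ℕ) (r c : ℕ → X) :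
    DM (fun u v => Φ v u) n r c = DM Φ n c r := by
  rw [DM, DM, ← Matrix.det_transpose]
  rfl

/-- the window theorem -/
theorem window (R : Rz S E) : ∀ j ≤ m + 2, ∀ s,
    S.P j s = (R.S0.Th (wd K (win R.e s j))).1 ∧ S.Q j s = (R.S0.Th (wd K (win R.e s j))).2 ∧
    S.P' j s = (R.S1.Th (wd K (win R.e s j))).1 ∧ S.Q' j s = (R.S1.Th (wd K (win R.e s j))).2 ∧
    ∀ d ≤ N, S.T d j s = S.W d j s := by
  intro j
  induction j using Nat.strong_induction_on with
  | _ j ih =>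
  intro hj s
  rcases j with _ | _ | j
  · refine ⟨?_, ?_, ?_, ?_, ?_⟩
    · simp [win, S.P0]
    · simp [win, S.Q0]
    · simp [win, S.P'0]
    · simp [win, S.Q'0]
    · intro d hd
      simp [Sys.W, S.Tz d hd]
  · refine ⟨?_, ?_, ?_, ?_, ?_⟩
    · simp [win, seg_succ, R.a0]
    · simp [win, seg_succ, R.b0]
    · simp [win, seg_succ, R.a1]
    · simp [win, seg_succ, R.b1]
    · intro d hd
      simp only [Sys.W, zero_add, DM_one, Nat.cast_zero, add_zero]
      rw [S.ker_band _ _ hd]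
  · have hjm : j ≤ m := by omega
    have HP : ∀ i ≤ j + 1, ∀ s, S.P i s = (R.S0.Th (wd K (win R.e s i))).1 :=
      fun i hi s => (ih i (by omega) (by omega) s).1
    have HQ : ∀ i ≤ j + 1, ∀ s, S.Q i s = (R.S0.Th (wd K (win R.e s i))).2 :=
      fun i hi s => (ih i (by omega) (by omega) s).2.1
    have HP' : ∀ i ≤ j + 1, ∀ s, S.P' i s = (R.S1.Th (wd K (win R.e s i))).1 :=
      fun i hi s => (ih i (by omega) (by omega) s).2.2.1
    have HQ' : ∀ i ≤ j + 1, ∀ s, S.Q' i s = (R.S1.Th (wd K (win R.e s i))).2 :=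
      fun i hi s => (ih i (by omega) (by omega) s).2.2.2.1
    have HT : ∀ i ≤ j + 1, ∀ s, ∀ d ≤ N, S.T d i s = S.W d i s :=
      fun i hi s => (ih i (by omega) (by omega) s).2.2.2.2
    have hN := S.hN
    have A0 := fork_step R.S0 R.e j S.P S.Q (fun s => S.T 1 (j + 1) s) HP HQ
      (fun i hi s => S.nzP i (by omega) s) (fun i hi s => S.nzQ i (by omega) s)
      (by
        intro s
        rw [HT (j + 1) le_rfl s 1 hN, Sys.W]
        simp only [DM, R.Φ0]
        congr 1)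
      (fun s => S.rel0 j hjm s) (fun s => S.rel0' j hjm s) s
    have A1 := fork_step R.S1 R.e j S.P' S.Q' (fun s => S.T (N - 1) (j + 1) (s + 1)) HP' HQ'
      (fun i hi s => S.nzP' i (by omega) s) (fun i hi s => S.nzQ' i (by omega) s)
      (by
        intro s
        rw [HT (j + 1) le_rfl (s + 1) (N - 1) (by omega), Sys.W, ← DM_transpose]
        simp only [DM, R.Φ1]
        congr 1
        ext i k
        simp only [Matrix.of_apply]
        congr 1
        have : ((N - 1 : ℕ) : ℤ) = (N : ℤ) - 1 := by omega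
        rw [this]
        ring)
      (fun s => S.rel1 j hjm s) (fun s => S.rel1' j hjm s) s
    refine ⟨A0.1, A0.2, A1.1, A1.2, ?_⟩
    intro d hd
    rcases Nat.eq_zero_or_pos d with h0 | hpos
    · -- d = 0
      subst h0
      have hNd : R.S0.Nd (seg (fun i : ℕ => R.e (s + i)) (j + 1)) := by
        apply FD.Nd_seg
        intro i hi
        have h1 := HP i (by omega) s
        have h2 := HQ i (by omega) s
        rw [win] at h1 h2
        rw [← h1, ← h2]
        exact ⟨S.nzP i (by omega) _, S.nzQ i (by omega) _⟩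
      have := FD.DM_princ (j + 1) R.S0 (fun i : ℕ => R.e (s + i)) hNd
      have w0 : seg (fun i : ℕ => R.e (s + i)) (j + 1 + 1) = win R.e s (j + 2) := rfl
      rw [w0, ← A0.1, ← A0.2, ← S.T0] at this
      rw [← this, Sys.W]
      simp only [DM, R.Φ0]
      congr 1
      ext i k
      simp
    · rcases Nat.eq_or_lt_of_le hd with h1 | hlt
      · -- d = N
        have hNd : R.S1.Nd (seg (fun i : ℕ => R.e (s + i)) (j + 1)) := by
          apply FD.Nd_seg
          intro i hi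
          have h1 := HP' i (by omega) s
          have h2 := HQ' i (by omega) s
          rw [win] at h1 h2
          rw [← h1, ← h2]
          exact ⟨S.nzP' i (by omega) _, S.nzQ' i (by omega) _⟩
        have := FD.DM_princ (j + 1) R.S1 (fun i : ℕ => R.e (s + i)) hNd
        have w0 : seg (fun i : ℕ => R.e (s + i)) (j + 1 + 1) = win R.e s (j + 2) := rfl
        rw [w0, ← A1.1, ← A1.2, ← S.TN] at this
        rw [h1, ← this, Sys.W, ← DM_transpose]
        simp only [DM, R.Φ1]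
        congr 1
        ext i k
        simp only [Matrix.of_apply]
        congr 1
        ring
      · -- 0 < d < N
        obtain ⟨d, rfl⟩ : ∃ d', d = d' + 1 := ⟨d - 1, by omega⟩
        have e1 : (fun i : ℕ => s + ((i + 1 : ℕ) : ℤ)) = fun i : ℕ => s + 1 + i := by
          funext i; push_cast; ring
        have e2 : (fun i : ℕ => s + ((d + 1 : ℕ) : ℤ) + ((i + 1 : ℕ) : ℤ)) =
            fun i : ℕ => s + 1 + ((d + 1 : ℕ) : ℤ) + i := by
          funext i; push_cast; ring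
        have e3 : (fun i : ℕ => s + ((d + 1 : ℕ) : ℤ) + ((i + 1 : ℕ) : ℤ)) =
            fun i : ℕ => s + ((d + 2 : ℕ) : ℤ) + i := by
          funext i; push_cast; ring
        have e4 : (fun i : ℕ => s + ((d + 1 : ℕ) : ℤ) + (i : ℤ)) =
            fun i : ℕ => s + 1 + (d : ℤ) + i := by
          funext i; push_cast; ring
        have hint : DM S.ker j (fun i : ℕ => s + ((i + 1 : ℕ) : ℤ))
            (fun i : ℕ => s + ((d + 1 : ℕ) : ℤ) + ((i + 1 : ℕ) : ℤ)) = S.T (d + 1) j (s + 1) := by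
          rw [HT j (by omega) (s + 1) (d + 1) (by omega), Sys.W, e1, e2]
        have hne : DM S.ker j (fun i : ℕ => s + ((i + 1 : ℕ) : ℤ))
            (fun i : ℕ => s + ((d + 1 : ℕ) : ℤ) + ((i + 1 : ℕ) : ℤ)) ≠ 0 := by
          rw [hint]; exact S.nzT _ (by omega) _ (by omega) _
        have hDJ := DM_desnanot S.ker j (fun i : ℕ => s + (i : ℤ))
          (fun i : ℕ => s + ((d + 1 : ℕ) : ℤ) + (i : ℤ)) hne
        rw [hint] at hDJ
        have f1 : DM S.ker (j + 1) (fun i : ℕ => s + (i : ℤ))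
            (fun i : ℕ => s + ((d + 1 : ℕ) : ℤ) + (i : ℤ)) = S.T (d + 1) (j + 1) s := by
          rw [HT (j + 1) le_rfl s (d + 1) (by omega), Sys.W]
        have f2 : DM S.ker (j + 1) (fun i : ℕ => s + ((i + 1 : ℕ) : ℤ))
            (fun i : ℕ => s + ((d + 1 : ℕ) : ℤ) + ((i + 1 : ℕ) : ℤ)) =
            S.T (d + 1) (j + 1) (s + 1) := by
          rw [HT (j + 1) le_rfl (s + 1) (d + 1) (by omega), Sys.W, e1, e2]
        have f3 : DM S.ker (j + 1) (fun i : ℕ => s + (i : ℤ))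
            (fun i : ℕ => s + ((d + 1 : ℕ) : ℤ) + ((i + 1 : ℕ) : ℤ)) =
            S.T (d + 2) (j + 1) s := by
          rw [HT (j + 1) le_rfl s (d + 2) (by omega), Sys.W, e3]
        have f4 : DM S.ker (j + 1) (fun i : ℕ => s + ((i + 1 : ℕ) : ℤ))
            (fun i : ℕ => s + ((d + 1 : ℕ) : ℤ) + (i : ℤ)) =
            S.T d (j + 1) (s + 1) := by
          rw [HT (j + 1) le_rfl (s + 1) d (by omega), Sys.W, e1, e4]
        rw [f1, f2, f3, f4] at hDJ
        have hrel := S.relC d hlt j hjm s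
        apply mul_right_cancel₀ (S.nzT (d + 1) (by omega) j (by omega) (s + 1))
        rw [Sys.W, hDJ]
        linear_combination (-1 : K) * hrel

end H60TS
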